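import Pool.Agent.Helper426_TauT.Defs
import Pool.Agent.Helper426_Tach.DefsT

set_option autoImplicit false
open CategoryTheory Pool.Agent.Helper426Tach

namespace Pool.Agent.Helper426TauT

/-- Bk G c: the direct sum of c a copies of each module G a. -/
def Bk {R : Type} [Ring R] {N : ℕ} (G : Fin N → ModuleCat.{0} R) (c : Fin N → ℕ) :
    ModuleCat.{0} R :=
  ModuleCat.of R (∀ a, Fin (c a) → G a)

/-- TwoStep G Y: there is an exact sequence 0 → V1 → V0 → Y → 0 in which V1 and V0 are finite direct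
sums of copies of the modules G a. -/
def TwoStep {R : Type} [Ring R] {N : ℕ} (G : Fin N → ModuleCat.{0} R) (Y : ModuleCat.{0} R) :
    Prop :=
  ∃ (c1 c0 : Fin N → ℕ) (f : Bk G c1 →ₗ[R] Bk G c0) (g : Bk G c0 →ₗ[R] Y), SES f g

/-- IgusaTodorovType I: there are finitely many finitely generated modules G a such that for
infinitely many n some n-th syzygy Y of I satisfies TwoStep G Y. -/
def IgusaTodorovType {R : Type} [Ring R] (I : ModuleCat.{0} R) : Prop :=
  ∃ (N : ℕ) (G : Fin N → ModuleCat.{0} R), (∀ a, Module.Finite R (G a)) ∧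
    ∀ m : ℕ, ∃ n : ℕ, m ≤ n ∧ ∃ Y : ModuleCat.{0} R, Syz R n I Y ∧ TwoStep G Y

end Pool.Agent.Helper426TauT
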