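import Mathlib

set_option autoImplicit false

namespace Pool.Agent.Helper426TauT

theorem center_artin (k : Type) [CommRing k] [IsArtinianRing k] (R : Type) [Ring R] [Algebra k R]
    [Module.Finite k R] :
    Module.Finite (Subring.center R) R ∧ IsArtinianRing (Subring.center R) := by
  have hmap : ∀ c : k, algebraMap k R c ∈ Subring.center R := by
    intro c
    rw [Subring.mem_center_iff]
    intro r
    exact (Algebra.commutes c r).symm
  let f : k →+* Subring.center R := (algebraMap k R).codRestrict _ hmap
  let _ : Algebra k (Subring.center R) := f.toAlgebra
  have hst : IsScalarTower k (Subring.center R) R := ⟨fun c z r => by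
    change (algebraMap k R c * z.1) * r = c • (z.1 * r)
    rw [Algebra.smul_def, mul_assoc]⟩
  have hfin : Module.Finite (Subring.center R) R :=
    Module.Finite.of_restrictScalars_finite k (Subring.center R) R
  have hart : IsArtinianRing (Subring.center R) := by
    have h1 : IsNoetherian k R := inferInstance
    let g : Subring.center R →ₗ[k] R :=
      { toFun := Subtype.val
        map_add' := fun _ _ => rfl
        map_smul' := fun c z => by
          change algebraMap k R c * z.1 = c • z.1
          rw [Algebra.smul_def] }
    have h2 : Module.Finite k (Subring.center R) :=
      Module.Finite.of_injective g Subtype.val_injective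
    exact IsArtinianRing.of_finite k (Subring.center R)
  exact ⟨hfin, hart⟩

end Pool.Agent.Helper426TauT
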