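import Pool.Agent.Helper426_TauT.Defs
import Pool.Agent.Helper426_Tach.DefsT

set_option autoImplicit false
open CategoryTheory Pool.Agent.Helper426Tach

namespace Pool.Agent.Helper426TauT

/-- SumOf G M: the module M is isomorphic to a finite direct sum of copies of the modules G a. -/
inductive SumOf {R : Type} [Ring R] {N : ℕ} (G : Fin N → ModuleCat.{0} R) :
    ModuleCat.{0} R → Prop
  | zero {M : ModuleCat.{0} R} (h : Subsingleton M) : SumOf G M
  | cons {M Y : ModuleCat.{0} R} (a : Fin N) (hY : SumOf G Y)
      (e : Nonempty (M ≃ₗ[R] (G a × Y))) : SumOf G M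

/-- SyzFiniteType I: there are finitely many modules G a such that for infinitely many n some n-th
syzygy of I is a finite direct sum of copies of the G a. -/
def SyzFiniteType {R : Type} [Ring R] (I : ModuleCat.{0} R) : Prop :=
  ∃ (N : ℕ) (G : Fin N → ModuleCat.{0} R), ∀ m : ℕ, ∃ n : ℕ, m ≤ n ∧
    ∃ Y : ModuleCat.{0} R, Syz R n I Y ∧ SumOf G Y

end Pool.Agent.Helper426TauT
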