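import Pool.Agent.Helper426_TauT.Main
import Pool.Agent.Helper426_TauT.SyzDefs
import Pool.Agent.Helper426_Tach.Schan

set_option autoImplicit false
open CategoryTheory Pool.Agent.Helper426Tach

namespace Pool.Agent.Helper426TauT

section
variable {S : Type} [Ring S]

theorem pd_retract {X Y : ModuleCat.{0} S} (i : X →ₗ[S] Y) (p : Y →ₗ[S] X)
    (h : p ∘ₗ i = LinearMap.id) (n : ℕ) (hY : HasProjectiveDimensionLT Y n) :
    HasProjectiveDimensionLT X n := by
  have hr : Retract X Y := ⟨ModuleCat.ofHom i, ModuleCat.ofHom p, by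
    apply ModuleCat.hom_ext
    exact h⟩
  exact hr.hasProjectiveDimensionLT n

theorem pd_prod {X Y : ModuleCat.{0} S} (n : ℕ) (hX : HasProjectiveDimensionLT X n)
    (hY : HasProjectiveDimensionLT Y n) :
    HasProjectiveDimensionLT (ModuleCat.of S (X × Y)) n := by
  refine (sc_shortExact (A := X) (B := ModuleCat.of S (X × Y)) (C := Y) (LinearMap.inl S X Y)
    (LinearMap.snd S X Y) LinearMap.inl_injective ?_
    LinearMap.snd_surjective).hasProjectiveDimensionLT_X₂ n hX hY
  intro x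
  constructor
  · intro h
    exact ⟨x.1, Prod.ext rfl h.symm⟩
  · rintro ⟨a, rfl⟩
    rfl

theorem pd_zero {X : ModuleCat.{0} S} (h : Subsingleton X) (n : ℕ) :
    HasProjectiveDimensionLT X n := by
  have h1 : Limits.IsZero X := ModuleCat.isZero_of_subsingleton X
  have h2 := h1.hasProjectiveDimensionLT_zero
  exact hasProjectiveDimensionLT_of_ge X 0 n (Nat.zero_le _)

end

section
variable {R B : Type} [Ring R] [Ring B] [Module R B] [IsScalarTower R B B]

/-- the dual with values in B -/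
abbrev HB (B : Type) [Ring B] [Module R B] [IsScalarTower R B B] (M : ModuleCat.{0} R) :
    ModuleCat.{0} Bᵐᵒᵖ :=
  ModuleCat.of Bᵐᵒᵖ (M →ₗ[R] B)

theorem pd_dual_retract {X Y : ModuleCat.{0} R} (i : X →ₗ[R] Y) (p : Y →ₗ[R] X)
    (h : p ∘ₗ i = LinearMap.id) (n : ℕ) (hY : HasProjectiveDimensionLT (HB B Y) n) :
    HasProjectiveDimensionLT (HB B X) n := by
  refine pd_retract (X := HB B X) (Y := HB B Y) (pre B p) (pre B i) ?_ n hY
  refine LinearMap.ext fun u => LinearMap.ext fun x => ?_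
  change u (p (i x)) = u x
  rw [show p (i x) = x from LinearMap.congr_fun h x]

theorem pd_dual_prod {M X Y : ModuleCat.{0} R} (e : M ≃ₗ[R] (X × Y)) (n : ℕ)
    (hX : HasProjectiveDimensionLT (HB B X) n) (hY : HasProjectiveDimensionLT (HB B Y) n) :
    HasProjectiveDimensionLT (HB B M) n := by
  refine pd_retract (X := HB B M) (Y := ModuleCat.of Bᵐᵒᵖ (HB B X × HB B Y))
    (LinearMap.prod (pre B (e.symm.toLinearMap ∘ₗ LinearMap.inl R X Y))
      (pre B (e.symm.toLinearMap ∘ₗ LinearMap.inr R X Y)))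
    (LinearMap.coprod (pre B (LinearMap.fst R X Y ∘ₗ e.toLinearMap))
      (pre B (LinearMap.snd R X Y ∘ₗ e.toLinearMap))) ?_ n (pd_prod n hX hY)
  refine LinearMap.ext fun u => LinearMap.ext fun x => ?_
  change u (e.symm ((e x).1, 0)) + u (e.symm (0, (e x).2)) = u x
  rw [← map_add, ← map_add]
  congr 1
  rw [LinearEquiv.symm_apply_eq]
  exact Prod.ext (add_zero _) (zero_add _)

theorem pd_dual_proj {P : ModuleCat.{0} R} (hf : Module.Finite R P) (hP : Module.Projective R P)
    (n : ℕ) (hn : 1 ≤ n) : HasProjectiveDimensionLT (HB B P) n := by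
  obtain ⟨s, a, ha⟩ := Module.Finite.exists_fin' R P
  obtain ⟨b, hb⟩ := Module.projective_lifting_property a LinearMap.id ha
  exact pd_dual_retract (Y := ModuleCat.of R (Fin s → R)) b a hb n (qm_pd s n hn)

theorem sumof_pd {N : ℕ} (G : Fin N → ModuleCat.{0} R) (E : ℕ)
    (hE : ∀ a, (∃ n, HasProjectiveDimensionLT (HB B (G a)) n) →
      HasProjectiveDimensionLT (HB B (G a)) E) (M : ModuleCat.{0} R) (hM : SumOf G M) :
    (∃ n, HasProjectiveDimensionLT (HB B M) n) → HasProjectiveDimensionLT (HB B M) E := by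
  induction hM with
  | @zero M h =>
    intro _
    refine pd_zero ?_ E
    exact ⟨fun u v => LinearMap.ext fun x => by rw [Subsingleton.elim x 0, map_zero, map_zero]⟩
  | @cons M Y a hY e ih =>
    rintro ⟨n, hn⟩
    obtain ⟨e⟩ := e
    have h1 : HasProjectiveDimensionLT (HB B (G a)) n :=
      pd_dual_retract (Y := M) (e.symm.toLinearMap ∘ₗ LinearMap.inl R (G a) Y)
        (LinearMap.fst R (G a) Y ∘ₗ e.toLinearMap) (LinearMap.ext fun x => by simp) n hn
    have h2 : HasProjectiveDimensionLT (HB B Y) n :=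
      pd_dual_retract (Y := M) (e.symm.toLinearMap ∘ₗ LinearMap.inr R (G a) Y)
        (LinearMap.snd R (G a) Y ∘ₗ e.toLinearMap) (LinearMap.ext fun x => by simp) n hn
    exact pd_dual_prod e E (hE a ⟨n, h1⟩) (ih ⟨n, h2⟩)

theorem exists_bound {N : ℕ} (G : Fin N → ModuleCat.{0} R) :
    ∃ E : ℕ, ∀ a, (∃ n, HasProjectiveDimensionLT (HB B (G a)) n) →
      HasProjectiveDimensionLT (HB B (G a)) E := by
  classical
  have h1 : ∀ a, ∃ n : ℕ, (∃ n, HasProjectiveDimensionLT (HB B (G a)) n) →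
      HasProjectiveDimensionLT (HB B (G a)) n := by
    intro a
    by_cases h : ∃ n, HasProjectiveDimensionLT (HB B (G a)) n
    · obtain ⟨n, hn⟩ := h
      exact ⟨n, fun _ => hn⟩
    · exact ⟨0, fun h' => absurd h' h⟩
  choose b hb using h1
  refine ⟨Finset.univ.sup b, fun a ha => ?_⟩
  have := hb a ha
  exact hasProjectiveDimensionLT_of_ge _ (b a) _ (Finset.le_sup (Finset.mem_univ a))

/-- the syzygies in a free resolution -/
theorem syz_of_res {Z : ℕ → ModuleCat.{0} R} {n : ℕ → ℕ}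
    (κ : ∀ i, Z (i + 1) →ₗ[R] (Fin (n i) → R)) (ρ : ∀ i, (Fin (n i) → R) →ₗ[R] Z i)
    (hκ : ∀ i, Function.Injective (κ i)) (hex : ∀ i, Function.Exact (κ i) (ρ i))
    (hρ : ∀ i, Function.Surjective (ρ i)) (i : ℕ) : Syz R i (Z 0) (Z i) := by
  induction i with
  | zero => exact Syz.zero _
  | succ i ih =>
    refine Syz.succ (P := ModuleCat.of R (Fin (n i) → R)) ih (κ i) (ρ i) ?_ ?_
      ⟨hκ i, hex i, hρ i⟩
    · change Module.Finite R (Fin (n i) → R)
      infer_instance
    · change Module.Projective R (Fin (n i) → R)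
      infer_instance

theorem pd_syz {N : ℕ} (G : Fin N → ModuleCat.{0} R) (E : ℕ)
    (hE : ∀ a, (∃ n, HasProjectiveDimensionLT (HB B (G a)) n) →
      HasProjectiveDimensionLT (HB B (G a)) E) {n : ℕ} {M Y Z : ModuleCat.{0} R}
    (hY : Syz R n M Y) (hZ : Syz R n M Z) (hs : SumOf G Y)
    (hfin : ∃ l, HasProjectiveDimensionLT (HB B Z) l) :
    HasProjectiveDimensionLT (HB B Z) (E + 1) := by
  obtain ⟨P, Q, hP1, hP2, hQ1, hQ2, ⟨e⟩⟩ := syz_schanuel hY hZ
  obtain ⟨l, hl⟩ := hfin
  have h1 : HasProjectiveDimensionLT (HB B (ModuleCat.of R (Y × P))) (l + 1) := by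
    refine pd_dual_prod (X := Z) (Y := Q) e (l + 1) ?_ (pd_dual_proj hQ1 hQ2 _ (by omega))
    exact hasProjectiveDimensionLT_of_ge _ l _ (by omega)
  have h2 : HasProjectiveDimensionLT (HB B Y) (l + 1) :=
    pd_dual_retract (Y := ModuleCat.of R (Y × P)) (LinearMap.inl R Y P) (LinearMap.fst R Y P)
      (LinearMap.ext fun x => rfl) _ h1
  have h3 : HasProjectiveDimensionLT (HB B Y) E := sumof_pd G E hE Y hs ⟨_, h2⟩
  have h4 : HasProjectiveDimensionLT (HB B (ModuleCat.of R (Z × Q))) (E + 1) := by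
    refine pd_dual_prod (X := Y) (Y := P) e.symm (E + 1) ?_ (pd_dual_proj hP1 hP2 _ (by omega))
    exact hasProjectiveDimensionLT_of_ge _ E _ (by omega)
  exact pd_dual_retract (Y := ModuleCat.of R (Z × Q)) (LinearMap.inl R Z Q) (LinearMap.fst R Z Q)
    (LinearMap.ext fun x => rfl) _ h4

end

section
variable {R : Type} [Ring R] [hart : IsArtinianRing (Subring.center R)]
  [hfin : Module.Finite (Subring.center R) R] [HasExt.{0} (ModuleCat.{0} R)]

/-- Main theorem, the case of an annihilator with syzygies of finite type. -/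
theorem main_syz (T : ModuleCat.{0} R) (hT : TauTilting T)
    (hself : ∀ i, 1 ≤ i → Subsingleton (Abelian.Ext.{0} T T i))
    (hI : SyzFiniteType (ModuleCat.of R (Module.annihilator R T))) :
    OneTilting T := by
  have hartR : IsArtinianRing R := IsArtinianRing.of_finite (Subring.center R) R
  obtain ⟨N, G, hG⟩ := hI
  obtain ⟨E, hE⟩ := exists_bound (B := R ⧸ Module.annihilator R T) G
  obtain ⟨n, hn, Y, hY, hs⟩ := hG (E + 2)
  obtain ⟨q, rfl⟩ : ∃ q, n = q + 1 := ⟨n - 1, by omega⟩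
  refine main_q T hT q (by omega) ?_ (fun i hi _ => hself i hi)
  intro Z nn κ ρ hZ0 hκ hex hρ hext hzero
  have hZ := syz_of_res κ ρ hκ hex hρ (q + 1)
  rw [hZ0] at hZ
  have h1 := pd_syz G E hE hY hZ hs
    ⟨q + 1, seq_up κ ρ hex hρ q hext hzero q le_rfl⟩
  exact hasProjectiveDimensionLT_of_ge _ (E + 1) q (by omega)

end

end Pool.Agent.Helper426TauT
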