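import Pool.Agent.Helper426_TauT.IT2
import Pool.Agent.Helper426_TauT.SyzFin
import Pool.Agent.Helper426_TauT.ITDefs

set_option autoImplicit false
open CategoryTheory Pool.Agent.Helper426Tach

namespace Pool.Agent.Helper426TauT

section
variable {R : Type} [Ring R]

/-- products of products -/
def prodPi {ι : Type} (X Y : ι → Type) [∀ a, AddCommGroup (X a)] [∀ a, Module R (X a)]
    [∀ a, AddCommGroup (Y a)] [∀ a, Module R (Y a)] :
    (∀ a, X a × Y a) ≃ₗ[R] ((∀ a, X a) × (∀ a, Y a)) where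
  toFun x := (fun a => (x a).1, fun a => (x a).2)
  invFun x := fun a => (x.1 a, x.2 a)
  left_inv x := rfl
  right_inv x := rfl
  map_add' x y := rfl
  map_smul' r x := rfl

theorem bk_add {N : ℕ} (W : Fin N → ModuleCat.{0} R) (c d : Fin N → ℕ) :
    Nonempty (Bk W (c + d) ≃ₗ[R] (Bk W c × Bk W d)) := by
  let e1 : (∀ a, Fin (c a + d a) → W a) ≃ₗ[R] (∀ a, (Fin (c a) → W a) × (Fin (d a) → W a)) :=
    LinearEquiv.piCongrRight fun a =>
      (LinearEquiv.funCongrLeft R (W a) (finSumFinEquiv (m := c a) (n := d a))).trans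
        (LinearEquiv.sumArrowLequivProdArrow (Fin (c a)) (Fin (d a)) R (W a))
  exact ⟨e1.trans (prodPi (fun a => Fin (c a) → W a) (fun a => Fin (d a) → W a))⟩

theorem ses_congr {A B C B' C' : ModuleCat.{0} R} {f : A →ₗ[R] B} {g : B →ₗ[R] C} (h : SES f g)
    (e : B ≃ₗ[R] B') (e' : C ≃ₗ[R] C') :
    SES (X := A) (Y := B') (Z := C') (e.toLinearMap ∘ₗ f)
      (e'.toLinearMap ∘ₗ g ∘ₗ e.symm.toLinearMap) := by
  obtain ⟨hf, hfg, hg⟩ := h
  refine ⟨e.injective.comp hf, ?_, e'.surjective.comp (hg.comp e.symm.surjective)⟩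
  intro x
  constructor
  · intro hx
    have h1 : g (e.symm x) = 0 := e'.map_eq_zero_iff.mp hx
    obtain ⟨a, ha⟩ := (hfg _).mp h1
    refine ⟨a, ?_⟩
    change e (f a) = x
    rw [ha, LinearEquiv.apply_symm_apply]
  · rintro ⟨a, rfl⟩
    change e' (g (e.symm (e (f a)))) = 0
    rw [LinearEquiv.symm_apply_apply, (hfg _).mpr ⟨a, rfl⟩, map_zero]

theorem syz_inv {n : ℕ} {M Y : ModuleCat.{0} R} (h : Syz R (n + 1) M Y) :
    ∃ (X P : ModuleCat.{0} R) (f : Y →ₗ[R] P) (g : P →ₗ[R] X), Syz R n M X ∧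
      Module.Finite R P ∧ Module.Projective R P ∧ SES f g := by
  cases h with
  | succ hX f g hfin hproj h => exact ⟨_, _, f, g, hX, hfin, hproj, h⟩

theorem syz_zero_inv {M Y : ModuleCat.{0} R} (h : Syz R 0 M Y) : Y = M := by
  cases h
  rfl

theorem syz_congr {n : ℕ} {M M' Y : ModuleCat.{0} R} (e : M ≃ₗ[R] M')
    (h : Syz R (n + 1) M Y) : Syz R (n + 1) M' Y := by
  induction n generalizing Y with
  | zero =>
    obtain ⟨X, P, f, g, hX, hfin, hproj, hS⟩ := syz_inv h
    obtain rfl := syz_zero_inv hX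
    have h1 := ses_congr hS (LinearEquiv.refl R P) e
    exact Syz.succ (Syz.zero M') _ _ hfin hproj h1
  | succ n ih =>
    obtain ⟨X, P, f, g, hX, hfin, hproj, hS⟩ := syz_inv h
    exact Syz.succ (ih hX) f g hfin hproj hS

theorem syz_prod {n : ℕ} {M M' Y Y' : ModuleCat.{0} R} (h : Syz R n M Y) (h' : Syz R n M' Y') :
    Syz R n (ModuleCat.of R (M × M')) (ModuleCat.of R (Y × Y')) := by
  induction n generalizing Y Y' with
  | zero =>
    obtain rfl := syz_zero_inv h
    obtain rfl := syz_zero_inv h'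
    exact Syz.zero _
  | succ n ih =>
    obtain ⟨X, P, f, g, hX, hfin, hproj, hf, hfg, hg⟩ := syz_inv h
    obtain ⟨X', P', f', g', hX', hfin', hproj', hf', hfg', hg'⟩ := syz_inv h'
    refine Syz.succ (P := ModuleCat.of R (P × P')) (ih hX hX') (f.prodMap f') (g.prodMap g')
      ?_ ?_ ⟨?_, ?_, ?_⟩
    · change Module.Finite R (P × P')
      infer_instance
    · change Module.Projective R (P × P')
      infer_instance
    · exact hf.prodMap hf'
    · intro x
      constructor
      · intro hx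
        have h1 : g x.1 = 0 := congrArg Prod.fst hx
        have h2 : g' x.2 = 0 := congrArg Prod.snd hx
        obtain ⟨a, ha⟩ := (hfg _).mp h1
        obtain ⟨b, hb⟩ := (hfg' _).mp h2
        exact ⟨(a, b), Prod.ext ha hb⟩
      · rintro ⟨a, rfl⟩
        exact Prod.ext ((hfg _).mpr ⟨a.1, rfl⟩) ((hfg' _).mpr ⟨a.2, rfl⟩)
    · exact hg.prodMap hg'

theorem proj_pi {ι : Type} [Fintype ι] (X : ι → Type) [∀ a, AddCommGroup (X a)]
    [∀ a, Module R (X a)] (h : ∀ a, Module.Projective R (X a)) :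
    Module.Projective R (∀ a, X a) := by
  classical
  exact Module.Projective.of_equiv (DFinsupp.linearEquivFunOnFintype (R := R) (M := X))

theorem syz_bk {n N : ℕ} {W U : Fin N → ModuleCat.{0} R} (h : ∀ a, Syz R n (W a) (U a))
    (c : Fin N → ℕ) : Syz R n (Bk W c) (Bk U c) := by
  induction n generalizing U with
  | zero =>
    have h1 : U = W := funext fun a => syz_zero_inv (h a)
    rw [h1]
    exact Syz.zero _
  | succ n ih =>
    have h1 := fun a => syz_inv (h a)
    choose X P f g hX hfin hproj hS using h1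
    let F : Bk U c →ₗ[R] Bk P c :=
      { toFun := fun x a i => f a (x a i)
        map_add' := fun x y => by
          funext a i
          exact map_add (f a) (x a i) (y a i)
        map_smul' := fun r x => by
          funext a i
          exact map_smul (f a) r (x a i) }
    let G : Bk P c →ₗ[R] Bk X c :=
      { toFun := fun x a i => g a (x a i)
        map_add' := fun x y => by
          funext a i
          exact map_add (g a) (x a i) (y a i)
        map_smul' := fun r x => by
          funext a i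
          exact map_smul (g a) r (x a i) }
    refine Syz.succ (P := Bk P c) (ih hX) F G ?_ ?_ ⟨?_, ?_, ?_⟩
    · change Module.Finite R (∀ a, Fin (c a) → P a)
      infer_instance
    · exact proj_pi _ fun a => proj_pi _ fun i => hproj a
    · intro x y hxy
      funext a i
      exact (hS a).1 (congrFun (congrFun hxy a) i)
    · intro x
      constructor
      · intro hx
        have h1 : ∀ a i, ∃ z, f a z = x a i := fun a i =>
          ((hS a).2.1 _).mp (congrFun (congrFun hx a) i)
        choose z hz using h1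
        refine ⟨z, ?_⟩
        funext a i
        exact hz a i
      · rintro ⟨z, rfl⟩
        funext a i
        exact ((hS a).2.1 _).mpr ⟨z a i, rfl⟩
    · intro x
      have h1 : ∀ a i, ∃ z, g a z = x a i := fun a i => (hS a).2.2 _
      choose z hz using h1
      refine ⟨z, ?_⟩
      funext a i
      exact hz a i

theorem syz_pd_up {n : ℕ} {X Y : ModuleCat.{0} R} (h : Syz R n X Y) :
    ∀ m, HasProjectiveDimensionLT Y m → HasProjectiveDimensionLT X (m + n) := by
  induction h with
  | zero M => intro m h; exact h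
  | @succ n M X P Y hX f g hfin hproj h ih =>
    intro m hm
    obtain ⟨hf, hfg, hg⟩ := h
    have hP : Projective P := (IsProjective.iff_projective P).mp hproj
    have h1 : HasProjectiveDimensionLT X (m + 1) :=
      (sc_shortExact f g hf hfg hg).hasProjectiveDimensionLT_X₃ m hm
        (hasProjectiveDimensionLT_of_ge P 1 (m + 1) (by omega))
    have h2 := ih (m + 1) h1
    rwa [show m + 1 + n = m + (n + 1) by omega] at h2

/-! summands of powers -/

theorem addG_trans {G X Y : ModuleCat.{0} R} (h : IsSummand X Y) (hY : AddG G Y) : AddG G X := by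
  obtain ⟨n, hn⟩ := hY
  exact ⟨n, summand_trans h hn⟩

theorem addG_pi {ι : Type} [Fintype ι] {G : ModuleCat.{0} R} (X : ι → ModuleCat.{0} R)
    (h : ∀ a, AddG G (X a)) : AddG G (ModuleCat.of R (∀ a, X a)) := by
  classical
  choose n i p hp using h
  let e := Fintype.equivFin (Σ a, Fin (n a))
  refine ⟨Fintype.card (Σ a, Fin (n a)),
    { toFun := fun x k => i (e.symm k).1 (x (e.symm k).1) (e.symm k).2
      map_add' := fun x y => by
        funext k
        change i (e.symm k).1 (x (e.symm k).1 + y (e.symm k).1) (e.symm k).2 = _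
        rw [map_add]
        rfl
      map_smul' := fun r x => by
        funext k
        change i (e.symm k).1 (r • x (e.symm k).1) (e.symm k).2 = _
        rw [map_smul]
        rfl },
    { toFun := fun y a => p a (fun l => y (e ⟨a, l⟩))
      map_add' := fun x y => by
        funext a
        exact map_add (p a) (fun l => x (e ⟨a, l⟩)) (fun l => y (e ⟨a, l⟩))
      map_smul' := fun r x => by
        funext a
        exact map_smul (p a) r (fun l => x (e ⟨a, l⟩)) }, ?_⟩
  refine LinearMap.ext fun x => ?_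
  funext a
  change p a (fun l => i (e.symm (e ⟨a, l⟩)).1 (x (e.symm (e ⟨a, l⟩)).1)
    (e.symm (e ⟨a, l⟩)).2) = x a
  have h1 : (fun l => i (e.symm (e ⟨a, l⟩)).1 (x (e.symm (e ⟨a, l⟩)).1)
    (e.symm (e ⟨a, l⟩)).2) = i a (x a) := by
    funext l
    rw [Equiv.symm_apply_apply]
  rw [h1]
  exact LinearMap.congr_fun (hp a) (x a)

theorem addG_prod {G X Y : ModuleCat.{0} R} (hX : AddG G X) (hY : AddG G Y) :
    AddG G (ModuleCat.of R (X × Y)) := by
  obtain ⟨r, hr⟩ := hX
  obtain ⟨s, hs⟩ := hY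
  refine ⟨r + s, summand_trans (summand_prod hr hs) (summand_equiv
    (X := ModuleCat.of R ((Fin r → G) × (Fin s → G)))
    (Y := ModuleCat.of R (Fin (r + s) → G)) ?_)⟩
  exact ((LinearEquiv.funCongrLeft R G (finSumFinEquiv (m := r) (n := s))).trans
    (LinearEquiv.sumArrowLequivProdArrow (Fin r) (Fin s) R G)).symm

theorem addG_bk {G : ModuleCat.{0} R} {N : ℕ} {U : Fin N → ModuleCat.{0} R}
    (h : ∀ a, AddG G (U a)) (c : Fin N → ℕ) : AddG G (Bk U c) :=
  addG_pi (fun a => ModuleCat.of R (Fin (c a) → U a)) fun a => addG_pi (fun _ => U a) fun _ => h a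

theorem addG_self (G : ModuleCat.{0} R) : AddG G G :=
  ⟨1, LinearMap.pi fun _ => LinearMap.id, LinearMap.proj 0, rfl⟩

theorem addG_proj {G P : ModuleCat.{0} R} (hR : AddG G (ModuleCat.of R R))
    (hf : Module.Finite R P) (hP : Module.Projective R P) : AddG G P := by
  obtain ⟨s, a, ha⟩ := Module.Finite.exists_fin' R P
  obtain ⟨b, hb⟩ := Module.projective_lifting_property a LinearMap.id ha
  exact addG_trans (Y := ModuleCat.of R (Fin s → R)) ⟨b, a, hb⟩
    (addG_pi (fun _ => ModuleCat.of R R) fun _ => hR)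

variable [IsNoetherianRing R]

theorem syz_finite {n : ℕ} {M Y : ModuleCat.{0} R} (hM : Module.Finite R M) (h : Syz R n M Y) :
    Module.Finite R Y := by
  cases h with
  | zero => exact hM
  | @succ n M X P Y hX f g hfin hproj h => exact Module.Finite.of_injective f h.1

theorem exists_syz (n : ℕ) (M : ModuleCat.{0} R) (hM : Module.Finite R M) :
    ∃ Y : ModuleCat.{0} R, Syz R n M Y := by
  induction n with
  | zero => exact ⟨M, Syz.zero M⟩
  | succ n ih =>
    obtain ⟨Y, hY⟩ := ih
    have hYf := syz_finite hM hY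
    obtain ⟨b, p, hp⟩ := Module.Finite.exists_fin' R Y
    refine ⟨ModuleCat.of R (LinearMap.ker p), Syz.succ (P := ModuleCat.of R (Fin b → R)) hY
      (LinearMap.ker p).subtype p ?_ ?_
      ⟨Submodule.injective_subtype _, LinearMap.exact_subtype_ker_map _, hp⟩⟩
    · change Module.Finite R (Fin b → R)
      infer_instance
    · change Module.Projective R (Fin b → R)
      infer_instance

theorem common_succ {n : ℕ} {M M' : ModuleCat.{0} R} (hM : Module.Finite R M)
    (h : ∃ Y, Syz R n M Y ∧ Syz R n M' Y) : ∃ Y, Syz R (n + 1) M Y ∧ Syz R (n + 1) M' Y := by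
  obtain ⟨Y, hY, hY'⟩ := h
  have hYf := syz_finite hM hY
  obtain ⟨b, p, hp⟩ := Module.Finite.exists_fin' R Y
  have h1 : Module.Finite R (ModuleCat.of R (Fin b → R)) := by
    change Module.Finite R (Fin b → R)
    infer_instance
  have h2 : Module.Projective R (ModuleCat.of R (Fin b → R)) := by
    change Module.Projective R (Fin b → R)
    infer_instance
  have h3 : SES (X := ModuleCat.of R (LinearMap.ker p)) (Y := ModuleCat.of R (Fin b → R))
      (Z := Y) (LinearMap.ker p).subtype p :=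
    ⟨Submodule.injective_subtype _, LinearMap.exact_subtype_ker_map _, hp⟩
  exact ⟨ModuleCat.of R (LinearMap.ker p), Syz.succ hY _ _ h1 h2 h3, Syz.succ hY' _ _ h1 h2 h3⟩

/-- differences of classes with a common syzygy -/
def KG {N : ℕ} (W : Fin N → ModuleCat.{0} R) (hW : ∀ a, Module.Finite R (W a)) (j : ℕ) :
    AddSubgroup (Fin N → ℤ) where
  carrier := {x | ∃ c c' : Fin N → ℕ, (∀ a, x a + (c' a : ℤ) = (c a : ℤ)) ∧
    ∃ Y, Syz R (j + 1) (Bk W c) Y ∧ Syz R (j + 1) (Bk W c') Y}
  zero_mem' := by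
    obtain ⟨Y, hY⟩ := exists_syz (j + 1) (Bk W 0) (by
      change Module.Finite R (∀ a, Fin 0 → W a)
      infer_instance)
    exact ⟨0, 0, fun a => by simp, Y, hY, hY⟩
  add_mem' := by
    rintro x y ⟨c, c', h1, Y, hY, hY'⟩ ⟨d, d', h2, Z, hZ, hZ'⟩
    refine ⟨c + d, c' + d', fun a => ?_, ModuleCat.of R (Y × Z), ?_, ?_⟩
    · have e1 := h1 a
      have e2 := h2 a
      simp only [Pi.add_apply]
      push_cast
      omega
    · obtain ⟨e⟩ := bk_add W c d
      exact syz_congr (M := ModuleCat.of R (Bk W c × Bk W d)) e.symm (syz_prod hY hZ)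
    · obtain ⟨e⟩ := bk_add W c' d'
      exact syz_congr (M := ModuleCat.of R (Bk W c' × Bk W d')) e.symm (syz_prod hY' hZ')
  neg_mem' := by
    rintro x ⟨c, c', h1, Y, hY, hY'⟩
    refine ⟨c', c, fun a => ?_, Y, hY', hY⟩
    have e1 := h1 a
    simp only [Pi.neg_apply]
    omega

theorem bk_finite {N : ℕ} (W : Fin N → ModuleCat.{0} R) (hW : ∀ a, Module.Finite R (W a))
    (c : Fin N → ℕ) : Module.Finite R (Bk W c) := by
  change Module.Finite R (∀ a, Fin (c a) → W a)
  infer_instance

theorem kg_stable {N : ℕ} (W : Fin N → ModuleCat.{0} R) (hW : ∀ a, Module.Finite R (W a)) :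
    ∃ j0, ∀ j, j0 ≤ j → KG W hW j0 = KG W hW j := by
  let F : ℕ →o Submodule ℤ (Fin N → ℤ) :=
    ⟨fun j => AddSubgroup.toIntSubmodule (KG W hW j), monotone_nat_of_le_succ fun j => by
      apply AddSubgroup.toIntSubmodule.monotone
      rintro x ⟨c, c', h1, h2⟩
      exact ⟨c, c', h1, common_succ (bk_finite W hW c) h2⟩⟩
  obtain ⟨j0, hj0⟩ := monotone_stabilizes_iff_noetherian.mpr
    (inferInstance : IsNoetherian ℤ (Fin N → ℤ)) F
  exact ⟨j0, fun j hj => AddSubgroup.toIntSubmodule.injective (hj0 j hj)⟩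

end

section
variable {R : Type} [Ring R] [hart : IsArtinianRing (Subring.center R)]
  [hfin : Module.Finite (Subring.center R) R] [HasExt.{0} (ModuleCat.{0} R)]

/-- the bound of Igusa and Todorov -/
theorem it_bound {N : ℕ} (W : Fin N → ModuleCat.{0} R) (hW : ∀ a, Module.Finite R (W a)) :
    ∃ E : ℕ, ∀ (X M M' : ModuleCat.{0} R) (f : X →ₗ[R] M) (g : M →ₗ[R] M') (c c' : Fin N → ℕ),
      SES f g → Nonempty (M ≃ₗ[R] Bk W c) → Nonempty (M' ≃ₗ[R] Bk W c') →
      (∃ n, HasProjectiveDimensionLT X n) → HasProjectiveDimensionLT X E := by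
  classical
  have hartR : IsArtinianRing R := IsArtinianRing.of_finite (Subring.center R) R
  obtain ⟨j0, hj0⟩ := kg_stable W hW
  choose U hU using fun a => exists_syz (j0 + 1) (W a) (hW a)
  have hUf : ∀ a, Module.Finite R (U a) := fun a => syz_finite (hW a) (hU a)
  let G : ModuleCat.{0} R := ModuleCat.of R ((∀ a, U a) × R)
  have hG : Module.Finite R G := by
    change Module.Finite R ((∀ a, U a) × R)
    infer_instance
  obtain ⟨E, hE⟩ := pd_core G hG
  have hGU : ∀ a, AddG G (U a) := fun a => addG_trans (Y := G)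
    ⟨LinearMap.inl R (∀ a, U a) R ∘ₗ LinearMap.single R (fun a => (U a : Type)) a,
      LinearMap.proj a ∘ₗ LinearMap.fst R (∀ a, U a) R, LinearMap.ext fun x => by
        change (LinearMap.single R (fun a => (U a : Type)) a x) a = x
        simp⟩ (addG_self G)
  have hGR : AddG G (ModuleCat.of R R) := addG_trans (Y := G)
    ⟨LinearMap.inr R (∀ a, U a) R, LinearMap.snd R (∀ a, U a) R, rfl⟩ (addG_self G)
  refine ⟨E + (j0 + 1), ?_⟩
  rintro X M M' f g c c' hfg ⟨eM⟩ ⟨eM'⟩ ⟨n, hn⟩
  have hMf : Module.Finite R M := by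
    have := bk_finite W hW c
    exact Module.Finite.equiv eM.symm
  have hMf' : Module.Finite R M' := by
    have := bk_finite W hW c'
    exact Module.Finite.equiv eM'.symm
  have hXf : Module.Finite R X := Module.Finite.of_injective f hfg.1
  -- the difference of the classes lies in the stable subgroup
  let j := max j0 n
  have hXj : HasProjectiveDimensionLT X (j + 1) :=
    hasProjectiveDimensionLT_of_ge X n _ (le_trans (le_max_right j0 n) (Nat.le_succ _))
  obtain ⟨Y0, hY0, hY0'⟩ := common_syz f g hfg hXf hMf hMf' j hXj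
  have hmem : (fun a => (c a : ℤ) - (c' a : ℤ)) ∈ KG W hW j :=
    ⟨c, c', fun a => by ring, Y0, syz_congr eM hY0, syz_congr eM' hY0'⟩
  rw [← hj0 j (le_max_left _ _)] at hmem
  obtain ⟨d, d', hd, Y1, hY1, hY1'⟩ := hmem
  have hcd : c + d' = c' + d := by
    funext a
    have h1 : ((c a : ℤ) - (c' a : ℤ)) + (d' a : ℤ) = (d a : ℤ) := hd a
    simp only [Pi.add_apply]
    omega
  let V : ModuleCat.{0} R := Bk W d'
  have hVf : Module.Finite R V := bk_finite W hW d'
  obtain ⟨Y2, hY2⟩ := exists_syz (j0 + 1) (Bk W c') (bk_finite W hW c')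
  let Z : ModuleCat.{0} R := ModuleCat.of R (Y2 × Y1)
  have hZ1 : Syz R (j0 + 1) (Bk W (c' + d)) Z := by
    obtain ⟨e⟩ := bk_add W c' d
    exact syz_congr (M := ModuleCat.of R (Bk W c' × Bk W d)) e.symm (syz_prod hY2 hY1)
  have hZf : Module.Finite R Z := syz_finite (bk_finite W hW _) hZ1
  have hZM : Syz R (j0 + 1) (ModuleCat.of R (M × V)) Z := by
    obtain ⟨e⟩ := bk_add W c d'
    have h1 : Syz R (j0 + 1) (Bk W (c + d')) Z := by rw [hcd]; exact hZ1
    exact syz_congr (e.trans (LinearEquiv.prodCongr eM.symm (LinearEquiv.refl R (Bk W d')))) h1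
  have hZM' : Syz R (j0 + 1) (ModuleCat.of R (M' × V)) Z := by
    exact syz_congr (M := ModuleCat.of R (Bk W c' × Bk W d'))
      (LinearEquiv.prodCongr eM'.symm (LinearEquiv.refl R (Bk W d'))) (syz_prod hY2 hY1')
  -- the enlarged sequence
  obtain ⟨hf, hfg', hg⟩ := id hfg
  have hS : SES (X := X) (Y := ModuleCat.of R (M × V)) (Z := ModuleCat.of R (M' × V))
      (LinearMap.inl R M V ∘ₗ f) (g.prodMap LinearMap.id) := by
    refine ⟨LinearMap.inl_injective.comp hf, ?_, hg.prodMap Function.surjective_id⟩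
    intro x
    constructor
    · intro hx
      have h1 : g x.1 = 0 := congrArg Prod.fst hx
      have h2 : x.2 = 0 := congrArg Prod.snd hx
      obtain ⟨a, ha⟩ := (hfg' _).mp h1
      exact ⟨a, Prod.ext ha h2.symm⟩
    · rintro ⟨a, rfl⟩
      exact Prod.ext ((hfg' _).mpr ⟨a, rfl⟩) rfl
  obtain ⟨Xj, A, A', f', g', hS', hXjf, hAf, hAf', sX, sA, sA'⟩ := horseshoe _ _ hS hXf
    (by change Module.Finite R (M × V); infer_instance)
    (by change Module.Finite R (M' × V); infer_instance) (j0 + 1)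
  obtain ⟨P, Q, hP1, hP2, hQ1, hQ2, ⟨e1⟩⟩ := syz_schanuel sA hZM
  obtain ⟨P', Q', hP1', hP2', hQ1', hQ2', ⟨e2⟩⟩ := syz_schanuel sA' hZM'
  obtain ⟨hf1, hfg1, hg1⟩ := hS'
  let i0 : (Xj × P) →ₗ[R] ((A × P) × P') :=
    LinearMap.inl R (A × P) P' ∘ₗ (f'.prodMap LinearMap.id)
  let p0 : ((A × P) × P') →ₗ[R] (A' × P') :=
    (g' ∘ₗ LinearMap.fst R A P).prodMap LinearMap.id
  have hS2 : SES (X := ModuleCat.of R (Xj × P)) (Y := ModuleCat.of R ((A × P) × P'))
      (Z := ModuleCat.of R (A' × P')) i0 p0 := by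
    refine ⟨?_, ?_, ?_⟩
    · intro x y hxy
      have h1 : (f' x.1, x.2) = (f' y.1, y.2) := congrArg Prod.fst hxy
      have h2 : f' x.1 = f' y.1 := congrArg Prod.fst h1
      have h3 : x.2 = y.2 := (Prod.ext_iff.mp h1).2
      exact Prod.ext (hf1 h2) h3
    · intro x
      constructor
      · intro hx
        have h1 : g' x.1.1 = 0 := congrArg Prod.fst hx
        have h2 : x.2 = 0 := congrArg Prod.snd hx
        obtain ⟨a, ha⟩ := (hfg1 _).mp h1
        refine ⟨(a, x.1.2), ?_⟩
        exact Prod.ext (Prod.ext ha rfl) h2.symm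
      · rintro ⟨a, rfl⟩
        exact Prod.ext ((hfg1 _).mpr ⟨a.1, rfl⟩) rfl
    · rintro ⟨a, b⟩
      obtain ⟨z, hz⟩ := hg1 a
      exact ⟨((z, 0), b), Prod.ext hz rfl⟩
  let E1 : ((A × P) × P') ≃ₗ[R] (Z × (Q × P')) :=
    (LinearEquiv.prodCongr e1 (LinearEquiv.refl R P')).trans (LinearEquiv.prodAssoc R Z Q P')
  have hS3 := ses_congr hS2 (B' := ModuleCat.of R (Z × (ModuleCat.of R (Q × P'))))
    (C' := ModuleCat.of R (Z × Q')) E1 e2
  -- Z is a summand of a power of G
  have hZG : AddG G Z := by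
    obtain ⟨P3, Q3, hP3, hP3', hQ3, hQ3', ⟨e3⟩⟩ := syz_schanuel hZ1 (syz_bk hU (c' + d))
    refine addG_trans (Y := ModuleCat.of R (Bk U (c' + d) × Q3)) ?_
      (addG_prod (addG_bk hGU _) (addG_proj hGR hQ3 hQ3'))
    exact ⟨e3.toLinearMap ∘ₗ LinearMap.inl R Z P3, LinearMap.fst R Z P3 ∘ₗ e3.symm.toLinearMap,
      LinearMap.ext fun x => by simp⟩
  have hpdXj : HasProjectiveDimensionLT Xj (j + 1) :=
    syz_pd sX (j + 1) (by omega) (hasProjectiveDimensionLT_of_ge X (j + 1) _ (by omega))
  have hpdP : HasProjectiveDimensionLT P (j + 1) := by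
    have : Projective P := (IsProjective.iff_projective P).mp hP2
    exact hasProjectiveDimensionLT_of_ge P 1 _ (by omega)
  have hQP : Module.Projective R (Q × P') := inferInstance
  have h5 := hE (ModuleCat.of R (Xj × P)) Z (ModuleCat.of R (Q × P')) Q' _ _ hZf hZG hQP hQ2' hS3
    ⟨j + 1, pd_prod (j + 1) hpdXj hpdP⟩
  have h6 : HasProjectiveDimensionLT Xj E :=
    pd_retract (Y := ModuleCat.of R (Xj × P)) (LinearMap.inl R Xj P) (LinearMap.fst R Xj P)
      (LinearMap.ext fun x => rfl) E h5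
  exact syz_pd_up sX E h6

end

end Pool.Agent.Helper426TauT
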