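import Pool.Agent.Helper426_TauT.IT4
import Pool.Agent.Helper426_GSC.Semi2

set_option autoImplicit false
open CategoryTheory Pool.Agent.Helper426Tach Pool.Agent.Helper426GSC

namespace Pool.Agent.Helper426TauT

/-- submodules of a finitely generated module need boundedly many generators -/
theorem gen_of_inj (k : Type) [Field k] (S : Type) [Ring S] [Algebra k S] [Module.Finite k S]
    (F : ModuleCat.{0} S) (hF : Module.Finite S F) :
    ∃ d : ℕ, ∀ X : ModuleCat.{0} S, (∃ i : X →ₗ[S] F, Function.Injective i) →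
      ∃ g : (Fin d → S) →ₗ[S] X, Function.Surjective g := by
  classical
  let _ : Module k F := Module.compHom F (algebraMap k S)
  have _ : IsScalarTower k S F := ⟨fun c r x => by
    rw [Algebra.smul_def, mul_smul]
    rfl⟩
  have hFk : Module.Finite k F := Module.Finite.trans S F
  refine ⟨Module.finrank k F, ?_⟩
  rintro X ⟨i, hi⟩
  let _ : Module k X := Module.compHom X (algebraMap k S)
  have _ : IsScalarTower k S X := ⟨fun c r x => by
    rw [Algebra.smul_def, mul_smul]
    rfl⟩
  let i' : X →ₗ[k] F :=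
    { toFun := i
      map_add' := fun x y => map_add i x y
      map_smul' := fun c x => map_smul i (algebraMap k S c) x }
  have hi' : Function.Injective i' := hi
  have hXk : Module.Finite k X := Module.Finite.of_injective i' hi'
  have hle : Module.finrank k X ≤ Module.finrank k F :=
    LinearMap.finrank_le_finrank_of_injective (f := i') hi'
  let b := Module.finBasis k X
  let s : Fin (Module.finrank k F) → X := fun j =>
    if h : j.1 < Module.finrank k X then b ⟨j.1, h⟩ else 0
  refine ⟨Fintype.linearCombination S s, fun x => ?_⟩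
  have hx := b.sum_repr x
  refine ⟨fun j => if h : j.1 < Module.finrank k X then algebraMap k S (b.repr x ⟨j.1, h⟩)
    else 0, ?_⟩
  rw [Fintype.linearCombination_apply]
  have h1 : ∀ j : Fin (Module.finrank k F),
      (if h : j.1 < Module.finrank k X then algebraMap k S (b.repr x ⟨j.1, h⟩) else 0) • s j =
      if h : j.1 < Module.finrank k X then b.repr x ⟨j.1, h⟩ • b ⟨j.1, h⟩ else 0 := by
    intro j
    by_cases h : j.1 < Module.finrank k X
    · simp only [s, h, dif_pos]
      rfl
    · simp only [s, h, dif_neg, not_false_eq_true, smul_zero]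
  rw [Finset.sum_congr rfl fun j _ => h1 j]
  conv_rhs => rw [← hx]
  symm
  refine Finset.sum_bij_ne_zero (fun i _ _ => (⟨i.1, lt_of_lt_of_le i.2 hle⟩ : Fin _)) ?_ ?_ ?_ ?_
  · intro a _ _
    exact Finset.mem_univ _
  · intro a _ _ a' _ _ h
    have h2 : a.1 = a'.1 := congrArg (fun z : Fin (Module.finrank k F) => z.1) h
    exact Fin.ext h2
  · intro j _ hj
    by_cases h : j.1 < Module.finrank k X
    · rw [dif_pos h] at hj
      exact ⟨⟨j.1, h⟩, Finset.mem_univ _, hj, rfl⟩
    · rw [dif_neg h] at hj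
      exact absurd rfl hj
  · intro a _ _
    have h2 : a.1 < Module.finrank k X := a.2
    rw [dif_pos h2]

section
variable {R B : Type} [Ring R] [Ring B] [Module R B] [IsScalarTower R B B]

theorem hb_piFin {n : ℕ} (X : Fin n → ModuleCat.{0} R) :
    Nonempty (HB B (ModuleCat.of R (∀ i, X i)) ≃ₗ[Bᵐᵒᵖ] (∀ i, HB B (X i))) :=
  ⟨(LinearMap.lsum R (fun i => (X i : Type)) Bᵐᵒᵖ).symm⟩

end

/-- Main theorem, the case of an annihilator with bounded syzygies. -/
theorem main_bddT (k : Type) [Field k] (A : Type) [Ring A] [Algebra k A]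
    (hk : Module.Finite k A) [HasExt.{0} (ModuleCat.{0} A)] (T : ModuleCat.{0} A)
    (hT : TauTilting T) (d : ℕ)
    (hI : BddSyz (ModuleCat.of A (Module.annihilator A T)) d)
    (hself : ∀ i, 1 ≤ i → Subsingleton (Abelian.Ext.{0} T T i)) :
    OneTilting T := by
  obtain ⟨hfin, hart⟩ := center_artin k A
  have hartR : IsArtinianRing A := IsArtinianRing.of_finite (Subring.center A) A
  have h1 : Module.Finite k (A ⧸ Module.annihilator A T) :=
    Module.Finite.of_surjective (Ideal.Quotient.mkₐ k (Module.annihilator A T)).toLinearMap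
      (Ideal.Quotient.mkₐ_surjective k (Module.annihilator A T))
  have h2 : Module.Finite k (A ⧸ Module.annihilator A T)ᵐᵒᵖ :=
    Module.Finite.equiv (MulOpposite.opLinearEquiv k)
  obtain ⟨d', hd'⟩ := gen_of_inj k (A ⧸ Module.annihilator A T)ᵐᵒᵖ
    (HB (A ⧸ Module.annihilator A T) (ModuleCat.of A (Fin d → A)))
    (fin_freeHom (R := A) (B := A ⧸ Module.annihilator A T) d)
  obtain ⟨E, hE⟩ := pd_bounded k (A ⧸ Module.annihilator A T)ᵐᵒᵖ d'
  obtain ⟨n, hn, Y, hY, r, X, hX, ⟨e⟩⟩ := hI (E + 2)
  obtain ⟨q, rfl⟩ : ∃ q, n = q + 1 := ⟨n - 1, by omega⟩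
  refine main_q T hT q (by omega) ?_ (fun i hi _ => hself i hi)
  intro Z nn κ ρ hZ0 hκ hex hρ hext hzero
  have hZ := syz_of_res κ ρ hκ hex hρ (q + 1)
  rw [hZ0] at hZ
  have hb : BddSum d' (HB (A ⧸ Module.annihilator A T) Y) := by
    obtain ⟨e1⟩ := hb_piFin (B := A ⧸ Module.annihilator A T) X
    refine ⟨r, fun i => HB (A ⧸ Module.annihilator A T) (X i), fun i => ?_, ⟨?_⟩⟩
    · obtain ⟨g, hg⟩ := hX i
      exact hd' _ ⟨pre _ g, pre_injective g hg⟩
    · exact (LinearEquiv.ofBijective (pre (A ⧸ Module.annihilator A T) e.symm.toLinearMap) (by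
        constructor
        · exact pre_injective _ e.symm.surjective
        · intro u
          refine ⟨u ∘ₗ e.toLinearMap, LinearMap.ext fun x => ?_⟩
          change u (e (e.symm x)) = u x
          rw [LinearEquiv.apply_symm_apply])).trans e1
  have h3 := pd_syz_gen (B := A ⧸ Module.annihilator A T) E hY hZ (bddsum_pd hE _ hb)
    ⟨q + 1, seq_up κ ρ hex hρ q hext hzero q le_rfl⟩
  exact hasProjectiveDimensionLT_of_ge _ (E + 1) q (by omega)

end Pool.Agent.Helper426TauT
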