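import Pool.Agent.Helper426_TauT.Fac

set_option autoImplicit false
open CategoryTheory Pool.Agent.Helper426Tach

namespace Pool.Agent.Helper426TauT

section
variable {R : Type} [Ring R] [hart : IsArtinianRing (Subring.center R)]
  [hfin : Module.Finite (Subring.center R) R]

/-- length over the center of the module of homomorphisms -/
noncomputable abbrev hC (R : Type) [Ring R] (M N : Type) [AddCommGroup M] [Module R M]
    [AddCommGroup N] [Module R N] : ℤ := hl (Subring.center R) R M N

theorem hC_sub {X N : Type} [AddCommGroup X] [Module R X] [AddCommGroup N] [Module R N]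
    [Module.Finite R X] [Module.Finite R N] (N' : Submodule R N) :
    hC R X N' ≤ hC R X N ∧
      (hC R X N' = hC R X N → ∀ (φ : X →ₗ[R] N) (x : X), φ x ∈ N') := by
  have hNk : Module.Finite (Subring.center R) N := finite_center
  let F : (X →ₗ[R] N') →ₗ[Subring.center R] (X →ₗ[R] N) :=
    { toFun := fun u => N'.subtype ∘ₗ u
      map_add' := fun u v => LinearMap.comp_add _ _ _
      map_smul' := fun c u => rfl }
  have hF : Function.Injective F := by
    intro u v huv
    refine LinearMap.ext fun x => ?_
    exact Subtype.ext (LinearMap.congr_fun huv x)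
  have h1 := len_exact F (LinearMap.range F).mkQ hF (Submodule.mkQ_surjective _) (by
    intro x
    rw [← LinearMap.mem_ker, Submodule.ker_mkQ]
    rfl)
  have h2 : 0 ≤ len (Subring.center R) ((X →ₗ[R] N) ⧸ LinearMap.range F) := len_nonneg
  unfold hC hl
  refine ⟨by omega, fun h3 φ x => ?_⟩
  have h4 : len (Subring.center R) ((X →ₗ[R] N) ⧸ LinearMap.range F) = 0 := by omega
  rw [len_eq_zero_iff, Submodule.Quotient.subsingleton_iff] at h4
  have h5 : φ ∈ LinearMap.range F := by
    rw [h4]
    trivial
  obtain ⟨u, rfl⟩ := h5
  exact (u x).2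

theorem hC_eq_of_lands {X N : Type} [AddCommGroup X] [Module R X] [AddCommGroup N] [Module R N]
    [Module.Finite R X] [Module.Finite R N] (N' : Submodule R N)
    (h : ∀ (φ : X →ₗ[R] N) (x : X), φ x ∈ N') : hC R X N' = hC R X N := by
  unfold hC hl
  refine len_equiv ?_
  exact
    { toFun := fun u => N'.subtype ∘ₗ u
      invFun := fun v => v.codRestrict N' (h v)
      left_inv := fun u => LinearMap.ext fun x => Subtype.ext rfl
      right_inv := fun v => LinearMap.ext fun x => rfl
      map_add' := fun u v => LinearMap.comp_add _ _ _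
      map_smul' := fun c u => rfl }

theorem hC_add {P M : Type} [AddCommGroup P] [Module R P] [AddCommGroup M] [Module R M]
    [Module.Finite R P] [Module.Finite R M] (hP : Module.Projective R P) (N : Submodule R M) :
    hC R P M = hC R P N + hC R P (M ⧸ N) := by
  have hMk : Module.Finite (Subring.center R) M := finite_center
  have hQk : Module.Finite (Subring.center R) (M ⧸ N) := finite_center
  have hNk : Module.Finite R N := by
    have hartR : IsArtinianRing R := IsArtinianRing.of_finite (Subring.center R) R
    infer_instance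
  have h1 := (hl_cov (k := Subring.center R) (X := P) N.subtype N.mkQ N.injective_subtype
    (LinearMap.exact_subtype_mkQ N)).mpr
    (fun φ => Module.projective_lifting_property N.mkQ φ (Submodule.mkQ_surjective N))
  unfold hC
  omega

theorem hC_zero {P M : Type} [AddCommGroup P] [Module R P] [AddCommGroup M] [Module R M]
    [Module.Finite R P] [Subsingleton M] : hC R P M = 0 := by
  have : Module.Finite R M := inferInstance
  have hMk : Module.Finite (Subring.center R) M := finite_center
  unfold hC hl
  rw [len_eq_zero_iff]
  infer_instance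

variable [HasExt.{0} (ModuleCat.{0} R)]

/-- a tau-rigid module has at most as many indecomposable summands as there are simple modules
killed by its annihilator -/
theorem count_le (U : ModuleCat.{0} R) (hU : Module.Finite R U) (hrig : TauRigid U)
    {m n' : ℕ} (X : Fin m → ModuleCat.{0} R) (hX : ∀ i, Indec (X i) ∧ IsSummand (X i) U)
    (hne : ∀ i j, Nonempty (X i ≃ₗ[R] X j) → i = j)
    (S : Fin n' → ModuleCat.{0} R) (hS : ∀ j, IsSimpleModule R (S j))
    (hall : ∀ Y : ModuleCat.{0} R, IsSimpleModule R Y →
      (∀ r : R, (∀ u : U, r • u = 0) → ∀ y : Y, r • y = 0) → ∃ j, Nonempty (Y ≃ₗ[R] S j)) :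
    m ≤ n' := by
  classical
  have hartR : IsArtinianRing R := IsArtinianRing.of_finite (Subring.center R) R
  have hXf : ∀ i, Module.Finite R (X i) := fun i => infac_finite hU (infac_summand (hX i).2)
  have hXE : ∀ i, ∀ N : ModuleCat.{0} R, InFac U N → Subsingleton (Abelian.Ext.{0} (X i) N 1) := by
    intro i N hN
    obtain ⟨a, b, hab⟩ := (hX i).2
    exact ez_retract (W := U) a b hab (hrig N hN)
  have hpres := fun i => exists_pres (X i) U (hXf i) hU (hXE i)
  choose P0 P1 p g hP0f hP1f hP0 hP1 hpg hg hlift using hpres
  let γ : Fin m → (N : Type) → [AddCommGroup N] → [Module R N] → ℤ :=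
    fun i N _ _ => hC R (P0 i) N - hC R (P1 i) N
  let f : (Fin m → ℤ) →ₗ[ℤ] (Fin n' → ℤ) :=
    Matrix.mulVecLin (Matrix.of fun j i => γ i (S j))
  have hf : ∀ c j, f c j = ∑ i, γ i (S j) * c i := by
    intro c j
    simp only [f, Matrix.mulVecLin_apply, Matrix.mulVec, dotProduct, Matrix.of_apply]
  -- values on modules of finite length killed by the annihilator
  have hlen : ∀ c, f c = 0 → ∀ {N : Type} [AddCommGroup N] [Module R N], IsFiniteLength R N →
      (∀ r : R, (∀ u : U, r • u = 0) → ∀ y : N, r • y = 0) → ∑ i, γ i N * c i = 0 := by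
    intro c hc N _ _ hN
    induction hN with
    | @of_subsingleton N _ _ _ =>
      intro _
      refine Finset.sum_eq_zero fun i _ => ?_
      have h1 := hP0f i
      have h2 := hP1f i
      simp only [γ]
      rw [hC_zero, hC_zero, sub_self, zero_mul]
    | @of_simple_quotient N _ _ N' hs h ih =>
      intro hann
      have hNX : IsFiniteLength R N := IsFiniteLength.of_simple_quotient h
      have hfl := isFiniteLength_iff_isNoetherian_isArtinian.mp hNX
      have hXn := hfl.1
      obtain ⟨j, ⟨e⟩⟩ := hall (ModuleCat.of R (N ⧸ N')) hs (by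
        intro r hr y
        obtain ⟨y, rfl⟩ := Submodule.mkQ_surjective N' y
        rw [← map_smul, hann r hr y, map_zero])
      have h1 := ih (fun r hr y => Subtype.ext (hann r hr y))
      have h2 : ∀ i, γ i N = γ i N' + γ i (S j) := by
        intro i
        have h3 := hP0f i
        have h4 := hP1f i
        have h5 : hC R (P0 i) (N ⧸ N') = hC R (P0 i) (S j) := hl_congr_right e
        have h6 : hC R (P1 i) (N ⧸ N') = hC R (P1 i) (S j) := hl_congr_right e
        simp only [γ]
        rw [hC_add (hP0 i) N', hC_add (hP1 i) N', h5, h6]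
        ring
      have h3 : ∑ i, γ i (S j) * c i = 0 := by
        rw [← hf, hc]
        rfl
      have h4 : ∑ i, γ i N * c i = ∑ i, γ i N' * c i + ∑ i, γ i (S j) * c i := by
        rw [← Finset.sum_add_distrib]
        refine Finset.sum_congr rfl fun i _ => ?_
        rw [h2, add_mul]
      rw [h4, h1, h3, add_zero]
  -- on Fac U these are lengths of Hom
  have hhom : ∀ (N : ModuleCat.{0} R), InFac U N → ∀ i, γ i N = hC R (X i) N := by
    intro N hN i
    have h1 := hP0f i
    have h2 := hP1f i
    have h3 := infac_finite hU hN
    have h4 : Module.Finite (Subring.center R) N := finite_center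
    have h5 := (hl_contra (k := Subring.center R) (X := N) (p i) (g i) (hg i) (hpg i)).mpr
      (hlift i N hN)
    simp only [γ]
    unfold hC
    omega
  have hrel : ∀ c, f c = 0 → ∀ N : ModuleCat.{0} R, InFac U N → ∑ i, hC R (X i) N * c i = 0 := by
    intro c hc N hN
    have h3 := infac_finite hU hN
    have h1 : IsFiniteLength R N :=
      isFiniteLength_iff_isNoetherian_isArtinian.mpr ⟨inferInstance, inferInstance⟩
    rw [← hlen c hc h1 (infac_ann hN)]
    exact Finset.sum_congr rfl fun i _ => by rw [hhom N hN i]
  -- one direction of mutual generation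
  have hgen : ∀ c, f c = 0 → ∀ j, c j < 0 →
      trc X (Finset.univ.filter fun i => 0 < c i) (X j) = ⊤ := by
    intro c hc j hj
    have hfj := hXf j
    have h1 := hrel c hc (X j) (infac_summand (hX j).2)
    have h2 := hrel c hc _ (infac_trc X (hXf j) (fun i => (hX i).2)
      (Finset.univ.filter fun i => 0 < c i))
    have h3 : ∑ i, (hC R (X i) (X j) -
        hC R (X i) (trc X (Finset.univ.filter fun i => 0 < c i) (X j))) * c i = 0 := by
      simp only [sub_mul, Finset.sum_sub_distrib]
      have h2' : ∑ i, hC R (X i) (trc X (Finset.univ.filter fun i => 0 < c i) (X j)) * c i = 0 :=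
        h2
      rw [h1, h2', sub_zero]
    have h4 : ∀ i ∈ Finset.univ, (hC R (X i) (X j) -
        hC R (X i) (trc X (Finset.univ.filter fun i => 0 < c i) (X j))) * c i ≤ 0 := by
      intro i _
      have hfi := hXf i
      rcases lt_trichotomy (c i) 0 with h | h | h
      · have h5 := (hC_sub (X := X i) (trc X (Finset.univ.filter fun i => 0 < c i) (X j))).1
        exact mul_nonpos_of_nonneg_of_nonpos (by omega) h.le
      · rw [h, mul_zero]
      · have h5 := hC_eq_of_lands (X := X i)
          (trc X (Finset.univ.filter fun i => 0 < c i) (X j))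
          (fun φ x => mem_trc X (Finset.mem_filter.mpr ⟨Finset.mem_univ i, h⟩) φ x)
        rw [h5, sub_self, zero_mul]
    have h5 := (Finset.sum_eq_zero_iff_of_nonpos h4).mp h3 j (Finset.mem_univ j)
    have h6 : hC R (X j) (trc X (Finset.univ.filter fun i => 0 < c i) (X j)) =
        hC R (X j) (X j) := by
      rcases mul_eq_zero.mp h5 with h | h
      · omega
      · omega
    rw [eq_top_iff]
    intro x _
    exact (hC_sub (X := X j) (trc X (Finset.univ.filter fun i => 0 < c i) (X j))).2 h6
      LinearMap.id x
  have hneg : ∀ c, f c = 0 → f (-c) = 0 := by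
    intro c hc
    rw [map_neg, hc, neg_zero]
  have hempty : ∀ c, f c = 0 → (Finset.univ.filter fun i => 0 < c i) = ∅ := by
    intro c hc
    refine exchange X (fun i => (hX i).1) hXf hne _ (Finset.univ.filter fun i => 0 < (-c) i) ?_ ?_ ?_
    · rw [Finset.disjoint_left]
      intro i h1 h2
      have h3 := (Finset.mem_filter.mp h1).2
      have h4 := (Finset.mem_filter.mp h2).2
      rw [Pi.neg_apply] at h4
      omega
    · intro i hi
      have h3 := (Finset.mem_filter.mp hi).2
      exact hgen (-c) (hneg c hc) i (by rw [Pi.neg_apply]; omega)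
    · intro j hj
      have h3 := (Finset.mem_filter.mp hj).2
      rw [Pi.neg_apply] at h3
      exact hgen c hc j (by omega)
  have hinj : Function.Injective f := by
    rw [← LinearMap.ker_eq_bot, eq_bot_iff]
    intro c hc
    have hc' : f c = 0 := hc
    rw [Submodule.mem_bot]
    funext i
    by_contra hci
    rcases lt_or_gt_of_ne hci with h | h
    · have h1 : i ∈ (Finset.univ.filter fun i => 0 < (-c) i) :=
        Finset.mem_filter.mpr ⟨Finset.mem_univ i, by
          rw [Pi.neg_apply]
          have h0 : c i < 0 := h
          omega⟩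
      rw [hempty (-c) (hneg c hc')] at h1
      exact absurd h1 (Finset.notMem_empty i)
    · have h1 : i ∈ (Finset.univ.filter fun i => 0 < c i) :=
        Finset.mem_filter.mpr ⟨Finset.mem_univ i, h⟩
      rw [hempty c hc'] at h1
      exact absurd h1 (Finset.notMem_empty i)
  have h1 := card_le_of_injective ℤ f hinj
  simpa using h1

end

end Pool.Agent.Helper426TauT
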