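import Mathlib

set_option autoImplicit false
open CategoryTheory

namespace Pool.Agent.Helper426TauT

/-- X is isomorphic to a direct summand of T. -/
def IsSummand {R : Type} [Ring R] (X T : ModuleCat.{0} R) : Prop :=
  ∃ (i : X →ₗ[R] T) (p : T →ₗ[R] X), p ∘ₗ i = LinearMap.id

/-- X is indecomposable: nonzero and not isomorphic to a product of two nonzero modules. -/
def Indec {R : Type} [Ring R] (X : ModuleCat.{0} R) : Prop :=
  Nontrivial X ∧ ∀ Y Z : ModuleCat.{0} R, Nonempty (X ≃ₗ[R] (Y × Z)) →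
    Subsingleton Y ∨ Subsingleton Z

/-- Up to isomorphism T has exactly n indecomposable direct summands. -/
def CountSummands {R : Type} [Ring R] (T : ModuleCat.{0} R) (n : ℕ) : Prop :=
  ∃ X : Fin n → ModuleCat.{0} R, (∀ i, Indec (X i) ∧ IsSummand (X i) T) ∧
    (∀ i j, Nonempty (X i ≃ₗ[R] X j) → i = j) ∧
    ∀ Y : ModuleCat.{0} R, Indec Y → IsSummand Y T → ∃ i, Nonempty (Y ≃ₗ[R] X i)

/-- Up to isomorphism R has exactly n simple modules. -/
def CountSimples (R : Type) [Ring R] (n : ℕ) : Prop :=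
  ∃ S : Fin n → ModuleCat.{0} R, (∀ i, IsSimpleModule R (S i)) ∧
    (∀ i j, Nonempty (S i ≃ₗ[R] S j) → i = j) ∧
    ∀ Y : ModuleCat.{0} R, IsSimpleModule R Y → ∃ i, Nonempty (Y ≃ₗ[R] S i)

/-- N is a quotient of a finite power of T. -/
def InFac {R : Type} [Ring R] (T N : ModuleCat.{0} R) : Prop :=
  ∃ (n : ℕ) (f : (Fin n → T) →ₗ[R] N), Function.Surjective f

/-- T is tau-rigid, in the form of Auslander and Smalo: Ext^1(T, N) = 0 for all N in Fac T. -/
def TauRigid {R : Type} [Ring R] [HasExt.{0} (ModuleCat.{0} R)] (T : ModuleCat.{0} R) : Prop :=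
  ∀ N : ModuleCat.{0} R, InFac T N → Subsingleton (Abelian.Ext.{0} T N 1)

/-- T has as many indecomposable direct summands as R has simple modules, up to isomorphism. -/
def FullSize {R : Type} [Ring R] (T : ModuleCat.{0} R) : Prop :=
  ∃ n : ℕ, CountSummands T n ∧ CountSimples R n

/-- tau-tilting modules: tau-rigid with |T| = |R|. -/
def TauTilting {R : Type} [Ring R] [HasExt.{0} (ModuleCat.{0} R)] (T : ModuleCat.{0} R) : Prop :=
  Module.Finite R T ∧ TauRigid T ∧ FullSize T

/-- classical tilting modules: pd T ≤ 1, Ext^1(T, T) = 0 and |T| = |R|. -/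
def OneTilting {R : Type} [Ring R] [HasExt.{0} (ModuleCat.{0} R)] (T : ModuleCat.{0} R) : Prop :=
  Module.Finite R T ∧ HasProjectiveDimensionLE T 1 ∧ Subsingleton (Abelian.Ext.{0} T T 1) ∧
    FullSize T

/-- The right (little) finitistic dimension of B is at most d: every finitely generated right
B-module of finite projective dimension has projective dimension at most d. -/
def RightFindimLE (B : Type) [Ring B] (d : ℕ) : Prop :=
  ∀ M : ModuleCat.{0} Bᵐᵒᵖ, Module.Finite Bᵐᵒᵖ M →
    (∃ n : ℕ, HasProjectiveDimensionLE M n) → HasProjectiveDimensionLE M d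

end Pool.Agent.Helper426TauT
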