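import Pool.Agent.Helper426_Tach.ExtS

set_option autoImplicit false
open CategoryTheory Pool.Agent.Helper426Tach

namespace Pool.Agent.Helper426TauT

section
variable {R B : Type} [Ring R] [Ring B] [Module R B] [IsScalarTower R B B]

/-- precomposition as a map of right B-modules -/
def pre (B : Type) [Ring B] [Module R B] [IsScalarTower R B B]
    {M N : Type} [AddCommGroup M] [Module R M] [AddCommGroup N] [Module R N]
    (f : M →ₗ[R] N) : (N →ₗ[R] B) →ₗ[Bᵐᵒᵖ] (M →ₗ[R] B) where
  toFun u := u ∘ₗ f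
  map_add' _ _ := rfl
  map_smul' _ _ := rfl

/-- B is a free right B-module -/
def opEquiv : B ≃ₗ[Bᵐᵒᵖ] Bᵐᵒᵖ where
  toFun := MulOpposite.op
  invFun := MulOpposite.unop
  left_inv _ := rfl
  right_inv _ := rfl
  map_add' _ _ := rfl
  map_smul' c x := by
    change MulOpposite.op (x * MulOpposite.unop c) = c * MulOpposite.op x
    rw [MulOpposite.op_mul, MulOpposite.op_unop]

omit [Module R B] [IsScalarTower R B B] in
theorem freeB : Module.Free Bᵐᵒᵖ B := Module.Free.of_equiv (opEquiv (B := B)).symm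

omit [Module R B] [IsScalarTower R B B] in
theorem finB : Module.Finite Bᵐᵒᵖ B := Module.Finite.equiv (opEquiv (B := B)).symm

/-- maps out of a free module -/
noncomputable def freeHom (n : ℕ) : (Fin n → B) ≃ₗ[Bᵐᵒᵖ] ((Fin n → R) →ₗ[R] B) :=
  (Pi.basisFun R (Fin n)).constr Bᵐᵒᵖ

theorem proj_freeHom (n : ℕ) : Module.Projective Bᵐᵒᵖ ((Fin n → R) →ₗ[R] B) := by
  have := freeB (B := B)
  exact Module.Projective.of_equiv (freeHom (R := R) (B := B) n)

theorem fin_freeHom (n : ℕ) : Module.Finite Bᵐᵒᵖ ((Fin n → R) →ₗ[R] B) := by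
  have := finB (B := B)
  exact Module.Finite.equiv (freeHom (R := R) (B := B) n)

end

/-- existence of a resolution by finitely generated free modules -/
theorem exists_freeres {R : Type} [Ring R] [IsNoetherianRing R]
    (M : ModuleCat.{0} R) (hM : Module.Finite R M) :
    ∃ (Z : ℕ → ModuleCat.{0} R) (n : ℕ → ℕ)
      (κ : ∀ i, Z (i + 1) →ₗ[R] (Fin (n i) → R)) (ρ : ∀ i, (Fin (n i) → R) →ₗ[R] Z i),
      Z 0 = M ∧
      (∀ i, Function.Injective (κ i)) ∧ (∀ i, Function.Exact (κ i) (ρ i)) ∧
      (∀ i, Function.Surjective (ρ i)) := by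
  classical
  have hex : ∀ (X : ModuleCat.{0} R), Module.Finite R X →
      ∃ (n : ℕ) (g : (Fin n → R) →ₗ[R] X), Function.Surjective g :=
    fun X hX => Module.Finite.exists_fin' R X
  choose! n g hg using hex
  let next : {M : ModuleCat.{0} R // Module.Finite R M} → {M : ModuleCat.{0} R // Module.Finite R M} :=
    fun X => ⟨ModuleCat.of R (LinearMap.ker (g X.1)), by
      change Module.Finite R (LinearMap.ker (g X.1))
      infer_instance⟩
  let Zs : ℕ → {M : ModuleCat.{0} R // Module.Finite R M} :=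
    fun i => Nat.rec ⟨M, hM⟩ (fun _ X => next X) i
  exact ⟨fun i => (Zs i).1, fun i => n (Zs i).1,
    fun i => (LinearMap.ker (g (Zs i).1)).subtype, fun i => g (Zs i).1, rfl,
    fun i => Submodule.injective_subtype _, fun i => LinearMap.exact_subtype_ker_map _,
    fun i => hg _ (Zs i).2⟩

end Pool.Agent.Helper426TauT
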