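import Pool.Agent.Helper426_TauT.Defs
import Pool.Agent.Helper426_Tach.ExtS

set_option autoImplicit false
open CategoryTheory Pool.Agent.Helper426Tach

namespace Pool.Agent.Helper426TauT

/-- every finitely generated module has a cover with kernel in the radical -/
theorem exists_min_cover {R : Type} [Ring R] [IsArtinianRing R] (M : Type) [AddCommGroup M]
    [Module R M] [Module.Finite R M] :
    ∃ (P : ModuleCat.{0} R) (π : P →ₗ[R] M), Module.Finite R P ∧ Module.Projective R P ∧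
      Function.Surjective π ∧
      ∀ (S : Type) [AddCommGroup S] [Module R S] [IsSimpleModule R S] (φ : P →ₗ[R] S),
        ∀ x, π x = 0 → φ x = 0 := by
  obtain ⟨n, g, hg⟩ := Module.Finite.exists_fin' R M
  let 𝒰 : Set (Submodule R (Fin n → R)) :=
    {U | (∃ r : (Fin n → R) →ₗ[R] (Fin n → R), (∀ x, r x ∈ U) ∧ ∀ u ∈ U, r u = u) ∧
      ∀ m, ∃ u ∈ U, g u = m}
  have hne : 𝒰.Nonempty := by
    refine ⟨⊤, ⟨LinearMap.id, fun x => trivial, fun u _ => rfl⟩, fun m => ?_⟩
    obtain ⟨u, hu⟩ := hg m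
    exact ⟨u, trivial, hu⟩
  obtain ⟨U, ⟨⟨r, hr1, hr2⟩, hU⟩, hmin⟩ := set_has_minimal_iff_artinian.mpr
    (inferInstance : IsArtinian R (Fin n → R)) 𝒰 hne
  let π : U →ₗ[R] M := g ∘ₗ U.subtype
  have hπ : Function.Surjective π := by
    intro m
    obtain ⟨u, hu, rfl⟩ := hU m
    exact ⟨⟨u, hu⟩, rfl⟩
  have hproj : Module.Projective R U :=
    Module.Projective.of_split U.subtype (r.codRestrict U hr1)
      (LinearMap.ext fun u => Subtype.ext (hr2 u u.2))
  refine ⟨ModuleCat.of R U, π, ?_, hproj, hπ, ?_⟩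
  · change Module.Finite R U
    infer_instance
  intro S _ _ _ φ x hx
  by_contra hφx
  -- the kernel of φ still maps onto M
  have h1 : Submodule.map φ (LinearMap.ker π) = ⊤ := by
    rcases eq_bot_or_eq_top (Submodule.map φ (LinearMap.ker π)) with h | h
    · exfalso
      apply hφx
      have h2 : φ x ∈ Submodule.map φ (LinearMap.ker π) := ⟨x, hx, rfl⟩
      rw [h] at h2
      exact h2
    · exact h
  have h2 : Function.Surjective (π ∘ₗ (LinearMap.ker φ).subtype) := by
    intro m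
    obtain ⟨u, rfl⟩ := hπ m
    have h3 : φ u ∈ Submodule.map φ (LinearMap.ker π) := by
      rw [h1]
      trivial
    obtain ⟨k, hk, hku⟩ := h3
    have hk' : π k = 0 := hk
    refine ⟨⟨u - k, ?_⟩, ?_⟩
    · change φ (u - k) = 0
      rw [map_sub, hku, sub_self]
    · change π (u - k) = π u
      rw [map_sub, hk', sub_zero]
  obtain ⟨g0, hg0⟩ := Module.projective_lifting_property (π ∘ₗ (LinearMap.ker φ).subtype) π h2
  let γ : U →ₗ[R] U := (LinearMap.ker φ).subtype ∘ₗ g0
  have hγπ : ∀ u, π (γ u) = π u := fun u => LinearMap.congr_fun hg0 u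
  have hγφ : ∀ u, φ (γ u) = 0 := fun u => (g0 u).2
  have hγn : ∀ k u, π ((γ ^ k) u) = π u := by
    intro k
    induction k with
    | zero => intro u; rfl
    | succ k ih =>
      intro u
      rw [pow_succ', Module.End.mul_apply, hγπ, ih]
  obtain ⟨k0, hk0⟩ := Filter.eventually_atTop.mp
    (LinearMap.eventually_isCompl_ker_pow_range_pow (R := R) (M := U) γ)
  have hc := hk0 (k0 + 1) (Nat.le_succ _)
  let W : Submodule R U := LinearMap.range (γ ^ (k0 + 1))
  let q : U →ₗ[R] W := Submodule.linearProjOfIsCompl W _ hc.symm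
  have hq : ∀ w : W, q w = w := fun w => Submodule.linearProjOfIsCompl_apply_left hc.symm w
  have hWφ : ∀ w : W, φ w = 0 := by
    rintro ⟨w, u, rfl⟩
    change φ ((γ ^ (k0 + 1)) u) = 0
    rw [pow_succ', Module.End.mul_apply, hγφ]
  refine hmin (W.map U.subtype) ⟨⟨U.subtype ∘ₗ W.subtype ∘ₗ q ∘ₗ r.codRestrict U hr1, ?_, ?_⟩, ?_⟩ ?_
  · intro y
    exact ⟨_, (q (r.codRestrict U hr1 y)).2, rfl⟩
  · rintro _ ⟨w, hw, rfl⟩
    have h4 : r.codRestrict U hr1 (U.subtype w) = w := Subtype.ext (hr2 w w.2)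
    change U.subtype (W.subtype (q (r.codRestrict U hr1 (U.subtype w)))) = U.subtype w
    rw [h4]
    exact congrArg U.subtype (congrArg W.subtype (hq ⟨w, hw⟩))
  · intro m
    obtain ⟨u, rfl⟩ := hπ m
    exact ⟨_, ⟨(γ ^ (k0 + 1)) u, ⟨u, rfl⟩, rfl⟩, hγn _ u⟩
  · refine lt_of_le_of_ne ?_ ?_
    · rintro _ ⟨w, _, rfl⟩
      exact w.2
    · intro h5
      apply hφx
      have h6 : (x : Fin n → R) ∈ W.map U.subtype := by
        rw [h5]
        exact x.2
      obtain ⟨w, hw, hwx⟩ := h6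
      have h7 : w = x := Subtype.ext hwx
      rw [← h7]
      exact hWφ ⟨w, hw⟩

section
variable {R : Type} [Ring R] [IsArtinianRing R] [HasExt.{0} (ModuleCat.{0} R)]

/-- maps from the first projective of a minimal presentation extend -/
theorem extend_of_fac {X P0 P1 N : ModuleCat.{0} R} (g : P0 →ₗ[R] X) (hg : Function.Surjective g)
    (π : P1 →ₗ[R] LinearMap.ker g) (hπ : Function.Surjective π)
    (hmin : ∀ (S : Type) [AddCommGroup S] [Module R S] [IsSimpleModule R S] (φ : P1 →ₗ[R] S),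
        ∀ x, π x = 0 → φ x = 0)
    (hP0 : Module.Projective R P0) (hN : Module.Finite R N)
    (hE : ∀ W : Submodule R N, Subsingleton (Abelian.Ext.{0} X (ModuleCat.of R (N ⧸ W)) 1))
    (φ : P1 →ₗ[R] N) : ∃ ψ : P0 →ₗ[R] N, ψ ∘ₗ ((LinearMap.ker g).subtype ∘ₗ π) = φ := by
  let 𝒲 : Set (Submodule R N) :=
    {W | ∀ φ : P1 →ₗ[R] N, ∃ ψ : P0 →ₗ[R] N, ∀ x, φ x - ψ (π x) ∈ W}
  have hne : 𝒲.Nonempty := ⟨⊤, fun φ => ⟨0, fun x => trivial⟩⟩
  obtain ⟨W, hW, hWmin⟩ := set_has_minimal_iff_artinian.mpr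
    (inferInstance : IsArtinian R N) 𝒲 hne
  have hbot : W = ⊥ := by
    by_contra hWne
    have hnt : Nontrivial W := Submodule.nontrivial_iff_ne_bot.mpr hWne
    obtain ⟨W', hW'⟩ := IsCoatomic.exists_coatom (Submodule R W)
    have hsimple : IsSimpleModule R (W ⧸ W') := isSimpleModule_iff_isCoatom.mpr hW'
    let W2 : Submodule R N := W'.map W.subtype
    have hW2 : W2 ∈ 𝒲 := by
      intro φ
      obtain ⟨ψ, hψ⟩ := hW φ
      let u : P1 →ₗ[R] W := (φ - ψ ∘ₗ ((LinearMap.ker g).subtype ∘ₗ π)).codRestrict W hψ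
      let θ : P1 →ₗ[R] (W ⧸ W') := W'.mkQ ∘ₗ u
      have hθ : LinearMap.ker π ≤ LinearMap.ker θ := fun x hx => hmin _ θ x hx
      let e := π.quotKerEquivOfSurjective hπ
      let θ' : LinearMap.ker g →ₗ[R] (W ⧸ W') :=
        ((LinearMap.ker π).liftQ θ hθ) ∘ₗ e.symm.toLinearMap
      have hθ' : ∀ x, θ' (π x) = θ x := by
        intro x
        change ((LinearMap.ker π).liftQ θ hθ) (e.symm (π x)) = θ x
        have h1 : e.symm (π x) = Submodule.Quotient.mk x := by
          rw [LinearEquiv.symm_apply_eq]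
          rfl
        rw [h1]
        rfl
      let j : (W ⧸ W') →ₗ[R] (N ⧸ W2) := W'.mapQ W2 W.subtype (Submodule.le_comap_map _ _)
      obtain ⟨θ2, hθ2⟩ := ext_of_ez (A := ModuleCat.of R (LinearMap.ker g)) (B := P0) (C := X)
        (LinearMap.ker g).subtype g (Submodule.injective_subtype _)
        (LinearMap.exact_subtype_ker_map _) hg (Y := ModuleCat.of R (N ⧸ W2)) (hE W2) (j ∘ₗ θ')
      obtain ⟨ψ', hψ'⟩ := Module.projective_lifting_property W2.mkQ θ2
        (Submodule.mkQ_surjective _)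
      refine ⟨ψ + ψ', fun x => ?_⟩
      rw [← Submodule.ker_mkQ W2, LinearMap.mem_ker]
      have h1 : W2.mkQ (φ x - ψ (π x)) = j (θ x) := rfl
      have h2 : W2.mkQ (ψ' (π x)) = j (θ x) := by
        have h3 := LinearMap.congr_fun hψ' ((LinearMap.ker g).subtype (π x))
        have h4 := LinearMap.congr_fun hθ2 (π x)
        have h5 : j (θ' (π x)) = j (θ x) := by rw [hθ']
        exact h3.trans (h4.trans h5)
      have h3 : φ x - (ψ + ψ') (π x) = (φ x - ψ (π x)) - ψ' (π x) := by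
        rw [LinearMap.add_apply]
        abel
      rw [h3, map_sub, h1, h2, sub_self]
    refine hWmin W2 hW2 (lt_of_le_of_ne (Submodule.map_subtype_le _ _) ?_)
    intro h5
    apply hW'.1
    rw [eq_top_iff]
    intro w _
    have h6 : (w : N) ∈ W2 := by
      rw [h5]
      exact w.2
    obtain ⟨w', hw', hww⟩ := h6
    have h7 : w' = w := Subtype.ext hww
    rwa [← h7]
  obtain ⟨ψ, hψ⟩ := hW φ
  refine ⟨ψ, LinearMap.ext fun x => ?_⟩
  have h1 := hψ x
  rw [hbot, Submodule.mem_bot, sub_eq_zero] at h1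
  exact h1.symm

end

end Pool.Agent.Helper426TauT
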