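import Pool.Agent.Helper426_TauT.Trace
import Pool.Agent.Helper426_TauT.MinPres

set_option autoImplicit false
open CategoryTheory Pool.Agent.Helper426Tach

namespace Pool.Agent.Helper426TauT

section
variable {R : Type} [Ring R]

theorem infac_quot {U N : ModuleCat.{0} R} (h : InFac U N) (W : Submodule R N) :
    InFac U (ModuleCat.of R (N ⧸ W)) := by
  obtain ⟨n, f, hf⟩ := h
  exact ⟨n, W.mkQ ∘ₗ f, (Submodule.mkQ_surjective W).comp hf⟩

theorem infac_surj {U N N' : ModuleCat.{0} R} (h : InFac U N) (g : N →ₗ[R] N')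
    (hg : Function.Surjective g) : InFac U N' := by
  obtain ⟨n, f, hf⟩ := h
  exact ⟨n, g ∘ₗ f, hg.comp hf⟩

theorem infac_summand {U X : ModuleCat.{0} R} (h : IsSummand X U) : InFac U X := by
  obtain ⟨i, p, hp⟩ := h
  refine ⟨1, p ∘ₗ LinearMap.proj 0, fun x => ⟨fun _ => i x, ?_⟩⟩
  exact LinearMap.congr_fun hp x

theorem infac_finite {U N : ModuleCat.{0} R} (hU : Module.Finite R U) (h : InFac U N) :
    Module.Finite R N := by
  obtain ⟨n, f, hf⟩ := h
  exact Module.Finite.of_surjective f hf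

theorem infac_ann {U N : ModuleCat.{0} R} (h : InFac U N) (r : R)
    (hr : ∀ u : U, r • u = 0) (y : N) : r • y = 0 := by
  obtain ⟨n, f, hf⟩ := h
  obtain ⟨v, rfl⟩ := hf y
  rw [← map_smul]
  have h1 : r • v = 0 := by
    funext i
    exact hr (v i)
  rw [h1, map_zero]

theorem infac_of_span [IsNoetherianRing R] {U N : ModuleCat.{0} R} (hN : Module.Finite R N)
    (h : Submodule.span R {x : N | ∃ (h : U →ₗ[R] N) (y : U), h y = x} = ⊤) : InFac U N := by
  let 𝒱 : Set (Submodule R N) := {V | ∃ (q : ℕ) (F : (Fin q → U) →ₗ[R] N), LinearMap.range F = V}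
  have hne : 𝒱.Nonempty := ⟨_, 0, 0, rfl⟩
  obtain ⟨V, ⟨q, F, rfl⟩, hmax⟩ := set_has_maximal_iff_noetherian.mpr
    (inferInstance : IsNoetherian R N) 𝒱 hne
  refine ⟨q, F, ?_⟩
  rw [← LinearMap.range_eq_top, eq_top_iff, ← h]
  refine Submodule.span_le.mpr ?_
  rintro _ ⟨g, y, rfl⟩
  by_contra hy
  let F' : (Fin (q + 1) → U) →ₗ[R] N :=
    g ∘ₗ LinearMap.proj 0 + F ∘ₗ LinearMap.pi fun i => LinearMap.proj (Fin.succ i)
  have h1 : LinearMap.range F ≤ LinearMap.range F' := by
    rintro _ ⟨v, rfl⟩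
    refine ⟨Fin.cons 0 v, ?_⟩
    change g 0 + F v = F v
    rw [map_zero, zero_add]
  have h2 : g y ∈ LinearMap.range F' := by
    refine ⟨Fin.cons y 0, ?_⟩
    change g y + F 0 = g y
    rw [map_zero, add_zero]
  refine hmax _ ⟨q + 1, F', rfl⟩ (lt_of_le_of_ne h1 ?_)
  intro h3
  apply hy
  change g y ∈ LinearMap.range F
  rw [h3]
  exact h2

theorem infac_trc [IsNoetherianRing R] {m : ℕ} (G : Fin m → ModuleCat.{0} R)
    {U N : ModuleCat.{0} R} (hN : Module.Finite R N) (hG : ∀ i, IsSummand (G i) U)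
    (s : Finset (Fin m)) : InFac U (ModuleCat.of R (trc G s N)) := by
  have hfin : Module.Finite R (ModuleCat.of R (trc G s N)) := by
    change Module.Finite R (trc G s N)
    infer_instance
  refine infac_of_span hfin ?_
  rw [eq_top_iff]
  rintro ⟨x, hx⟩ _
  have key : ∀ x, ∀ hx : x ∈ trc G s N, (⟨x, hx⟩ : trc G s N) ∈
      Submodule.span R {x : trc G s N | ∃ (h : U →ₗ[R] trc G s N) (y : U), h y = x} := by
    intro x hx
    unfold trc at hx
    induction hx using Submodule.span_induction with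
    | mem x hx' =>
      obtain ⟨i, hi, h, y, rfl⟩ := hx'
      obtain ⟨j, p, hjp⟩ := hG i
      refine Submodule.subset_span
        ⟨(h.codRestrict (trc G s N) (fun z => mem_trc G hi h z)) ∘ₗ p, j y, ?_⟩
      apply Subtype.ext
      change h (p (j y)) = h y
      rw [show p (j y) = y from LinearMap.congr_fun hjp y]
    | zero => exact Submodule.zero_mem _
    | add a b ha hb iha ihb => exact Submodule.add_mem _ iha ihb
    | smul r a ha iha => exact Submodule.smul_mem _ r iha
  exact key x hx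

/-- projective presentations adapted to Fac U -/
theorem exists_pres [IsArtinianRing R] [HasExt.{0} (ModuleCat.{0} R)] (X U : ModuleCat.{0} R)
    (hX : Module.Finite R X) (hU : Module.Finite R U)
    (hE : ∀ N : ModuleCat.{0} R, InFac U N → Subsingleton (Abelian.Ext.{0} X N 1)) :
    ∃ (P0 P1 : ModuleCat.{0} R) (p : P1 →ₗ[R] P0) (g : P0 →ₗ[R] X),
      Module.Finite R P0 ∧ Module.Finite R P1 ∧ Module.Projective R P0 ∧
      Module.Projective R P1 ∧ Function.Exact p g ∧ Function.Surjective g ∧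
      ∀ N : ModuleCat.{0} R, InFac U N → ∀ φ : P1 →ₗ[R] N, ∃ ψ : P0 →ₗ[R] N, ψ ∘ₗ p = φ := by
  obtain ⟨n, g, hg⟩ := Module.Finite.exists_fin' R X
  obtain ⟨P1, π, hf1, hp1, hπ, hmin⟩ := exists_min_cover (R := R) (LinearMap.ker g)
  refine ⟨ModuleCat.of R (Fin n → R), P1, (LinearMap.ker g).subtype ∘ₗ π, g, ?_, hf1, ?_, hp1,
    ?_, hg, ?_⟩
  · change Module.Finite R (Fin n → R)
    infer_instance
  · change Module.Projective R (Fin n → R)
    infer_instance
  · intro x
    constructor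
    · intro hx
      obtain ⟨y, hy⟩ := hπ ⟨x, hx⟩
      exact ⟨y, congrArg Subtype.val hy⟩
    · rintro ⟨y, rfl⟩
      exact (π y).2
  · intro N hN φ
    refine extend_of_fac (X := X) (P0 := ModuleCat.of R (Fin n → R)) (P1 := P1) (N := N) g hg π hπ
      hmin ?_ (infac_finite hU hN) (fun W => hE _ (infac_quot hN W)) φ
    change Module.Projective R (Fin n → R)
    infer_instance

end

end Pool.Agent.Helper426TauT
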