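import Pool.Agent.Helper426_TauT.Defs
import Pool.Agent.Helper426_TauT.Dual

set_option autoImplicit false
open CategoryTheory Pool.Agent.Helper426Tach

namespace Pool.Agent.Helper426TauT

section
variable {R B : Type} [Ring R] [Ring B] [Module R B] [IsScalarTower R B B]

theorem pre_injective {M N : Type} [AddCommGroup M] [Module R M] [AddCommGroup N] [Module R N]
    (g : M →ₗ[R] N) (hg : Function.Surjective g) : Function.Injective (pre B g) := by
  intro u v h
  refine LinearMap.ext fun x => ?_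
  obtain ⟨y, rfl⟩ := hg x
  exact LinearMap.congr_fun h y

theorem pre_exact {M N P : Type} [AddCommGroup M] [Module R M] [AddCommGroup N] [Module R N]
    [AddCommGroup P] [Module R P] (f : M →ₗ[R] N) (g : N →ₗ[R] P) (hfg : Function.Exact f g)
    (hg : Function.Surjective g) : Function.Exact (pre B g) (pre B f) := by
  intro u
  constructor
  · intro hu
    have hk : LinearMap.ker g ≤ LinearMap.ker u := by
      intro y hy
      obtain ⟨a, rfl⟩ := (hfg y).mp hy
      exact LinearMap.congr_fun hu a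
    let e := g.quotKerEquivOfSurjective hg
    refine ⟨((LinearMap.ker g).liftQ u hk) ∘ₗ e.symm.toLinearMap, ?_⟩
    refine LinearMap.ext fun y => ?_
    change ((LinearMap.ker g).liftQ u hk) (e.symm (g y)) = u y
    have h1 : e.symm (g y) = Submodule.Quotient.mk y := by
      rw [LinearEquiv.symm_apply_eq]
      rfl
    rw [h1]
    rfl
  · rintro ⟨v, rfl⟩
    refine LinearMap.ext fun x => ?_
    change v (g (f x)) = 0
    rw [(hfg (f x)).mpr ⟨x, rfl⟩, map_zero]

/-- the i-th coordinate as a map to B -/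
noncomputable def coord (B : Type) [Ring B] [Module R B] [IsScalarTower R B B] {n : ℕ}
    (i : Fin n) : (Fin n → R) →ₗ[R] B :=
  LinearMap.toSpanSingleton R B 1 ∘ₗ LinearMap.proj i

theorem coord_apply {n : ℕ} (i : Fin n) (x : Fin n → R) : coord B i x = x i • (1 : B) := rfl

theorem expand {n : ℕ} (c : (Fin n → R) →ₗ[R] B) :
    c = ∑ i, MulOpposite.op (c (Pi.single i 1)) • coord B i := by
  refine LinearMap.ext fun x => ?_
  rw [LinearMap.sum_apply]
  have h1 : x = ∑ i, x i • (Pi.single i 1 : Fin n → R) := by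
    funext j
    simp [Finset.sum_apply, Pi.single_apply]
  conv_lhs => rw [h1]
  rw [map_sum]
  refine Finset.sum_congr rfl fun i _ => ?_
  rw [map_smul]
  change x i • c (Pi.single i 1) = (x i • (1 : B)) * c (Pi.single i 1)
  rw [smul_mul_assoc, one_mul]

variable {Z : ℕ → ModuleCat.{0} R} {n : ℕ → ℕ}
  (κ : ∀ i, Z (i + 1) →ₗ[R] (Fin (n i) → R)) (ρ : ∀ i, (Fin (n i) → R) →ₗ[R] Z i)
  (hκ : ∀ i, Function.Injective (κ i)) (hex : ∀ i, Function.Exact (κ i) (ρ i))
  (hρ : ∀ i, Function.Surjective (ρ i))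

/-- the dual of the i-th syzygy -/
abbrev GM (B : Type) [Ring B] [Module R B] [IsScalarTower R B B] (Z : ℕ → ModuleCat.{0} R)
    (i : ℕ) : ModuleCat.{0} Bᵐᵒᵖ :=
  ModuleCat.of Bᵐᵒᵖ (Z i →ₗ[R] B)

/-- the dual of a free module -/
abbrev QM (R B : Type) [Ring R] [Ring B] [Module R B] [IsScalarTower R B B] (m : ℕ) :
    ModuleCat.{0} Bᵐᵒᵖ :=
  ModuleCat.of Bᵐᵒᵖ ((Fin m → R) →ₗ[R] B)

theorem qm_proj (m : ℕ) : Projective (QM R B m) :=
  (IsProjective.iff_projective _).mp (proj_freeHom m)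

theorem qm_pd (m j : ℕ) (hj : 1 ≤ j) : HasProjectiveDimensionLT (QM R B m) j := by
  have := qm_proj (R := R) (B := B) m
  exact hasProjectiveDimensionLT_of_ge _ 1 j hj

variable (D : ℕ) (hExt : ∀ i, i ≤ D → ∀ φ : Z (i + 1) →ₗ[R] B,
    ∃ ψ : (Fin (n i) → R) →ₗ[R] B, ψ ∘ₗ κ i = φ)
  (h0 : ∀ φ : Z 0 →ₗ[R] B, φ = 0)

include hex hρ hExt h0

theorem bij0 : Function.Bijective (pre B (κ 0)) := by
  refine ⟨?_, fun φ => hExt 0 (Nat.zero_le _) φ⟩
  rw [← LinearMap.ker_eq_bot, eq_bot_iff]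
  intro u hu
  obtain ⟨v, rfl⟩ := (pre_exact (B := B) (κ 0) (ρ 0) (hex 0) (hρ 0) u).mp hu
  rw [h0 v, map_zero]
  exact Submodule.zero_mem _

omit h0 in
theorem seqShort (i : ℕ) (hi : i ≤ D) :
    (sc (A := GM B Z i) (B := QM R B (n i)) (C := GM B Z (i + 1)) (pre B (ρ i)) (pre B (κ i))
      (pre_exact (κ i) (ρ i) (hex i) (hρ i))).ShortExact :=
  sc_shortExact (A := GM B Z i) (B := QM R B (n i)) (C := GM B Z (i + 1)) _ _
    (pre_injective _ (hρ i)) _ (fun φ => hExt i hi φ)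

theorem seq_up : ∀ i, i ≤ D → HasProjectiveDimensionLT (GM B Z (i + 1)) (i + 1) := by
  intro i
  induction i with
  | zero =>
    intro _
    have h1 : Module.Projective Bᵐᵒᵖ (Z 1 →ₗ[R] B) := by
      have := proj_freeHom (R := R) (B := B) (n 0)
      exact Module.Projective.of_equiv
        (LinearEquiv.ofBijective (pre B (κ 0)) (bij0 κ ρ hex hρ D hExt h0))
    have h2 : Projective (GM B Z (0 + 1)) := (IsProjective.iff_projective _).mp h1
    exact projective_iff_hasProjectiveDimensionLT_one.mp h2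
  | succ i ih =>
    intro hi
    exact (seqShort κ ρ hex hρ D hExt (i + 1) hi).hasProjectiveDimensionLT_X₃ (i + 1)
      (ih (by omega)) (qm_pd _ _ (by omega))

omit h0 in
theorem gm_finite (i : ℕ) (hi : i ≤ D) : Module.Finite Bᵐᵒᵖ (GM B Z (i + 1)) := by
  have := fin_freeHom (R := R) (B := B) (n i)
  exact Module.Finite.of_surjective (pre B (κ i)) (fun φ => hExt i hi φ)

omit h0 in
theorem seq_down_of {q : ℕ} (hD : q ≤ D)
    (hq : HasProjectiveDimensionLT (GM B Z (q + 1)) q) :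
    ∀ t m, m + t = q → 1 ≤ m → HasProjectiveDimensionLT (GM B Z (m + 1)) m := by
  intro t
  induction t with
  | zero =>
    intro m hm _
    have hm' : m = q := by omega
    subst hm'
    exact hq
  | succ t ih =>
    intro m hm h1
    exact (seqShort κ ρ hex hρ D hExt (m + 1) (by omega)).hasProjectiveDimensionLT_X₁ m
      (qm_pd _ _ h1) (ih (m + 1) (by omega) (by omega))

theorem pd_of_findim {d : ℕ} (hD : d + 1 ≤ D) (hd : RightFindimLE B d) :
    HasProjectiveDimensionLT (GM B Z (d + 1 + 1)) (d + 1) :=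
  hd _ (gm_finite κ ρ hex hρ D hExt (d + 1) hD)
    ⟨d + 1, seq_up κ ρ hex hρ D hExt h0 (d + 1) hD⟩

/-- the key step: a module without Ext to B is generated by the annihilator of B -/
theorem top_of_pd {q : ℕ} (hD : q ≤ D) (hq1 : 1 ≤ q)
    (hq : HasProjectiveDimensionLT (GM B Z (q + 1)) q)
    (hsurj : ∀ b : B, ∃ r : R, r • (1 : B) = b)
    (N : Submodule R (Z 0)) (hN : ∀ r : R, r • (1 : B) = 0 → ∀ x : Z 0, r • x ∈ N) : N = ⊤ := by
  have hpd : HasProjectiveDimensionLT (GM B Z 2) 1 :=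
    seq_down_of κ ρ hex hρ D hExt hD hq (q - 1) 1 (by omega) le_rfl
  have hproj : Module.Projective Bᵐᵒᵖ (Z 2 →ₗ[R] B) :=
    (IsProjective.iff_projective (GM B Z 2)).mpr
      (projective_iff_hasProjectiveDimensionLT_one.mpr hpd)
  have hs1 : Function.Surjective (pre B (κ 1)) := fun φ => hExt 1 (by omega) φ
  obtain ⟨s, hs⟩ := Module.projective_lifting_property (pre B (κ 1)) LinearMap.id hs1
  have hexact := pre_exact (B := B) (κ 1) (ρ 1) (hex 1) (hρ 1)
  obtain ⟨-, r, hr⟩ := (hexact.split_tfae'.out 0 1 rfl rfl).mp ⟨pre_injective _ (hρ 1), s, hs⟩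
  let e0 := LinearEquiv.ofBijective (pre B (κ 0)) (bij0 κ ρ hex hρ D hExt h0)
  let ρ' : ((Fin (n 1) → R) →ₗ[R] B) →ₗ[Bᵐᵒᵖ] ((Fin (n 0) → R) →ₗ[R] B) :=
    e0.symm.toLinearMap ∘ₗ r
  have hρ' : ∀ q : (Fin (n 0) → R) →ₗ[R] B, ρ' (q ∘ₗ (κ 0 ∘ₗ ρ 1)) = q := by
    intro q
    have h1 : r (pre B (ρ 1) (e0 q)) = e0 q := LinearMap.congr_fun hr (e0 q)
    change e0.symm (r (pre B (ρ 1) (e0 q))) = q
    rw [h1, LinearEquiv.symm_apply_apply]
  -- the generators of Z 0 lie in N
  have hgen : ∀ j : Fin (n 0), ρ 0 (Pi.single j 1) ∈ N := by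
    intro j
    have hb : ∀ i : Fin (n 1), ∃ s : R, s • (1 : B) = ρ' (coord B i) (Pi.single j 1) :=
      fun i => hsurj _
    choose s hs' using hb
    have hq : ∀ q : (Fin (n 0) → R) →ₗ[R] B, q (Pi.single j 1) =
        ∑ i, (s i • (1 : B)) * q (κ 0 (ρ 1 (Pi.single i 1))) := by
      intro q
      conv_lhs => rw [← hρ' q, expand (q ∘ₗ (κ 0 ∘ₗ ρ 1)), map_sum]
      rw [LinearMap.sum_apply]
      refine Finset.sum_congr rfl fun i _ => ?_
      rw [map_smul, hs' i]
      rfl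
    let v : Fin (n 0) → R := Pi.single j 1 - ∑ i, s i • κ 0 (ρ 1 (Pi.single i 1))
    have hv : ∀ l, v l • (1 : B) = 0 := by
      intro l
      have h1 := hq (coord B l)
      rw [coord_apply] at h1
      have h2 : (v l) • (1 : B) = (Pi.single j 1 : Fin (n 0) → R) l • (1 : B) -
          ∑ i, (s i • (1 : B)) * coord B l (κ 0 (ρ 1 (Pi.single i 1))) := by
        simp only [v, Pi.sub_apply, Finset.sum_apply, sub_smul, Finset.sum_smul]
        congr 1
        refine Finset.sum_congr rfl fun i _ => ?_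
        rw [coord_apply, smul_mul_assoc, one_mul, Pi.smul_apply, smul_eq_mul, mul_smul]
      rw [h2, h1, sub_self]
    have hρκ : ∀ y, ρ 0 (κ 0 y) = 0 := fun y => (hex 0 (κ 0 y)).mpr ⟨y, rfl⟩
    have h3 : ρ 0 (Pi.single j 1) = ρ 0 v := by
      simp only [v, map_sub, map_sum, map_smul, hρκ, smul_zero, Finset.sum_const_zero, sub_zero]
    have h4 : v = ∑ l, v l • (Pi.single l 1 : Fin (n 0) → R) := by
      funext l
      simp [Finset.sum_apply, Pi.single_apply]
    rw [h3, h4, map_sum]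
    refine Submodule.sum_mem _ fun l _ => ?_
    rw [map_smul]
    exact hN (v l) (hv l) _
  rw [eq_top_iff]
  intro x _
  obtain ⟨y, rfl⟩ := hρ 0 x
  have h4 : y = ∑ l, y l • (Pi.single l 1 : Fin (n 0) → R) := by
    funext l
    simp [Finset.sum_apply, Pi.single_apply]
  rw [h4, map_sum]
  refine Submodule.sum_mem _ fun l _ => ?_
  rw [map_smul]
  exact N.smul_mem _ (hgen l)

theorem top_of_findim {d : ℕ} (hD : d + 1 ≤ D) (hd : RightFindimLE B d)
    (hsurj : ∀ b : B, ∃ r : R, r • (1 : B) = b)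
    (N : Submodule R (Z 0)) (hN : ∀ r : R, r • (1 : B) = 0 → ∀ x : Z 0, r • x ∈ N) : N = ⊤ :=
  top_of_pd κ ρ hex hρ D hExt h0 hD (by omega) (pd_of_findim κ ρ hex hρ D hExt h0 hD hd) hsurj
    N hN

end

end Pool.Agent.Helper426TauT
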