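import Pool.Agent.Helper426_TauT.Tools

set_option autoImplicit false
open CategoryTheory Pool.Agent.Helper426Tach

namespace Pool.Agent.Helper426TauT

section
variable {R : Type} [Ring R] [HasExt.{0} (ModuleCat.{0} R)]

/-- precomposition on Ext -/
noncomputable def pc {X Y : ModuleCat.{0} R} (f : X →ₗ[R] Y) {M : ModuleCat.{0} R} {i : ℕ}
    (x : Abelian.Ext.{0} Y M i) : Abelian.Ext.{0} X M i :=
  (Abelian.Ext.mk₀ (ModuleCat.ofHom f)).comp x (zero_add i)

theorem pc_comp {X Y Z : ModuleCat.{0} R} (f : X →ₗ[R] Y) (g : Y →ₗ[R] Z) {M : ModuleCat.{0} R}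
    {i : ℕ} (x : Abelian.Ext.{0} Z M i) : pc f (pc g x) = pc (g ∘ₗ f) x := by
  unfold pc
  rw [Abelian.Ext.mk₀_comp_mk₀_assoc]
  rfl

theorem pc_id {X : ModuleCat.{0} R} {M : ModuleCat.{0} R}
    {i : ℕ} (x : Abelian.Ext.{0} X M i) : pc (LinearMap.id : X →ₗ[R] X) x = x :=
  Abelian.Ext.mk₀_id_comp x

theorem pc_add {X Y : ModuleCat.{0} R} (f g : X →ₗ[R] Y) {M : ModuleCat.{0} R}
    {i : ℕ} (x : Abelian.Ext.{0} Y M i) : pc (f + g) x = pc f x + pc g x := by
  unfold pc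
  rw [← Abelian.Ext.add_comp, ← Abelian.Ext.mk₀_add]
  rfl

theorem pc_zero {X Y : ModuleCat.{0} R} {M : ModuleCat.{0} R}
    {i : ℕ} (x : Abelian.Ext.{0} Y M i) : pc (0 : X →ₗ[R] Y) x = 0 := by
  have h := pc_add (0 : X →ₗ[R] Y) 0 x
  rw [add_zero] at h
  exact left_eq_add.mp h

theorem pc_map_add {X Y : ModuleCat.{0} R} (f : X →ₗ[R] Y) {M : ModuleCat.{0} R}
    {i : ℕ} (x y : Abelian.Ext.{0} Y M i) : pc f (x + y) = pc f x + pc f y := by
  unfold pc
  rw [Abelian.Ext.comp_add]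

theorem pc_map_zero {X Y : ModuleCat.{0} R} (f : X →ₗ[R] Y) {M : ModuleCat.{0} R}
    {i : ℕ} : pc f (0 : Abelian.Ext.{0} Y M i) = 0 := by
  unfold pc
  rw [Abelian.Ext.comp_zero]

theorem pc_sub {X Y : ModuleCat.{0} R} (f g : X →ₗ[R] Y) {M : ModuleCat.{0} R}
    {i : ℕ} (x : Abelian.Ext.{0} Y M i) : pc (f - g) x = pc f x - pc g x := by
  rw [eq_sub_iff_add_eq, ← pc_add, sub_add_cancel]

theorem pc_sum {X Y : ModuleCat.{0} R} {ι : Type} (s : Finset ι) (f : ι → (X →ₗ[R] Y))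
    {M : ModuleCat.{0} R} {i : ℕ} (x : Abelian.Ext.{0} Y M i) (h : ∀ j ∈ s, pc (f j) x = 0) :
    pc (∑ j ∈ s, f j) x = 0 := by
  classical
  induction s using Finset.induction_on with
  | empty => rw [Finset.sum_empty, pc_zero]
  | insert a s ha ih =>
    rw [Finset.sum_insert ha, pc_add, h a (Finset.mem_insert_self a s),
      ih fun j hj => h j (Finset.mem_insert_of_mem hj), add_zero]

/-- f acts as zero on Ext in degrees at least p -/
def Kills {X Y : ModuleCat.{0} R} (p : ℕ) (f : X →ₗ[R] Y) : Prop :=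
  ∀ i, p ≤ i → ∀ (M : ModuleCat.{0} R) (x : Abelian.Ext.{0} Y M i), pc f x = 0

/-- f acts bijectively on Ext in degrees at least p -/
def Bij {X Y : ModuleCat.{0} R} (p : ℕ) (f : X →ₗ[R] Y) : Prop :=
  ∀ i, p ≤ i → ∀ M : ModuleCat.{0} R,
    Function.Bijective (fun x : Abelian.Ext.{0} Y M i => pc f x)

theorem pc_injective {X Y : ModuleCat.{0} R} (f : X →ₗ[R] Y) {M : ModuleCat.{0} R} {i : ℕ}
    (h : ∀ x : Abelian.Ext.{0} Y M i, pc f x = 0 → x = 0) :
    Function.Injective (fun x : Abelian.Ext.{0} Y M i => pc f x) := by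
  intro x y hxy
  have h1 : pc f (x - y) = 0 := by
    have h2 : pc f (x - y) + pc f y = pc f x := by rw [← pc_map_add, sub_add_cancel]
    have h3 : pc f x = pc f y := hxy
    rw [h3] at h2
    exact left_eq_add.mp (by rw [add_comm]; exact h2.symm)
  exact sub_eq_zero.mp (h _ h1)

theorem bij_pow {Z : ModuleCat.{0} R} {p : ℕ} {g : Z →ₗ[R] Z} (hg : Bij p g) (n : ℕ) :
    Bij p ((g : Module.End R Z) ^ n : Module.End R Z) := by
  induction n with
  | zero =>
    intro i _ M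
    have h1 : (fun x : Abelian.Ext.{0} Z M i => pc ((g : Module.End R Z) ^ 0 : Module.End R Z) x)
        = id := by
      funext x
      exact pc_id x
    rw [h1]
    exact Function.bijective_id
  | succ n ih =>
    intro i hi M
    have h1 : (fun x : Abelian.Ext.{0} Z M i =>
        pc ((g : Module.End R Z) ^ (n + 1) : Module.End R Z) x) =
        (fun x => pc g x) ∘ (fun x => pc ((g : Module.End R Z) ^ n : Module.End R Z) x) := by
      funext x
      change _ = pc g (pc ((g : Module.End R Z) ^ n : Module.End R Z) x)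
      rw [pc_comp, pow_succ]
      rfl
    rw [h1]
    exact (hg i hi M).comp (ih i hi M)

end

section
variable {R : Type} [Ring R] [hart : IsArtinianRing (Subring.center R)]
  [hfin : Module.Finite (Subring.center R) R]

theorem end_artinian (Z : ModuleCat.{0} R) (hZ : Module.Finite R Z) :
    IsArtinian (Subring.center R) (Z →ₗ[R] Z) := by
  have h1 : Module.Finite (Subring.center R) Z := finite_center
  infer_instance

theorem end_noetherian (Z : ModuleCat.{0} R) (hZ : Module.Finite R Z) :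
    IsNoetherian (Subring.center R) (Z →ₗ[R] Z) := by
  have h1 : Module.Finite (Subring.center R) Z := finite_center
  infer_instance

/-- powers of an endomorphism eventually divide each other -/
theorem pi_reg (Z : ModuleCat.{0} R) (hZ : Module.Finite R Z) (g : Z →ₗ[R] Z) :
    ∃ (n : ℕ) (h h' : Module.End R Z), 1 ≤ n ∧
      (g : Module.End R Z) ^ n * ((g : Module.End R Z) ^ n * h) = (g : Module.End R Z) ^ n ∧
      h' * (g : Module.End R Z) ^ n * (g : Module.End R Z) ^ n = (g : Module.End R Z) ^ n := by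
  have hA := end_artinian Z hZ
  let G : Module.End R Z := g
  let L : ℕ → (Z →ₗ[R] Z) →ₗ[Subring.center R] (Z →ₗ[R] Z) := fun n =>
    { toFun := fun u => (G ^ n : Module.End R Z) ∘ₗ u
      map_add' := fun u v => LinearMap.comp_add _ _ _
      map_smul' := fun c u => by
        refine LinearMap.ext fun x => ?_
        change (G ^ n) ((c : R) • u x) = (c : R) • (G ^ n) (u x)
        rw [map_smul] }
  let K : ℕ → (Z →ₗ[R] Z) →ₗ[Subring.center R] (Z →ₗ[R] Z) := fun n =>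
    { toFun := fun u => u ∘ₗ (G ^ n : Module.End R Z)
      map_add' := fun u v => LinearMap.add_comp _ _ _
      map_smul' := fun c u => rfl }
  let FL : ℕ →o (Submodule (Subring.center R) (Z →ₗ[R] Z))ᵒᵈ :=
    ⟨fun n => LinearMap.range (L n), monotone_nat_of_le_succ fun n => by
      rintro _ ⟨u, rfl⟩
      refine ⟨g ∘ₗ u, ?_⟩
      change (G ^ n : Module.End R Z) ∘ₗ (g ∘ₗ u) = (G ^ (n + 1) : Module.End R Z) ∘ₗ u
      rw [pow_succ]
      rfl⟩
  let FK : ℕ →o (Submodule (Subring.center R) (Z →ₗ[R] Z))ᵒᵈ :=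
    ⟨fun n => LinearMap.range (K n), monotone_nat_of_le_succ fun n => by
      rintro _ ⟨u, rfl⟩
      refine ⟨u ∘ₗ g, ?_⟩
      change (u ∘ₗ g) ∘ₗ (G ^ n : Module.End R Z) = u ∘ₗ (G ^ (n + 1) : Module.End R Z)
      rw [pow_succ']
      rfl⟩
  obtain ⟨n1, h1⟩ := IsArtinian.monotone_stabilizes FL
  obtain ⟨n2, h2⟩ := IsArtinian.monotone_stabilizes FK
  let n := max (max n1 n2) 1
  have hn1 : n1 ≤ n := le_trans (le_max_left _ _) (le_max_left _ _)
  have hn2 : n2 ≤ n := le_trans (le_max_right _ _) (le_max_left _ _)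
  have a1 : LinearMap.range (L n) = LinearMap.range (L (n + n)) :=
    ((h1 n hn1).symm.trans (h1 (n + n) (by omega)) :)
  have a2 : LinearMap.range (K n) = LinearMap.range (K (n + n)) :=
    ((h2 n hn2).symm.trans (h2 (n + n) (by omega)) :)
  have b1 : (G ^ n : Module.End R Z) ∈ LinearMap.range (L (n + n)) := by
    rw [← a1]
    exact ⟨LinearMap.id, rfl⟩
  have b2 : (G ^ n : Module.End R Z) ∈ LinearMap.range (K (n + n)) := by
    rw [← a2]
    exact ⟨LinearMap.id, rfl⟩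
  obtain ⟨h, hh⟩ := b1
  obtain ⟨h', hh'⟩ := b2
  refine ⟨n, h, h', le_max_right _ _, ?_, ?_⟩
  · rw [← mul_assoc, ← pow_add]
    exact hh
  · rw [mul_assoc, ← pow_add]
    exact hh'

end

section
variable {R : Type} [Ring R] [hart : IsArtinianRing (Subring.center R)]
  [hfin : Module.Finite (Subring.center R) R] [HasExt.{0} (ModuleCat.{0} R)]

/-- summands of powers of G -/
def AddG (G M : ModuleCat.{0} R) : Prop := ∃ n : ℕ, IsSummand M (ModuleCat.of R (Fin n → G))

theorem kills_bound (G : ModuleCat.{0} R) (hG : Module.Finite R G) :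
    ∃ i0 : ℕ, ∀ Z : ModuleCat.{0} R, AddG G Z → ∀ (δ : Z →ₗ[R] Z) (p : ℕ), Kills p δ →
      Kills i0 δ := by
  classical
  have hN := end_noetherian G hG
  let J : ℕ →o Submodule (Subring.center R) (G →ₗ[R] G) :=
    ⟨fun p =>
      { carrier := {h | Kills p h}
        zero_mem' := fun i _ M x => pc_zero x
        add_mem' := fun {a b} ha hb i hi M x => by
          rw [pc_add, ha i hi M x, hb i hi M x, add_zero]
        smul_mem' := fun c h hh i hi M x => by
          let cc : G →ₗ[R] G :=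
            { toFun := fun y => (c : R) • y
              map_add' := fun a b => smul_add _ _ _
              map_smul' := fun r a => by
                change (c : R) • (r • a) = r • ((c : R) • a)
                rw [smul_smul, smul_smul, (Subring.mem_center_iff.mp c.2 r)] }
          have h1 : c • h = h ∘ₗ cc := by
            refine LinearMap.ext fun y => ?_
            change (c : R) • h y = h ((c : R) • y)
            rw [map_smul]
          rw [h1, ← pc_comp, hh i hi M x, pc_map_zero] },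
      monotone_nat_of_le_succ fun n h hh i hi M x => hh i (by omega) M x⟩
  obtain ⟨i0, hi0⟩ := monotone_stabilizes_iff_noetherian.mpr hN J
  have hJ : ∀ p (h : G →ₗ[R] G), Kills p h → Kills i0 h := by
    intro p h hh
    by_cases hp : p ≤ i0
    · intro i hi M x
      exact hh i (by omega) M x
    · have h1 : h ∈ J p := hh
      rw [← hi0 p (by omega)] at h1
      exact h1
  refine ⟨i0, fun Z hZ δ p hδ => ?_⟩
  obtain ⟨n, ι, π, hπ⟩ := hZ
  let inc : Fin n → (G →ₗ[R] (Fin n → G)) := fun k => LinearMap.single R (fun _ => (G : Type)) k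
  let pr : Fin n → ((Fin n → G) →ₗ[R] G) := fun k => LinearMap.proj k
  have hsum : (∑ k, inc k ∘ₗ pr k) = (LinearMap.id : (Fin n → G) →ₗ[R] (Fin n → G)) := by
    refine LinearMap.ext fun x => ?_
    rw [LinearMap.sum_apply]
    exact Finset.univ_sum_single x
  have hjk : ∀ j k, Kills i0 (pr j ∘ₗ ι ∘ₗ δ ∘ₗ π ∘ₗ inc k) := by
    intro j k
    refine hJ p _ ?_
    intro i hi M x
    have h1 : pc (X := G) (Y := G) (pr j ∘ₗ ι ∘ₗ δ ∘ₗ π ∘ₗ inc k) x =
        pc (X := G) (Y := Z) (π ∘ₗ inc k) (pc (X := Z) (Y := Z) δ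
          (pc (X := Z) (Y := G) (pr j ∘ₗ ι) x)) := by
      rw [pc_comp, pc_comp]
      rfl
    rw [h1, hδ i hi M _, pc_map_zero]
  intro i hi M x
  have h2 : δ = ∑ j, ∑ k, (π ∘ₗ inc j) ∘ₗ (pr j ∘ₗ ι ∘ₗ δ ∘ₗ π ∘ₗ inc k) ∘ₗ (pr k ∘ₗ ι) := by
    have e1 : δ = π ∘ₗ (LinearMap.id : (Fin n → G) →ₗ[R] (Fin n → G)) ∘ₗ ι ∘ₗ δ ∘ₗ π ∘ₗ
        (LinearMap.id : (Fin n → G) →ₗ[R] (Fin n → G)) ∘ₗ ι := by
      refine LinearMap.ext fun z => ?_
      change δ z = π (ι (δ (π (ι z))))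
      rw [show π (ι z) = z from LinearMap.congr_fun hπ z]
      exact (LinearMap.congr_fun hπ (δ z)).symm
    conv_lhs => rw [e1, ← hsum]
    refine LinearMap.ext fun z => ?_
    simp only [LinearMap.sum_apply, LinearMap.comp_apply, map_sum]
    rw [Finset.sum_comm]
  rw [h2]
  refine pc_sum _ _ _ fun j _ => pc_sum _ _ _ fun k _ => ?_
  have h3 : pc (X := Z) (Y := Z)
      ((π ∘ₗ inc j) ∘ₗ (pr j ∘ₗ ι ∘ₗ δ ∘ₗ π ∘ₗ inc k) ∘ₗ (pr k ∘ₗ ι)) x =
      pc (X := Z) (Y := G) (pr k ∘ₗ ι) (pc (X := G) (Y := G) (pr j ∘ₗ ι ∘ₗ δ ∘ₗ π ∘ₗ inc k)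
        (pc (X := G) (Y := Z) (π ∘ₗ inc j) x)) := by
    rw [pc_comp, pc_comp]
  rw [h3, hjk j k i hi M _, pc_map_zero]

theorem bij_bound (G : ModuleCat.{0} R) (hG : Module.Finite R G) :
    ∃ i0 : ℕ, ∀ Z : ModuleCat.{0} R, Module.Finite R Z → AddG G Z → ∀ (g : Z →ₗ[R] Z) (p : ℕ),
      Bij p g → Bij i0 g := by
  obtain ⟨i0, hi0⟩ := kills_bound G hG
  refine ⟨i0, fun Z hZf hZ g p hg => ?_⟩
  obtain ⟨n, h, h', hn, e1, e2⟩ := pi_reg Z hZf g
  let gn : Module.End R Z := (g : Module.End R Z) ^ n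
  have hb : Bij p (gn : Z →ₗ[R] Z) := bij_pow hg n
  have k1 : Kills i0 (LinearMap.id - gn ∘ₗ h : Z →ₗ[R] Z) := by
    refine hi0 Z hZ _ p fun i hi M x => ?_
    obtain ⟨y, rfl⟩ := (hb i hi M).2 x
    change pc (LinearMap.id - gn ∘ₗ h : Z →ₗ[R] Z) (pc (gn : Z →ₗ[R] Z) y) = 0
    rw [pc_comp]
    have h1 : (gn : Z →ₗ[R] Z) ∘ₗ (LinearMap.id - gn ∘ₗ h) = 0 := by
      have h2 : gn * (gn * h) = gn := e1
      rw [LinearMap.comp_sub]
      exact sub_eq_zero.mpr h2.symm
    rw [h1, pc_zero]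
  have k2 : Kills i0 (LinearMap.id - h' ∘ₗ gn : Z →ₗ[R] Z) := by
    refine hi0 Z hZ _ p fun i hi M x => ?_
    apply (hb i hi M).1
    change pc (gn : Z →ₗ[R] Z) (pc (LinearMap.id - h' ∘ₗ gn : Z →ₗ[R] Z) x) =
      pc (gn : Z →ₗ[R] Z) 0
    rw [pc_comp, pc_map_zero]
    have h1 : (LinearMap.id - h' ∘ₗ gn) ∘ₗ (gn : Z →ₗ[R] Z) = 0 := by
      have h2 : h' * gn * gn = gn := e2
      rw [LinearMap.sub_comp]
      exact sub_eq_zero.mpr h2.symm
    rw [h1, pc_zero]
  obtain ⟨n', rfl⟩ : ∃ n', n = n' + 1 := ⟨n - 1, by omega⟩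
  have f1 : (gn : Z →ₗ[R] Z) = g ∘ₗ ((g : Module.End R Z) ^ n' : Module.End R Z) := by
    change (g : Module.End R Z) ^ (n' + 1) = (g : Module.End R Z) * (g : Module.End R Z) ^ n'
    rw [pow_succ']
  have f2 : (gn : Z →ₗ[R] Z) = ((g : Module.End R Z) ^ n' : Module.End R Z) ∘ₗ g := by
    change (g : Module.End R Z) ^ (n' + 1) = (g : Module.End R Z) ^ n' * (g : Module.End R Z)
    rw [pow_succ]
  intro i hi M
  constructor
  · refine pc_injective g fun x hx => ?_
    have h1 := k1 i hi M x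
    rw [pc_sub, pc_id, sub_eq_zero] at h1
    rw [h1, ← pc_comp, f1, ← pc_comp, hx, pc_map_zero, pc_map_zero]
  · intro x
    have h1 := k2 i hi M x
    rw [pc_sub, pc_id, sub_eq_zero] at h1
    refine ⟨pc ((g : Module.End R Z) ^ n' : Module.End R Z) (pc h' x), ?_⟩
    change pc g (pc ((g : Module.End R Z) ^ n' : Module.End R Z) (pc h' x)) = x
    conv_rhs => rw [h1, ← pc_comp, f2, ← pc_comp]

end

end Pool.Agent.Helper426TauT
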