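import Pool.Agent.Helper426_TauT.IT1
import Pool.Agent.Helper426_Tach.Schan

set_option autoImplicit false
open CategoryTheory Pool.Agent.Helper426Tach

namespace Pool.Agent.Helper426TauT

section
variable {R : Type} [Ring R] [HasExt.{0} (ModuleCat.{0} R)]

theorem bij_of_pd {X B C : ModuleCat.{0} R} (f : X →ₗ[R] B) (g : B →ₗ[R] C) (h : SES f g)
    {p : ℕ} (hX : HasProjectiveDimensionLT X p) : Bij (p + 1) g := by
  obtain ⟨hf, hfg, hg⟩ := h
  have hS := sc_shortExact f g hf hfg hg
  intro i hi M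
  obtain ⟨i, rfl⟩ : ∃ i', i = i' + 1 := ⟨i - 1, by omega⟩
  constructor
  · refine pc_injective g fun x hx => ?_
    obtain ⟨y, hy⟩ := Abelian.Ext.contravariant_sequence_exact₃ hS M x hx (Nat.add_comm 1 i)
    rw [← hy, Abelian.Ext.eq_zero_of_hasProjectiveDimensionLT y p (by omega),
      Abelian.Ext.comp_zero]
  · intro x
    obtain ⟨y, hy⟩ := Abelian.Ext.contravariant_sequence_exact₂ hS M x
      (Abelian.Ext.eq_zero_of_hasProjectiveDimensionLT _ p (by omega))
    exact ⟨y, hy⟩

theorem pd_of_bij {X B C : ModuleCat.{0} R} (f : X →ₗ[R] B) (g : B →ₗ[R] C) (h : SES f g)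
    {p : ℕ} (hg' : Bij p g) : HasProjectiveDimensionLT X p := by
  obtain ⟨hf, hfg, hg⟩ := h
  have hS := sc_shortExact f g hf hfg hg
  refine HasProjectiveDimensionLT.mk fun i hi M x => ?_
  have h1 : hS.extClass.comp x (Nat.add_comm 1 i) = 0 := by
    apply (hg' (i + 1) (by omega) M).1
    change (Abelian.Ext.mk₀ (sc f g hfg).g).comp (hS.extClass.comp x (Nat.add_comm 1 i))
      (zero_add (i + 1)) = pc g 0
    rw [pc_map_zero, hS.comp_extClass_assoc]
  obtain ⟨y, hy⟩ := Abelian.Ext.contravariant_sequence_exact₁ hS M x (Nat.add_comm 1 i) h1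
  obtain ⟨z, rfl⟩ := (hg' i hi M).2 y
  have h2 : pc f (pc g z) = x := hy
  rw [← h2, pc_comp, hfg.linearMap_comp_eq_zero, pc_zero]

theorem inl_fst {Z Q : ModuleCat.{0} R} (hQ : Module.Projective R Q) {M : ModuleCat.{0} R}
    {i : ℕ} (hi : 1 ≤ i) (x : Abelian.Ext.{0} (ModuleCat.of R (Z × Q)) M i) :
    pc (X := ModuleCat.of R (Z × Q)) (Y := Z) (LinearMap.fst R Z Q)
      (pc (X := Z) (Y := ModuleCat.of R (Z × Q)) (LinearMap.inl R Z Q) x) = x := by
  obtain ⟨i, rfl⟩ : ∃ i', i = i' + 1 := ⟨i - 1, by omega⟩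
  have h1 : pc (X := Q) (Y := ModuleCat.of R (Z × Q)) (LinearMap.inr R Z Q) x = 0 :=
    (ez_projective hQ i).elim _ _
  have h2 : pc (X := ModuleCat.of R (Z × Q)) (Y := ModuleCat.of R (Z × Q))
      (LinearMap.inl R Z Q ∘ₗ LinearMap.fst R Z Q + LinearMap.inr R Z Q ∘ₗ LinearMap.snd R Z Q) x
      = x := by
    rw [show (LinearMap.inl R Z Q ∘ₗ LinearMap.fst R Z Q + LinearMap.inr R Z Q ∘ₗ
      LinearMap.snd R Z Q) = (LinearMap.id : (Z × Q) →ₗ[R] (Z × Q)) from
        LinearMap.ext fun y => by simp]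
    exact pc_id x
  rw [pc_add] at h2
  have h3 : pc (X := ModuleCat.of R (Z × Q)) (Y := ModuleCat.of R (Z × Q))
      (LinearMap.inr R Z Q ∘ₗ LinearMap.snd R Z Q) x = 0 := by
    have h4 := pc_comp (X := ModuleCat.of R (Z × Q)) (Y := Q) (Z := ModuleCat.of R (Z × Q))
      (LinearMap.snd R Z Q) (LinearMap.inr R Z Q) x
    rw [h1, pc_map_zero] at h4
    exact h4.symm
  rw [h3, add_zero] at h2
  rw [pc_comp]
  exact h2

theorem fst_inl {Z Q : ModuleCat.{0} R} {M : ModuleCat.{0} R} {i : ℕ}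
    (x : Abelian.Ext.{0} Z M i) :
    pc (X := Z) (Y := ModuleCat.of R (Z × Q)) (LinearMap.inl R Z Q)
      (pc (X := ModuleCat.of R (Z × Q)) (Y := Z) (LinearMap.fst R Z Q) x) = x := by
  rw [pc_comp]
  exact pc_id x

theorem bij_inl {Z Q : ModuleCat.{0} R} (hQ : Module.Projective R Q) :
    Bij 1 (X := Z) (Y := ModuleCat.of R (Z × Q)) (LinearMap.inl R Z Q) := fun i hi M =>
  Function.bijective_iff_has_inverse.mpr ⟨fun x => pc (X := ModuleCat.of R (Z × Q)) (Y := Z)
    (LinearMap.fst R Z Q) x, fun x => inl_fst hQ hi x, fun x => fst_inl x⟩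

theorem bij_fst {Z Q : ModuleCat.{0} R} (hQ : Module.Projective R Q) :
    Bij 1 (X := ModuleCat.of R (Z × Q)) (Y := Z) (LinearMap.fst R Z Q) := fun i hi M =>
  Function.bijective_iff_has_inverse.mpr ⟨fun x => pc (X := Z) (Y := ModuleCat.of R (Z × Q))
    (LinearMap.inl R Z Q) x, fun x => fst_inl x, fun x => inl_fst hQ hi x⟩

theorem bij_core {Z Q1 Q2 : ModuleCat.{0} R} (hQ1 : Module.Projective R Q1)
    (hQ2 : Module.Projective R Q2)
    (F : ModuleCat.of R (Z × Q1) →ₗ[R] ModuleCat.of R (Z × Q2)) {p : ℕ} (hp : 1 ≤ p) :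
    Bij p F ↔ Bij (X := Z) (Y := Z) p (LinearMap.fst R Z Q2 ∘ₗ F ∘ₗ LinearMap.inl R Z Q1) := by
  have key : ∀ i, p ≤ i → ∀ M : ModuleCat.{0} R,
      (Function.Bijective (fun x : Abelian.Ext.{0} (ModuleCat.of R (Z × Q2)) M i => pc F x) ↔
        Function.Bijective (fun x : Abelian.Ext.{0} Z M i => pc (X := Z) (Y := Z)
          (LinearMap.fst R Z Q2 ∘ₗ F ∘ₗ LinearMap.inl R Z Q1) x)) := by
    intro i hi M
    have a1 := bij_inl (Z := Z) hQ1 i (by omega) M
    have a2 := bij_fst (Z := Z) hQ2 i (by omega) M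
    have h1 : (fun x : Abelian.Ext.{0} Z M i => pc (X := Z) (Y := Z)
          (LinearMap.fst R Z Q2 ∘ₗ F ∘ₗ LinearMap.inl R Z Q1) x) =
        (fun x => pc (X := Z) (Y := ModuleCat.of R (Z × Q1)) (LinearMap.inl R Z Q1) x) ∘
          ((fun x => pc F x) ∘ (fun x => pc (X := ModuleCat.of R (Z × Q2)) (Y := Z)
            (LinearMap.fst R Z Q2) x)) := by
      funext x
      change _ = pc (X := Z) (Y := ModuleCat.of R (Z × Q1)) (LinearMap.inl R Z Q1)
        (pc F (pc (X := ModuleCat.of R (Z × Q2)) (Y := Z) (LinearMap.fst R Z Q2) x))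
      rw [pc_comp, pc_comp]
    rw [h1, Function.Bijective.of_comp_iff' a1, Function.Bijective.of_comp_iff _ a2]
  constructor
  · intro h i hi M
    exact (key i hi M).mp (h i hi M)
  · intro h i hi M
    exact (key i hi M).mpr (h i hi M)

end

section
variable {R : Type} [Ring R] [hart : IsArtinianRing (Subring.center R)]
  [hfin : Module.Finite (Subring.center R) R] [HasExt.{0} (ModuleCat.{0} R)]

theorem pd_core (G : ModuleCat.{0} R) (hG : Module.Finite R G) :
    ∃ E : ℕ, ∀ (X Z Q1 Q2 : ModuleCat.{0} R) (f : X →ₗ[R] ModuleCat.of R (Z × Q1))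
      (F : ModuleCat.of R (Z × Q1) →ₗ[R] ModuleCat.of R (Z × Q2)), Module.Finite R Z →
      AddG G Z → Module.Projective R Q1 → Module.Projective R Q2 → SES f F →
      (∃ n, HasProjectiveDimensionLT X n) → HasProjectiveDimensionLT X E := by
  obtain ⟨i0, hi0⟩ := bij_bound G hG
  refine ⟨max i0 1, ?_⟩
  rintro X Z Q1 Q2 f F hZf hZ hQ1 hQ2 hF ⟨n, hn⟩
  have h1 : Bij (n + 1) F := bij_of_pd f F hF hn
  rw [bij_core hQ1 hQ2 F (by omega)] at h1
  have h2 := hi0 Z hZf hZ _ _ h1
  apply pd_of_bij f F hF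
  rw [bij_core hQ1 hQ2 F (le_max_right _ _)]
  intro i hi M
  exact h2 i (le_trans (le_max_left _ _) hi) M

end

section
variable {R : Type} [Ring R]

theorem horseshoe1 {X M M' Q P : ModuleCat.{0} R} (f : X →ₗ[R] M) (g : M →ₗ[R] M')
    (h : SES f g) (q : Q →ₗ[R] X) (hq : Function.Surjective q) (p : P →ₗ[R] M')
    (hp : Function.Surjective p) (hP : Module.Projective R P) :
    ∃ r : (Q × P) →ₗ[R] M, Function.Surjective r ∧
      ∃ (u : LinearMap.ker q →ₗ[R] LinearMap.ker r) (v : LinearMap.ker r →ₗ[R] LinearMap.ker p),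
        Function.Injective u ∧ Function.Exact u v ∧ Function.Surjective v := by
  obtain ⟨hf, hfg, hg⟩ := h
  obtain ⟨s, hs⟩ := Module.projective_lifting_property g p hg
  have hgs : ∀ y, g (s y) = p y := fun y => LinearMap.congr_fun hs y
  have hgf : ∀ y, g (f y) = 0 := fun y => (hfg _).mpr ⟨y, rfl⟩
  let r : (Q × P) →ₗ[R] M := LinearMap.coprod (f ∘ₗ q) s
  have hr : ∀ a b, r (a, b) = f (q a) + s b := fun a b => LinearMap.coprod_apply _ _ _
  refine ⟨r, ?_, ?_⟩
  · intro m
    obtain ⟨b, hb⟩ := hp (g m)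
    have h1 : g (m - s b) = 0 := by rw [map_sub, hgs, hb, sub_self]
    obtain ⟨x, hx⟩ := (hfg _).mp h1
    obtain ⟨a, rfl⟩ := hq x
    exact ⟨(a, b), by rw [hr, hx, sub_add_cancel]⟩
  · let u : LinearMap.ker q →ₗ[R] LinearMap.ker r :=
      LinearMap.codRestrict _ (LinearMap.inl R Q P ∘ₗ (LinearMap.ker q).subtype) (by
        rintro ⟨a, ha⟩
        rw [LinearMap.mem_ker] at ha ⊢
        change r (a, 0) = 0
        rw [hr, ha, map_zero, map_zero, add_zero])
    let v : LinearMap.ker r →ₗ[R] LinearMap.ker p :=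
      LinearMap.codRestrict _ (LinearMap.snd R Q P ∘ₗ (LinearMap.ker r).subtype) (by
        rintro ⟨⟨a, b⟩, hab⟩
        rw [LinearMap.mem_ker, hr] at hab
        rw [LinearMap.mem_ker]
        change p b = 0
        rw [← hgs, ← map_zero g, ← hab, map_add, hgf, zero_add])
    refine ⟨u, v, ?_, ?_, ?_⟩
    · intro x y hxy
      have h1 : ((u x).1 : Q × P) = (u y).1 := congrArg Subtype.val hxy
      exact Subtype.ext (congrArg Prod.fst h1)
    · rintro ⟨⟨a, b⟩, hab⟩
      constructor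
      · intro h1
        have h2 : b = 0 := congrArg Subtype.val h1
        subst h2
        rw [LinearMap.mem_ker, hr, map_zero, add_zero] at hab
        have h3 : q a = 0 := hf (by rw [hab, map_zero])
        exact ⟨⟨a, h3⟩, rfl⟩
      · rintro ⟨⟨c, hc⟩, hcc⟩
        apply Subtype.ext
        have h1 := congrArg (fun z : LinearMap.ker r => z.1.2) hcc
        exact h1.symm
    · rintro ⟨b, hb⟩
      have h1 : g (s b) = 0 := by rw [hgs, hb]
      obtain ⟨x, hx⟩ := (hfg _).mp h1
      obtain ⟨a, rfl⟩ := hq x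
      refine ⟨⟨(-a, b), ?_⟩, rfl⟩
      rw [LinearMap.mem_ker, hr, map_neg, map_neg, hx, neg_add_cancel]

variable [IsNoetherianRing R]

theorem horseshoe {X M M' : ModuleCat.{0} R} (f : X →ₗ[R] M) (g : M →ₗ[R] M')
    (h : SES f g) (hX : Module.Finite R X) (hM : Module.Finite R M) (hM' : Module.Finite R M')
    (j : ℕ) : ∃ (Xj Mj Mj' : ModuleCat.{0} R) (f' : Xj →ₗ[R] Mj) (g' : Mj →ₗ[R] Mj'),
      SES f' g' ∧ Module.Finite R Xj ∧ Module.Finite R Mj ∧ Module.Finite R Mj' ∧
      Syz R j X Xj ∧ Syz R j M Mj ∧ Syz R j M' Mj' := by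
  induction j with
  | zero => exact ⟨X, M, M', f, g, h, hX, hM, hM', Syz.zero _, Syz.zero _, Syz.zero _⟩
  | succ j ih =>
    obtain ⟨Xj, Mj, Mj', f', g', h', hXj, hMj, hMj', s1, s2, s3⟩ := ih
    obtain ⟨a, q, hq⟩ := Module.Finite.exists_fin' R Xj
    obtain ⟨b, p, hp⟩ := Module.Finite.exists_fin' R Mj'
    have hP : Module.Projective R (Fin b → R) := inferInstance
    obtain ⟨r, hr, u, v, hu, huv, hv⟩ := horseshoe1 (Q := ModuleCat.of R (Fin a → R))
      (P := ModuleCat.of R (Fin b → R)) f' g' h' q hq p hp hP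
    refine ⟨ModuleCat.of R (LinearMap.ker q), ModuleCat.of R (LinearMap.ker r),
      ModuleCat.of R (LinearMap.ker p), u, v, ⟨hu, huv, hv⟩, ?_, ?_, ?_, ?_, ?_, ?_⟩
    · change Module.Finite R (LinearMap.ker q)
      infer_instance
    · change Module.Finite R (LinearMap.ker r)
      have h1 : Module.Finite R ((Fin a → R) × (Fin b → R)) := inferInstance
      have h2 : IsNoetherian R ((Fin a → R) × (Fin b → R)) := inferInstance
      exact Module.Finite.of_fg (h2.noetherian _)
    · change Module.Finite R (LinearMap.ker p)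
      infer_instance
    · refine Syz.succ (P := ModuleCat.of R (Fin a → R)) s1 (LinearMap.ker q).subtype q ?_ ?_
        ⟨Submodule.injective_subtype _, LinearMap.exact_subtype_ker_map _, hq⟩
      · change Module.Finite R (Fin a → R)
        infer_instance
      · change Module.Projective R (Fin a → R)
        infer_instance
    · refine Syz.succ (P := ModuleCat.of R ((Fin a → R) × (Fin b → R))) s2
        (LinearMap.ker r).subtype r ?_ ?_
        ⟨Submodule.injective_subtype _, LinearMap.exact_subtype_ker_map _, hr⟩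
      · change Module.Finite R ((Fin a → R) × (Fin b → R))
        infer_instance
      · change Module.Projective R ((Fin a → R) × (Fin b → R))
        infer_instance
    · refine Syz.succ (P := ModuleCat.of R (Fin b → R)) s3 (LinearMap.ker p).subtype p ?_ hP
        ⟨Submodule.injective_subtype _, LinearMap.exact_subtype_ker_map _, hp⟩
      change Module.Finite R (Fin b → R)
      infer_instance

omit [IsNoetherianRing R] in
theorem syz_pd {n : ℕ} {X Y : ModuleCat.{0} R} (h : Syz R n X Y) :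
    ∀ m, 1 ≤ m → HasProjectiveDimensionLT X (m + n) → HasProjectiveDimensionLT Y m := by
  induction h with
  | zero M => intro m _ h; exact h
  | @succ n M X P Y hX f g hfin hproj h ih =>
    intro m hm h1
    have h2 := ih (m + 1) (by omega) (by rwa [show m + 1 + n = m + (n + 1) by omega])
    obtain ⟨hf, hfg, hg⟩ := h
    have hP : Projective P := (IsProjective.iff_projective P).mp hproj
    exact (sc_shortExact f g hf hfg hg).hasProjectiveDimensionLT_X₁ m
      (hasProjectiveDimensionLT_of_ge P 1 m hm) h2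

theorem common_syz {X M M' : ModuleCat.{0} R} (f : X →ₗ[R] M) (g : M →ₗ[R] M')
    (h : SES f g) (hX : Module.Finite R X) (hM : Module.Finite R M) (hM' : Module.Finite R M')
    (n : ℕ) (hpd : HasProjectiveDimensionLT X (n + 1)) :
    ∃ Y : ModuleCat.{0} R, Syz R (n + 1) M Y ∧ Syz R (n + 1) M' Y := by
  obtain ⟨Xj, Mj, Mj', f', g', h', hXj, hMj, hMj', s1, s2, s3⟩ := horseshoe f g h hX hM hM' n
  have hXp : HasProjectiveDimensionLT Xj 1 :=
    syz_pd s1 1 le_rfl (by rwa [show 1 + n = n + 1 by omega])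
  have hXproj : Module.Projective R Xj :=
    (IsProjective.iff_projective Xj).mpr (projective_iff_hasProjectiveDimensionLT_one.mpr hXp)
  obtain ⟨b, p, hp⟩ := Module.Finite.exists_fin' R Mj'
  have hP : Module.Projective R (Fin b → R) := inferInstance
  obtain ⟨r, hr, u, v, hu, huv, hv⟩ := horseshoe1 (Q := Xj)
    (P := ModuleCat.of R (Fin b → R)) f' g' h' LinearMap.id Function.surjective_id p hp hP
  have hvi : Function.Injective v := by
    rw [← LinearMap.ker_eq_bot, eq_bot_iff]
    intro x hx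
    obtain ⟨y, rfl⟩ := (huv x).mp hx
    have h1 : y = 0 := Subtype.ext y.2
    rw [h1, map_zero]
    exact Submodule.zero_mem _
  let e := LinearEquiv.ofBijective v ⟨hvi, hv⟩
  refine ⟨ModuleCat.of R (LinearMap.ker p), ?_, ?_⟩
  · refine Syz.succ (P := ModuleCat.of R (Xj × (Fin b → R))) s2
      ((LinearMap.ker r).subtype ∘ₗ e.symm.toLinearMap) r ?_ ?_ ⟨?_, ?_, hr⟩
    · change Module.Finite R (Xj × (Fin b → R))
      infer_instance
    · change Module.Projective R (Xj × (Fin b → R))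
      infer_instance
    · exact (Submodule.injective_subtype _).comp e.symm.injective
    · intro x
      constructor
      · intro hx
        refine ⟨e ⟨x, hx⟩, ?_⟩
        change ((e.symm (e ⟨x, hx⟩)) : Xj × (Fin b → R)) = x
        rw [LinearEquiv.symm_apply_apply]
      · rintro ⟨y, rfl⟩
        exact (e.symm y).2
  · refine Syz.succ (P := ModuleCat.of R (Fin b → R)) s3 (LinearMap.ker p).subtype p ?_ hP
        ⟨Submodule.injective_subtype _, LinearMap.exact_subtype_ker_map _, hp⟩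
    change Module.Finite R (Fin b → R)
    infer_instance

end

end Pool.Agent.Helper426TauT
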