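import Pool.Agent.Helper426_TauT.IT3

set_option autoImplicit false
open CategoryTheory Pool.Agent.Helper426Tach

namespace Pool.Agent.Helper426TauT

section
variable {R B : Type} [Ring R] [Ring B] [Module R B] [IsScalarTower R B B]

theorem hb_finite [IsNoetherianRing Bᵐᵒᵖ] (M : ModuleCat.{0} R) (hM : Module.Finite R M) :
    Module.Finite Bᵐᵒᵖ (HB B M) := by
  obtain ⟨s, a, ha⟩ := Module.Finite.exists_fin' R M
  have := fin_freeHom (R := R) (B := B) s
  exact Module.Finite.of_injective (pre B a) (pre_injective a ha)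

theorem hb_bk {N : ℕ} (G : Fin N → ModuleCat.{0} R) (c : Fin N → ℕ) :
    Nonempty (HB B (Bk G c) ≃ₗ[Bᵐᵒᵖ] Bk (fun a => HB B (G a)) c) := by
  let e1 : (∀ a, Fin (c a) → (G a →ₗ[R] B)) ≃ₗ[Bᵐᵒᵖ] (∀ a, ((Fin (c a) → G a) →ₗ[R] B)) :=
    LinearEquiv.piCongrRight fun a => LinearMap.lsum R (fun _ : Fin (c a) => (G a : Type)) Bᵐᵒᵖ
  let e2 : (∀ a, ((Fin (c a) → G a) →ₗ[R] B)) ≃ₗ[Bᵐᵒᵖ] ((∀ a, Fin (c a) → G a) →ₗ[R] B) :=
    LinearMap.lsum R (fun a => (Fin (c a) → G a)) Bᵐᵒᵖ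
  exact ⟨(e1.trans e2).symm⟩

theorem pd_syz_gen (E : ℕ) {n : ℕ} {M Y Z : ModuleCat.{0} R}
    (hY : Syz R n M Y) (hZ : Syz R n M Z)
    (hs : (∃ l, HasProjectiveDimensionLT (HB B Y) l) → HasProjectiveDimensionLT (HB B Y) E)
    (hfin : ∃ l, HasProjectiveDimensionLT (HB B Z) l) :
    HasProjectiveDimensionLT (HB B Z) (E + 1) := by
  obtain ⟨P, Q, hP1, hP2, hQ1, hQ2, ⟨e⟩⟩ := syz_schanuel hY hZ
  obtain ⟨l, hl⟩ := hfin
  have h1 : HasProjectiveDimensionLT (HB B (ModuleCat.of R (Y × P))) (l + 1) := by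
    refine pd_dual_prod (X := Z) (Y := Q) e (l + 1) ?_ (pd_dual_proj hQ1 hQ2 _ (by omega))
    exact hasProjectiveDimensionLT_of_ge _ l _ (by omega)
  have h2 : HasProjectiveDimensionLT (HB B Y) (l + 1) :=
    pd_dual_retract (Y := ModuleCat.of R (Y × P)) (LinearMap.inl R Y P) (LinearMap.fst R Y P)
      (LinearMap.ext fun x => rfl) _ h1
  have h3 : HasProjectiveDimensionLT (HB B Y) E := hs ⟨_, h2⟩
  have h4 : HasProjectiveDimensionLT (HB B (ModuleCat.of R (Z × Q))) (E + 1) := by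
    refine pd_dual_prod (X := Y) (Y := P) e.symm (E + 1) ?_ (pd_dual_proj hP1 hP2 _ (by omega))
    exact hasProjectiveDimensionLT_of_ge _ E _ (by omega)
  exact pd_dual_retract (Y := ModuleCat.of R (Z × Q)) (LinearMap.inl R Z Q) (LinearMap.fst R Z Q)
    (LinearMap.ext fun x => rfl) _ h4

end

section
variable {R : Type} [Ring R] [HasExt.{0} (ModuleCat.{0} R)]

theorem syz_ext {n : ℕ} {M Y N : ModuleCat.{0} R} (h : Syz R n M Y) :
    ∀ i, 1 ≤ i → Subsingleton (Abelian.Ext.{0} M N (i + n)) →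
      Subsingleton (Abelian.Ext.{0} Y N i) := by
  induction h with
  | zero M => intro i _ h; exact h
  | @succ n M X P Y hX f g hfin hproj h ih =>
    intro i hi h1
    have h2 := ih (i + 1) (by omega) (by rwa [show i + 1 + n = i + (n + 1) by omega])
    obtain ⟨hf, hfg, hg⟩ := h
    obtain ⟨i, rfl⟩ : ∃ i', i = i' + 1 := ⟨i - 1, by omega⟩
    exact ez_contra1 f g hf hfg hg (ez_projective hproj i) h2

end

section
variable {R : Type} [Ring R] [hart : IsArtinianRing (Subring.center R)]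
  [hfin : Module.Finite (Subring.center R) R] [HasExt.{0} (ModuleCat.{0} R)]

/-- Main theorem, the case of an annihilator of Igusa-Todorov type. -/
theorem main_it (T : ModuleCat.{0} R) (hT : TauTilting T)
    (hself : ∀ i, 1 ≤ i → Subsingleton (Abelian.Ext.{0} T T i))
    (hI : IgusaTodorovType (ModuleCat.of R (Module.annihilator R T)))
    (hart' : IsArtinianRing (Subring.center (R ⧸ Module.annihilator R T)ᵐᵒᵖ))
    (hfin' : Module.Finite (Subring.center (R ⧸ Module.annihilator R T)ᵐᵒᵖ)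
      (R ⧸ Module.annihilator R T)ᵐᵒᵖ) :
    OneTilting T := by
  have hartR : IsArtinianRing R := IsArtinianRing.of_finite (Subring.center R) R
  have hartB : IsArtinianRing (R ⧸ Module.annihilator R T)ᵐᵒᵖ :=
    IsArtinianRing.of_finite (Subring.center (R ⧸ Module.annihilator R T)ᵐᵒᵖ) _
  obtain ⟨N, G, hGf, hG⟩ := hI
  obtain ⟨E, hE⟩ := it_bound (R := (R ⧸ Module.annihilator R T)ᵐᵒᵖ)
    (fun a => HB (R ⧸ Module.annihilator R T) (G a)) (fun a => hb_finite (G a) (hGf a))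
  obtain ⟨n, hn, Y, hY, c1, c0, f, g, hf, hfg, hg⟩ := hG (E + 2)
  obtain ⟨q, rfl⟩ : ∃ q, n = q + 1 := ⟨n - 1, by omega⟩
  refine main_qL T hT q (q + 2) (by omega) (by omega) ?_ (fun i hi _ => hself i hi)
  intro Z nn κ ρ hZ0 hκ hex hρ hext hzero hIB
  have hZ := syz_of_res κ ρ hκ hex hρ (q + 1)
  rw [hZ0] at hZ
  have hYext : Subsingleton (Abelian.Ext.{0} Y
      (ModuleCat.of R (R ⧸ Module.annihilator R T)) 1) :=
    syz_ext hY 1 le_rfl (hIB _ (by omega))
  have hSES : SES (X := HB (R ⧸ Module.annihilator R T) Y)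
      (Y := HB (R ⧸ Module.annihilator R T) (Bk G c0))
      (Z := HB (R ⧸ Module.annihilator R T) (Bk G c1)) (pre _ g) (pre _ f) :=
    ⟨pre_injective g hg, pre_exact f g hfg hg, fun φ =>
      ext_of_ez (A := Bk G c1) (B := Bk G c0) (C := Y)
        (Y := ModuleCat.of R (R ⧸ Module.annihilator R T)) f g hf hfg hg hYext φ⟩
  have h1 := pd_syz_gen (B := R ⧸ Module.annihilator R T) E hY hZ
    (hE _ _ _ _ _ c0 c1 hSES (hb_bk G c0) (hb_bk G c1))
    ⟨q + 1, seq_up κ ρ hex hρ q hext hzero q le_rfl⟩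
  exact hasProjectiveDimensionLT_of_ge _ (E + 1) q (by omega)

end

end Pool.Agent.Helper426TauT
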