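import Pool.Agent.Helper426_TauT.Tools
import Pool.Agent.Helper426_TauT.FinD

set_option autoImplicit false
open CategoryTheory Pool.Agent.Helper426Tach

namespace Pool.Agent.Helper426TauT

section
variable {R : Type} [Ring R]

theorem center_smul_comm {M : Type} [AddCommGroup M] [Module R M] (c : Subring.center R) (r : R)
    (x : M) : r • (c • x) = c • (r • x) := by
  change r • ((c : R) • x) = (c : R) • (r • x)
  rw [smul_smul, smul_smul, (Subring.mem_center_iff.mp c.2 r)]

variable [hart : IsArtinianRing (Subring.center R)] [hfin : Module.Finite (Subring.center R) R]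

/-- the left approximation of R / ann T by a power of T -/
theorem exists_approx (T : ModuleCat.{0} R) (hT : Module.Finite R T) :
    ∃ (m : ℕ) (f : (R ⧸ Module.annihilator R T) →ₗ[R] (Fin m → T)), Function.Injective f ∧
      ∀ N : ModuleCat.{0} R, InFac T N → ∀ φ : (R ⧸ Module.annihilator R T) →ₗ[R] N,
        ∃ ψ : (Fin m → T) →ₗ[R] N, ψ ∘ₗ f = φ := by
  have hTk : Module.Finite (Subring.center R) T := finite_center
  obtain ⟨m, t, ht⟩ := Module.Finite.exists_fin (R := Subring.center R) (M := T)
  have hker : Module.annihilator R T ≤ LinearMap.ker (LinearMap.toSpanSingleton R (Fin m → T) t) := by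
    intro r hr
    rw [LinearMap.mem_ker, LinearMap.toSpanSingleton_apply]
    funext i
    exact Module.mem_annihilator.mp hr (t i)
  let f : (R ⧸ Module.annihilator R T) →ₗ[R] (Fin m → T) :=
    (Module.annihilator R T).liftQ (LinearMap.toSpanSingleton R (Fin m → T) t) hker
  have hft : ∀ r : R, f (Submodule.Quotient.mk r) = r • t := fun r => rfl
  refine ⟨m, f, ?_, ?_⟩
  · rw [← LinearMap.ker_eq_bot]
    apply Submodule.ker_liftQ_eq_bot
    intro r hr
    have hr' : r • t = 0 := hr
    rw [Module.mem_annihilator]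
    intro x
    have hx : x ∈ Submodule.span (Subring.center R) (Set.range t) := by
      rw [ht]
      trivial
    obtain ⟨c, rfl⟩ := (Submodule.mem_span_range_iff_exists_fun _).mp hx
    rw [Finset.smul_sum]
    refine Finset.sum_eq_zero fun i _ => ?_
    rw [center_smul_comm]
    have h1 : r • t i = 0 := congrFun hr' i
    rw [h1, smul_zero]
  · rintro N ⟨q, F, hF⟩ φ
    obtain ⟨v, hv⟩ := hF (φ (Submodule.Quotient.mk 1))
    have hc : ∀ l, ∃ c : Fin m → Subring.center R, ∑ i, c i • t i = v l := by
      intro l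
      have hx : v l ∈ Submodule.span (Subring.center R) (Set.range t) := by
        rw [ht]
        trivial
      exact (Submodule.mem_span_range_iff_exists_fun _).mp hx
    choose c hc using hc
    let ψ : (Fin m → T) →ₗ[R] N :=
      F ∘ₗ LinearMap.pi fun l => ∑ i, c l i • (LinearMap.proj i : (Fin m → T) →ₗ[R] T)
    refine ⟨ψ, ?_⟩
    have h1 : ψ t = φ (Submodule.Quotient.mk 1) := by
      rw [← hv]
      change F (fun l => (∑ i, c l i • (LinearMap.proj i : (Fin m → T) →ₗ[R] T)) t) = F v
      congr 1
      funext l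
      rw [LinearMap.sum_apply, ← hc l]
      rfl
    refine LinearMap.ext fun x => ?_
    obtain ⟨r, rfl⟩ := Submodule.Quotient.mk_surjective _ x
    change ψ (f (Submodule.Quotient.mk r)) = φ (Submodule.Quotient.mk r)
    rw [hft, map_smul, h1, ← map_smul]
    congr 1
    rw [← Submodule.Quotient.mk_smul, smul_eq_mul, mul_one]

end

section
variable {R : Type} [Ring R] [hart : IsArtinianRing (Subring.center R)]
  [hfin : Module.Finite (Subring.center R) R] [HasExt.{0} (ModuleCat.{0} R)]

/-- Main theorem, general form: it is enough that the dual of some syzygy of the annihilator has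
smaller projective dimension than expected. -/
theorem main_qL (T : ModuleCat.{0} R) (hT : TauTilting T) (q L : ℕ) (hq1 : 1 ≤ q)
    (hqL : q + 1 ≤ L)
    (hpdq : ∀ (Z : ℕ → ModuleCat.{0} R) (nn : ℕ → ℕ)
      (κ : ∀ i, Z (i + 1) →ₗ[R] (Fin (nn i) → R)) (ρ : ∀ i, (Fin (nn i) → R) →ₗ[R] Z i),
      Z 0 = ModuleCat.of R (Module.annihilator R T) →
      (∀ i, Function.Injective (κ i)) → (∀ i, Function.Exact (κ i) (ρ i)) →
      (∀ i, Function.Surjective (ρ i)) →
      (∀ i, i ≤ q → ∀ φ : Z (i + 1) →ₗ[R] (R ⧸ Module.annihilator R T),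
        ∃ ψ : (Fin (nn i) → R) →ₗ[R] (R ⧸ Module.annihilator R T), ψ ∘ₗ κ i = φ) →
      (∀ φ : Z 0 →ₗ[R] (R ⧸ Module.annihilator R T), φ = 0) →
      (∀ i, i ≤ L → Subsingleton (Abelian.Ext.{0} (ModuleCat.of R (Module.annihilator R T))
        (ModuleCat.of R (R ⧸ Module.annihilator R T)) i)) →
      HasProjectiveDimensionLT (GM (R ⧸ Module.annihilator R T) Z (q + 1)) q)
    (hself : ∀ i, 1 ≤ i → i ≤ L + 2 → Subsingleton (Abelian.Ext.{0} T T i)) :
    OneTilting T := by
  classical
  have hartR : IsArtinianRing R := IsArtinianRing.of_finite (Subring.center R) R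
  obtain ⟨hTf, hrig, n, hX, hSs⟩ := hT
  obtain ⟨X, hX1, hX2, hX3⟩ := id hX
  obtain ⟨S, hS1, hS2, hS3⟩ := id hSs
  obtain ⟨m, f, hf, happ⟩ := exists_approx T hTf
  let B : ModuleCat.{0} R := ModuleCat.of R (R ⧸ Module.annihilator R T)
  let Tm : ModuleCat.{0} R := ModuleCat.of R (Fin m → T)
  let T1 : ModuleCat.{0} R := ModuleCat.of R ((Fin m → T) ⧸ LinearMap.range f)
  let g : Tm →ₗ[R] T1 := (LinearMap.range f).mkQ
  have hg : Function.Surjective g := Submodule.mkQ_surjective _
  have hfg : Function.Exact (f : B →ₗ[R] Tm) g := by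
    intro x
    change (LinearMap.range f).mkQ x = 0 ↔ _
    rw [← LinearMap.mem_ker, Submodule.ker_mkQ]
    rfl
  have hT1fac : InFac T T1 := ⟨m, g, hg⟩
  have hT1f : Module.Finite R T1 := infac_finite hTf hT1fac
  -- T1 is Ext-projective in Fac T
  have hT1ext : ∀ N : ModuleCat.{0} R, InFac T N → Subsingleton (Abelian.Ext.{0} T1 N 1) := by
    intro N hN
    exact ez_of_ext (A := B) (B := Tm) (C := T1) f g hf hfg hg (ez_pow (hrig N hN) m)
      (happ N hN)
  let U : ModuleCat.{0} R := ModuleCat.of R (T × T1)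
  have hUf : Module.Finite R U := by
    change Module.Finite R (T × T1)
    infer_instance
  have hUfac : InFac T U := by
    refine ⟨m + 1, LinearMap.prod (LinearMap.proj 0)
      (g ∘ₗ LinearMap.pi fun i => LinearMap.proj (Fin.succ i)), fun x => ?_⟩
    obtain ⟨v, hv⟩ := hg x.2
    exact ⟨Fin.cons x.1 v, Prod.ext rfl hv⟩
  have hUrig : TauRigid U := by
    intro N hN
    have hNf : Module.Finite R N := infac_finite hUf hN
    have hN' : InFac T N := infac_trans hNf hUfac hN
    refine ez_contra2 (A := T) (B := U) (C := T1) (LinearMap.inl R T T1) (LinearMap.snd R T T1)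
      LinearMap.inl_injective ?_ LinearMap.snd_surjective (hrig N hN') (hT1ext N hN')
    intro x
    constructor
    · intro h
      exact ⟨x.1, Prod.ext rfl h.symm⟩
    · rintro ⟨a, rfl⟩
      rfl
  have hTU : IsSummand T U := ⟨LinearMap.inl R T T1, LinearMap.fst R T T1, rfl⟩
  have hT1U : IsSummand T1 U := ⟨LinearMap.inr R T T1, LinearMap.snd R T T1, rfl⟩
  -- all simple modules are killed by the annihilator of T
  have hsimple : ∀ j, ∀ r : R, (∀ u : T, r • u = 0) → ∀ y : S j, r • y = 0 := by
    by_contra hcon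
    push Not at hcon
    obtain ⟨j0, r0, hr0, y0, hy0⟩ := hcon
    cases n with
    | zero => exact j0.elim0
    | succ n =>
      have h1 := count_le T hTf hrig X hX1 hX2 (fun j => S (j0.succAbove j))
        (fun j => hS1 _) (by
          intro Y hY hYann
          obtain ⟨i, ⟨e⟩⟩ := hS3 Y hY
          have hne : i ≠ j0 := by
            rintro rfl
            apply hy0
            apply e.symm.injective
            rw [map_smul, map_zero]
            exact hYann r0 hr0 _
          obtain ⟨j, rfl⟩ := Fin.exists_succAbove_eq hne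
          exact ⟨j, ⟨e⟩⟩)
      omega
  -- T1 is a summand of a power of T
  have hT1sum : ∃ r, IsSummand T1 (ModuleCat.of R (Fin r → T)) := by
    have hT1k : Module.Finite (Subring.center R) T1 := finite_center
    have hln : 0 ≤ len (Subring.center R) T1 := len_nonneg
    refine decomp (P := fun M => ∃ r, IsSummand M (ModuleCat.of R (Fin r → T))) ?_ ?_
      (len (Subring.center R) T1).toNat T1 hT1f (by omega) ?_
    · intro M hM
      exact ⟨0, 0, 0, LinearMap.ext fun x => Subsingleton.elim _ _⟩
    · rintro Y Z M ⟨r, hr⟩ ⟨s, hs⟩ ⟨e⟩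
      refine ⟨r + s, summand_trans (summand_equiv (Y := ModuleCat.of R (Y × Z)) e)
        (summand_trans (summand_prod hr hs) (summand_equiv
          (X := ModuleCat.of R ((Fin r → T) × (Fin s → T)))
          (Y := ModuleCat.of R (Fin (r + s) → T)) ?_))⟩
      exact ((LinearEquiv.funCongrLeft R T (finSumFinEquiv (m := r) (n := s))).trans
        (LinearEquiv.sumArrowLequivProdArrow (Fin r) (Fin s) R T)).symm
    · intro Y hYi hYs
      by_cases hex : ∃ i, Nonempty (Y ≃ₗ[R] X i)
      · obtain ⟨i, ⟨e⟩⟩ := hex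
        refine ⟨1, summand_trans (summand_trans (summand_equiv e) (hX1 i).2) ?_⟩
        exact ⟨LinearMap.pi fun _ => LinearMap.id, LinearMap.proj 0, rfl⟩
      · exfalso
        have h1 := count_le U hUf hUrig (Fin.cons Y X : Fin (n + 1) → ModuleCat.{0} R) (by
            intro i
            refine Fin.cases ?_ ?_ i
            · exact ⟨hYi, summand_trans hYs hT1U⟩
            · intro i
              exact ⟨(hX1 i).1, summand_trans (hX1 i).2 hTU⟩) (by
            intro i j
            refine Fin.cases ?_ ?_ i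
            · refine Fin.cases ?_ ?_ j
              · intro _
                rfl
              · rintro j ⟨e⟩
                exact absurd ⟨j, ⟨e⟩⟩ hex
            · intro i
              refine Fin.cases ?_ ?_ j
              · rintro ⟨e⟩
                exact absurd ⟨i, ⟨e.symm⟩⟩ hex
              · intro j h
                rw [hX2 i j h]) S hS1 (fun Y' hY' _ => hS3 Y' hY')
        omega
  obtain ⟨r1, i1, p1, hip1⟩ := hT1sum
  -- Ext from T1 and from the powers of T to T
  have hTmT : ∀ i, 1 ≤ i → i ≤ L + 2 → Subsingleton (Abelian.Ext.{0} Tm T i) := by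
    intro i h1 h2
    obtain ⟨i, rfl⟩ : ∃ i', i = i' + 1 := ⟨i - 1, by omega⟩
    exact ez_pow (hself _ h1 h2) m
  have hT1T : ∀ i, 1 ≤ i → i ≤ L + 2 → Subsingleton (Abelian.Ext.{0} T1 T i) := by
    intro i h1 h2
    obtain ⟨i, rfl⟩ : ∃ i', i = i' + 1 := ⟨i - 1, by omega⟩
    exact ez_retract (W := ModuleCat.of R (Fin r1 → T)) i1 p1 hip1 (ez_pow (hself _ h1 h2) r1)
  have hBT : ∀ i, 1 ≤ i → i ≤ L + 1 → Subsingleton (Abelian.Ext.{0} B T i) := by
    intro i h1 h2
    exact ez_contra1 (A := B) (B := Tm) (C := T1) f g hf hfg hg (hTmT i h1 (by omega))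
      (hT1T (i + 1) (by omega) (by omega))
  -- the annihilator as a left module
  let I : ModuleCat.{0} R := ModuleCat.of R (Module.annihilator R T)
  let inc : I →ₗ[R] R := (Module.annihilator R T).subtype
  have hinc : Function.Injective inc := Submodule.injective_subtype _
  let mk : R →ₗ[R] B := (Module.annihilator R T).mkQ
  have hmk : Function.Surjective mk := Submodule.mkQ_surjective _
  have hincmk : Function.Exact inc mk := LinearMap.exact_subtype_mkQ _
  have hIT : ∀ i, i ≤ L → Subsingleton (Abelian.Ext.{0} I T i) := by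
    intro i hi
    cases i with
    | zero =>
      rw [ez_zero_iff]
      intro φ
      obtain ⟨ψ, hψ⟩ := ext_of_ez (A := I) (B := ModuleCat.of R R) (C := B) inc mk hinc hincmk hmk
        (hBT 1 le_rfl (by omega)) φ
      refine LinearMap.ext fun x => ?_
      rw [← hψ]
      change ψ (x : R) = 0
      have h1 : ψ (x : R) = (x : R) • ψ (1 : R) := by
        rw [← map_smul, smul_eq_mul, mul_one]
      rw [h1]
      exact Module.mem_annihilator.mp x.2 _
    | succ i =>
      exact ez_contra1 (A := I) (B := ModuleCat.of R R) (C := B) inc mk hinc hincmk hmk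
        (ez_projective (P := ModuleCat.of R R) (by
          change Module.Projective R R
          infer_instance) i) (hBT (i + 2) (by omega) (by omega))
  have hIT1 : ∀ i, i ≤ L → Subsingleton (Abelian.Ext.{0} I T1 i) := by
    intro i hi
    exact ez_retract_right (W := ModuleCat.of R (Fin r1 → T)) i1 p1 hip1
      (ez_pow_right' (hIT i hi) r1)
  have hIB : ∀ i, i ≤ L → Subsingleton (Abelian.Ext.{0} I B i) := by
    intro i hi
    cases i with
    | zero =>
      rw [ez_zero_iff]
      intro φ
      have h1 := ez_zero_iff.mp (ez_pow_right' (hIT 0 (by omega)) m) (f ∘ₗ φ)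
      refine LinearMap.ext fun x => hf ?_
      rw [LinearMap.zero_apply, map_zero]
      exact LinearMap.congr_fun h1 x
    | succ i =>
      exact ez_cov1 (A := B) (B := Tm) (C := T1) f g hf hfg hg
        (ez_pow_right' (hIT (i + 1) hi) m) (hIT1 i (by omega))
  -- the annihilator is zero
  have hIf : Module.Finite R I := by
    change Module.Finite R (Module.annihilator R T)
    infer_instance
  obtain ⟨Z, nn, κ, ρ, hZ0, hκ, hex, hρ⟩ := exists_freeres I hIf
  have hext : ∀ i, i ≤ q → ∀ φ : Z (i + 1) →ₗ[R] (R ⧸ Module.annihilator R T),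
      ∃ ψ : (Fin (nn i) → R) →ₗ[R] (R ⧸ Module.annihilator R T), ψ ∘ₗ κ i = φ := by
    intro i hi φ
    refine chainSD_ext (Z := Z) (P := fun i => ModuleCat.of R (Fin (nn i) → R)) (D := B) κ ρ hκ
      hex hρ (fun i => ?_) i ?_ φ
    · change Module.Projective R (Fin (nn i) → R)
      infer_instance
    · rw [hZ0]
      exact hIB (i + 1) (by omega)
  have hzero : ∀ φ : Z 0 →ₗ[R] (R ⧸ Module.annihilator R T), φ = 0 := by
    rw [hZ0]
    exact ez_zero_iff.mp (hIB 0 (by omega))
  have hone : ∀ r : R, r • (1 : R ⧸ Module.annihilator R T) = 0 → ∀ u : T, r • u = 0 := by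
    intro r hr
    have h1 : (Submodule.Quotient.mk r : R ⧸ Module.annihilator R T) = 0 := by
      rw [← hr]
      change _ = r • (Submodule.Quotient.mk (1 : R) : R ⧸ Module.annihilator R T)
      rw [← Submodule.Quotient.mk_smul, smul_eq_mul, mul_one]
    rw [Submodule.Quotient.mk_eq_zero] at h1
    exact Module.mem_annihilator.mp h1
  have hsurj : ∀ b : R ⧸ Module.annihilator R T,
      ∃ r : R, r • (1 : R ⧸ Module.annihilator R T) = b := by
    intro b
    obtain ⟨r, rfl⟩ := Submodule.Quotient.mk_surjective _ b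
    refine ⟨r, ?_⟩
    change r • (Submodule.Quotient.mk (1 : R) : R ⧸ Module.annihilator R T) = _
    rw [← Submodule.Quotient.mk_smul, smul_eq_mul, mul_one]
  have htop : ∀ N : Submodule R (Z 0),
      (∀ r : R, r • (1 : R ⧸ Module.annihilator R T) = 0 → ∀ x : Z 0, r • x ∈ N) → N = ⊤ :=
    fun N hN => top_of_pd κ ρ hex hρ q hext hzero le_rfl hq1 (hpdq Z nn κ ρ hZ0 hκ hex hρ hext hzero hIB) hsurj N hN
  have hsub : Subsingleton (Z 0) := by
    by_contra hns
    have hnt : Nontrivial (Z 0) := not_subsingleton_iff_nontrivial.mp hns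
    have hZf : Module.Finite R (Z 0) := by
      rw [hZ0]
      exact hIf
    obtain ⟨N, hN⟩ := IsCoatomic.exists_coatom (Submodule R (Z 0))
    have hs : IsSimpleModule R (Z 0 ⧸ N) := isSimpleModule_iff_isCoatom.mpr hN
    obtain ⟨j, ⟨e⟩⟩ := hS3 (ModuleCat.of R (Z 0 ⧸ N)) hs
    apply hN.1
    apply htop
    intro r hr x
    rw [← Submodule.ker_mkQ N, LinearMap.mem_ker, map_smul]
    apply e.injective
    rw [map_smul, map_zero]
    exact hsimple j r (hone r hr) _
  rw [hZ0] at hsub
  have hann : ∀ r : R, (∀ u : T, r • u = 0) → r = 0 := by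
    intro r hr
    have h1 : (⟨r, Module.mem_annihilator.mpr hr⟩ : Module.annihilator R T) = 0 :=
      hsub.elim (⟨r, Module.mem_annihilator.mpr hr⟩ : Module.annihilator R T)
        (0 : Module.annihilator R T)
    exact congrArg Subtype.val h1
  -- the projective dimension
  have hpd : HasProjectiveDimensionLE T 1 := by
    obtain ⟨P0, P1, p, q, hP0f, hP1f, hP0, hP1, hpq, hq, hlift⟩ := exists_pres T T hTf hTf hrig
    have hP1e : ∃ (s : ℕ) (e : P1 →ₗ[R] (Fin s → Fin m → T)), Function.Injective e := by
      obtain ⟨s, a, ha⟩ := Module.Finite.exists_fin' R P1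
      obtain ⟨b, hb⟩ := Module.projective_lifting_property a LinearMap.id ha
      let j : R →ₗ[R] (Fin m → T) := f ∘ₗ (Module.annihilator R T).mkQ
      have hj : Function.Injective j := by
        refine hf.comp ?_
        rw [← LinearMap.ker_eq_bot, Submodule.ker_mkQ, eq_bot_iff]
        intro r hr
        exact hann r (Module.mem_annihilator.mp hr)
      refine ⟨s, (LinearMap.pi fun i => j ∘ₗ LinearMap.proj i) ∘ₗ b, ?_⟩
      intro x y hxy
      have h1 : b x = b y := by
        funext i
        exact hj (congrFun hxy i)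
      have h2 := congrArg a h1
      rwa [show a (b x) = x from LinearMap.congr_fun hb x,
        show a (b y) = y from LinearMap.congr_fun hb y] at h2
    obtain ⟨s, e, he⟩ := hP1e
    have hNfac : InFac T (ModuleCat.of R (Fin s → Fin m → T)) := by
      refine infac_trans (U := Tm) ?_ (infac_pow T m) (infac_pow Tm s)
      change Module.Finite R (Fin s → Fin m → T)
      infer_instance
    obtain ⟨ψ, hψ⟩ := hlift _ hNfac e
    have hp : Function.Injective p := by
      intro x y hxy
      apply he
      rw [← hψ]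
      change ψ (p x) = ψ (p y)
      rw [hxy]
    have hP0' : Projective P0 := (IsProjective.iff_projective P0).mp hP0
    have hP1' : Projective P1 := (IsProjective.iff_projective P1).mp hP1
    exact (sc_shortExact (A := P1) (B := P0) (C := T) p q hp hpq hq).hasProjectiveDimensionLT_X₃ 1
      (projective_iff_hasProjectiveDimensionLT_one.mp hP1')
      (by
        have h1 := projective_iff_hasProjectiveDimensionLT_one.mp hP0'
        exact hasProjectiveDimensionLT_of_ge P0 1 2 (by omega))
  exact ⟨hTf, hpd, hself 1 le_rfl (by omega), n, hX, hSs⟩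

/-- Main theorem, general form: it is enough that the dual of some syzygy of the annihilator has
smaller projective dimension than expected. -/
theorem main_q (T : ModuleCat.{0} R) (hT : TauTilting T) (q : ℕ) (hq1 : 1 ≤ q)
    (hpdq : ∀ (Z : ℕ → ModuleCat.{0} R) (nn : ℕ → ℕ)
      (κ : ∀ i, Z (i + 1) →ₗ[R] (Fin (nn i) → R)) (ρ : ∀ i, (Fin (nn i) → R) →ₗ[R] Z i),
      Z 0 = ModuleCat.of R (Module.annihilator R T) →
      (∀ i, Function.Injective (κ i)) → (∀ i, Function.Exact (κ i) (ρ i)) →
      (∀ i, Function.Surjective (ρ i)) →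
      (∀ i, i ≤ q → ∀ φ : Z (i + 1) →ₗ[R] (R ⧸ Module.annihilator R T),
        ∃ ψ : (Fin (nn i) → R) →ₗ[R] (R ⧸ Module.annihilator R T), ψ ∘ₗ κ i = φ) →
      (∀ φ : Z 0 →ₗ[R] (R ⧸ Module.annihilator R T), φ = 0) →
      HasProjectiveDimensionLT (GM (R ⧸ Module.annihilator R T) Z (q + 1)) q)
    (hself : ∀ i, 1 ≤ i → i ≤ q + 3 → Subsingleton (Abelian.Ext.{0} T T i)) :
    OneTilting T := by
  refine main_qL T hT q (q + 1) hq1 le_rfl ?_ hself
  intro Z nn κ ρ h1 h2 h3 h4 h5 h6 _
  exact hpdq Z nn κ ρ h1 h2 h3 h4 h5 h6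

/-- Main theorem. -/
theorem main (T : ModuleCat.{0} R) (hT : TauTilting T) (d : ℕ)
    (hd : RightFindimLE (R ⧸ Module.annihilator R T) d)
    (hself : ∀ i, 1 ≤ i → i ≤ d + 4 → Subsingleton (Abelian.Ext.{0} T T i)) :
    OneTilting T := by
  have hartR : IsArtinianRing R := IsArtinianRing.of_finite (Subring.center R) R
  refine main_q T hT (d + 1) (by omega) ?_ hself
  intro Z nn κ ρ _ hκ hex hρ hext hzero
  exact pd_of_findim κ ρ hex hρ (d + 1) hext hzero le_rfl hd

end

end Pool.Agent.Helper426TauT
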