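import Pool.Agent.Helper426_TauT.Count

set_option autoImplicit false
open CategoryTheory Pool.Agent.Helper426Tach

namespace Pool.Agent.Helper426TauT

section
variable {R : Type} [Ring R]

theorem summand_refl (M : ModuleCat.{0} R) : IsSummand M M := ⟨LinearMap.id, LinearMap.id, rfl⟩

theorem summand_trans {X Y Z : ModuleCat.{0} R} (h : IsSummand X Y) (h' : IsSummand Y Z) :
    IsSummand X Z := by
  obtain ⟨i, p, hp⟩ := h
  obtain ⟨j, q, hq⟩ := h'
  refine ⟨j ∘ₗ i, p ∘ₗ q, LinearMap.ext fun x => ?_⟩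
  change p (q (j (i x))) = x
  rw [show q (j (i x)) = i x from LinearMap.congr_fun hq (i x)]
  exact LinearMap.congr_fun hp x

theorem summand_equiv {X Y : ModuleCat.{0} R} (e : X ≃ₗ[R] Y) : IsSummand X Y :=
  ⟨e.toLinearMap, e.symm.toLinearMap, LinearMap.ext fun x => e.symm_apply_apply x⟩

theorem summand_prod {X Y X' Y' : ModuleCat.{0} R} (h : IsSummand X X') (h' : IsSummand Y Y') :
    IsSummand (ModuleCat.of R (X × Y)) (ModuleCat.of R (X' × Y')) := by
  obtain ⟨i, p, hp⟩ := h
  obtain ⟨j, q, hq⟩ := h'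
  refine ⟨LinearMap.prodMap i j, LinearMap.prodMap p q, LinearMap.ext fun x => ?_⟩
  exact Prod.ext (LinearMap.congr_fun hp x.1) (LinearMap.congr_fun hq x.2)

theorem summand_fst (Y Z M : ModuleCat.{0} R) (e : M ≃ₗ[R] (Y × Z)) : IsSummand Y M :=
  ⟨e.symm.toLinearMap ∘ₗ LinearMap.inl R Y Z, LinearMap.fst R Y Z ∘ₗ e.toLinearMap,
    LinearMap.ext fun x => by simp⟩

theorem summand_snd (Y Z M : ModuleCat.{0} R) (e : M ≃ₗ[R] (Y × Z)) : IsSummand Z M :=
  ⟨e.symm.toLinearMap ∘ₗ LinearMap.inr R Y Z, LinearMap.snd R Y Z ∘ₗ e.toLinearMap,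
    LinearMap.ext fun x => by simp⟩

theorem infac_trans [IsNoetherianRing R] {T U N : ModuleCat.{0} R} (hN : Module.Finite R N)
    (h1 : InFac T U) (h2 : InFac U N) : InFac T N := by
  classical
  obtain ⟨q, G, hG⟩ := h1
  obtain ⟨n, F, hF⟩ := h2
  refine infac_of_span hN ?_
  rw [eq_top_iff]
  intro x _
  obtain ⟨v, rfl⟩ := hF x
  have hv : v = ∑ i, Pi.single i (v i) := (Finset.univ_sum_single v).symm
  rw [hv, map_sum]
  refine Submodule.sum_mem _ fun i _ => ?_
  obtain ⟨w, hw⟩ := hG (v i)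
  rw [← hw]
  have hw' : w = ∑ l, Pi.single l (w l) := (Finset.univ_sum_single w).symm
  rw [hw', map_sum]
  have h3 : (Pi.single i (∑ l, G (Pi.single l (w l))) : Fin n → U) =
      ∑ l, Pi.single i (G (Pi.single l (w l))) := by
    exact map_sum (LinearMap.single R (fun _ : Fin n => (U : Type)) i) _ _
  rw [h3, map_sum]
  refine Submodule.sum_mem _ fun l _ => ?_
  exact Submodule.subset_span
    ⟨F ∘ₗ LinearMap.single R (fun _ : Fin n => (U : Type)) i ∘ₗ G ∘ₗ
      LinearMap.single R (fun _ : Fin q => (T : Type)) l, w l, rfl⟩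

theorem infac_pow (T : ModuleCat.{0} R) (n : ℕ) : InFac T (ModuleCat.of R (Fin n → T)) :=
  ⟨n, LinearMap.id, fun x => ⟨x, rfl⟩⟩

end

section
variable {R : Type} [Ring R] [hart : IsArtinianRing (Subring.center R)]
  [hfin : Module.Finite (Subring.center R) R]

/-- decomposition into indecomposable modules, as an induction principle -/
theorem decomp {P : ModuleCat.{0} R → Prop} (h0 : ∀ M : ModuleCat.{0} R, Subsingleton M → P M)
    (hprod : ∀ Y Z M : ModuleCat.{0} R, P Y → P Z → Nonempty (M ≃ₗ[R] (Y × Z)) → P M) :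
    ∀ (l : ℕ) (M : ModuleCat.{0} R), Module.Finite R M → len (Subring.center R) M ≤ l →
      (∀ Y : ModuleCat.{0} R, Indec Y → IsSummand Y M → P Y) → P M := by
  intro l
  induction l with
  | zero =>
    intro M hM hl _
    have h1 : Module.Finite (Subring.center R) M := finite_center
    have h2 : 0 ≤ len (Subring.center R) M := len_nonneg
    have h3 : len (Subring.center R) M = 0 := by
      have : ((0 : ℕ) : ℤ) = 0 := rfl
      omega
    exact h0 M (len_eq_zero_iff.mp h3)
  | succ l ih =>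
    intro M hM hl hP
    by_cases hs : Subsingleton M
    · exact h0 M hs
    by_cases hi : Indec M
    · exact hP M hi (summand_refl M)
    have hnt : Nontrivial M := not_subsingleton_iff_nontrivial.mp hs
    have h1 : ¬ ∀ Y Z : ModuleCat.{0} R, Nonempty (M ≃ₗ[R] (Y × Z)) →
        Subsingleton Y ∨ Subsingleton Z := fun h => hi ⟨hnt, h⟩
    push Not at h1
    obtain ⟨Y, Z, ⟨e⟩, hY, hZ⟩ := h1
    have hMk : Module.Finite (Subring.center R) M := finite_center
    have hYf : Module.Finite R Y := by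
      refine Module.Finite.of_surjective (LinearMap.fst R Y Z ∘ₗ e.toLinearMap) fun y => ?_
      exact ⟨e.symm (y, 0), by simp⟩
    have hZf : Module.Finite R Z := by
      refine Module.Finite.of_surjective (LinearMap.snd R Y Z ∘ₗ e.toLinearMap) fun z => ?_
      exact ⟨e.symm (0, z), by simp⟩
    have hYk : Module.Finite (Subring.center R) Y := finite_center
    have hZk : Module.Finite (Subring.center R) Z := finite_center
    have h2 : len (Subring.center R) M = len (Subring.center R) Y + len (Subring.center R) Z := by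
      rw [← len_prod]
      exact len_equiv (e.restrictScalars (Subring.center R))
    have h3 : 0 ≤ len (Subring.center R) Y := len_nonneg
    have h4 : 0 ≤ len (Subring.center R) Z := len_nonneg
    have h5 : len (Subring.center R) Y ≠ 0 := by
      intro h
      exact not_subsingleton_iff_nontrivial.mpr hY (len_eq_zero_iff.mp h)
    have h6 : len (Subring.center R) Z ≠ 0 := by
      intro h
      exact not_subsingleton_iff_nontrivial.mpr hZ (len_eq_zero_iff.mp h)
    have h7 : ((l + 1 : ℕ) : ℤ) = (l : ℤ) + 1 := by push_cast; rfl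
    refine hprod Y Z M (ih Y hYf (by omega) fun W hW hWY =>
      hP W hW (summand_trans hWY (summand_fst Y Z M e)))
      (ih Z hZf (by omega) fun W hW hWZ =>
      hP W hW (summand_trans hWZ (summand_snd Y Z M e))) ⟨e⟩

end

section
variable {R : Type} [Ring R] [HasExt.{0} (ModuleCat.{0} R)]

theorem ez_of_ext {A B C : ModuleCat.{0} R} (f : A →ₗ[R] B) (g : B →ₗ[R] C)
    (hf : Function.Injective f) (hfg : Function.Exact f g) (hg : Function.Surjective g)
    {N : ModuleCat.{0} R} (h : Subsingleton (Abelian.Ext.{0} B N 1))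
    (hx : ∀ φ : A →ₗ[R] N, ∃ ψ : B →ₗ[R] N, ψ ∘ₗ f = φ) :
    Subsingleton (Abelian.Ext.{0} C N 1) := by
  have hS := sc_shortExact f g hf hfg hg
  refine subsingleton_of_forall_eq 0 fun x => ?_
  obtain ⟨y, hy⟩ := Abelian.Ext.contravariant_sequence_exact₃ hS N x (h.elim _ _) (add_zero 1)
  obtain ⟨φ, rfl⟩ := Abelian.Ext.mk₀_bijective _ _ |>.2 y
  obtain ⟨ψ, hψ⟩ := hx φ.hom
  have h1 : φ = (sc f g hfg).f ≫ ModuleCat.ofHom ψ := by
    apply ModuleCat.hom_ext
    exact hψ.symm
  rw [← hy, h1, ← Abelian.Ext.mk₀_comp_mk₀, ← Abelian.Ext.comp_assoc_of_second_deg_zero,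
    hS.extClass_comp, Abelian.Ext.zero_comp]

theorem ez_zero_iff {X Y : ModuleCat.{0} R} :
    Subsingleton (Abelian.Ext.{0} X Y 0) ↔ ∀ φ : X →ₗ[R] Y, φ = 0 := by
  constructor
  · intro h φ
    have h1 : Abelian.Ext.mk₀ (ModuleCat.ofHom φ) = Abelian.Ext.mk₀ (0 : X ⟶ Y) := h.elim _ _
    have h2 := (Abelian.Ext.mk₀_bijective _ _).1 h1
    exact congrArg ModuleCat.Hom.hom h2
  · intro h
    refine subsingleton_of_forall_eq 0 fun x => ?_
    obtain ⟨φ, rfl⟩ := Abelian.Ext.mk₀_bijective _ _ |>.2 x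
    have h1 : φ = 0 := by
      apply ModuleCat.hom_ext
      exact h φ.hom
    rw [h1, Abelian.Ext.mk₀_zero]

theorem ez_pow_right' {X Y : ModuleCat.{0} R} {n : ℕ}
    (h : Subsingleton (Abelian.Ext.{0} X Y n)) (r : ℕ) :
    Subsingleton (Abelian.Ext.{0} X (ModuleCat.of R (Fin r → Y)) n) := by
  cases n with
  | zero =>
    rw [ez_zero_iff] at h ⊢
    intro φ
    refine LinearMap.ext fun x => ?_
    funext i
    exact LinearMap.congr_fun (h (LinearMap.proj i ∘ₗ φ)) x
  | succ n => exact ez_pow_right h r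

end

end Pool.Agent.Helper426TauT
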