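import Pool.Agent.Helper426_TauT.Defs
import Pool.Agent.Helper426_Tach.QF

set_option autoImplicit false
open CategoryTheory Pool.Agent.Helper426Tach

namespace Pool.Agent.Helper426TauT

section fit
variable {R : Type} [Ring R] [IsArtinianRing R]

/-- Fitting's lemma -/
theorem fitting {X : ModuleCat.{0} R} (hf : Module.Finite R X) (hX : Indec X) (h : X →ₗ[R] X) :
    Function.Bijective h ∨ Function.Bijective ((LinearMap.id : X →ₗ[R] X) - h) := by
  obtain ⟨k0, hk0⟩ := Filter.eventually_atTop.mp
    (LinearMap.eventually_isCompl_ker_pow_range_pow (R := R) (M := X) h)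
  have hc := hk0 (k0 + 1) (Nat.le_succ _)
  have e := (Submodule.prodEquivOfIsCompl _ _ hc).symm
  rcases hX.2 (ModuleCat.of R (LinearMap.ker (h ^ (k0 + 1))))
    (ModuleCat.of R (LinearMap.range (h ^ (k0 + 1)))) ⟨e⟩ with h1 | h1
  · left
    apply IsArtinian.bijective_of_injective_endomorphism
    rw [← LinearMap.ker_eq_bot, eq_bot_iff]
    intro x hx
    have hx' : h x = 0 := hx
    have h2 : (h ^ (k0 + 1)) x = 0 := by
      rw [pow_succ, Module.End.mul_apply, hx', map_zero]
    have h3 : (⟨x, h2⟩ : LinearMap.ker (h ^ (k0 + 1))) = 0 := Subsingleton.elim _ _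
    exact congrArg Subtype.val h3
  · right
    have h2 : h ^ (k0 + 1) = 0 := by
      refine LinearMap.ext fun x => ?_
      have h3 : (⟨(h ^ (k0 + 1)) x, ⟨x, rfl⟩⟩ : LinearMap.range (h ^ (k0 + 1))) = 0 :=
        Subsingleton.elim _ _
      exact congrArg Subtype.val h3
    have h4 : IsUnit (1 - h : Module.End R X) := IsNilpotent.isUnit_one_sub ⟨_, h2⟩
    exact (Module.End.isUnit_iff _).mp h4

theorem iso_of_factor {X Y : ModuleCat.{0} R} (hfY : Module.Finite R Y)
    (hX : Nontrivial X) (hY : Indec Y) (α : X →ₗ[R] Y) (β : Y →ₗ[R] X)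
    (hb : Function.Bijective (β ∘ₗ α)) : Nonempty (X ≃ₗ[R] Y) := by
  let e := LinearEquiv.ofBijective (β ∘ₗ α) hb
  let r : Y →ₗ[R] X := e.symm.toLinearMap ∘ₗ β
  have hr : ∀ x, r (α x) = x := by
    intro x
    change e.symm (e x) = x
    exact e.symm_apply_apply x
  have hinj : Function.Injective α := Function.LeftInverse.injective hr
  rcases fitting hfY hY (α ∘ₗ r) with h | h
  · refine ⟨LinearEquiv.ofBijective α ⟨hinj, fun y => ?_⟩⟩
    obtain ⟨y', hy'⟩ := h.2 y
    exact ⟨r y', hy'⟩
  · exfalso
    obtain ⟨x, hx⟩ := exists_ne (0 : X)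
    apply hx
    apply hinj
    apply h.1
    rw [map_zero, map_zero]
    change α x - α (r (α x)) = 0
    rw [hr, sub_self]

end fit

section tr
variable {R : Type} [Ring R] {m : ℕ} (G : Fin m → ModuleCat.{0} R)

/-- the trace of the modules G i, i in s, in X -/
def trc (s : Finset (Fin m)) (X : Type) [AddCommGroup X] [Module R X] : Submodule R X :=
  Submodule.span R {x | ∃ i ∈ s, ∃ (h : G i →ₗ[R] X) (y : G i), h y = x}

variable {X Y : Type} [AddCommGroup X] [Module R X] [AddCommGroup Y] [Module R Y]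

theorem mem_trc {s : Finset (Fin m)} {i : Fin m} (hi : i ∈ s) (h : G i →ₗ[R] X) (y : G i) :
    h y ∈ trc G s X := Submodule.subset_span ⟨i, hi, h, y, rfl⟩

theorem trc_map {s : Finset (Fin m)} (f : X →ₗ[R] Y) {x : X} (hx : x ∈ trc G s X) :
    f x ∈ trc G s Y := by
  have h1 : trc G s X ≤ (trc G s Y).comap f := by
    refine Submodule.span_le.mpr ?_
    rintro _ ⟨i, hi, h, y, rfl⟩
    exact mem_trc G hi (f ∘ₗ h) y
  exact h1 hx

theorem trc_trans {s t : Finset (Fin m)} (hst : ∀ i ∈ s, trc G t (G i) = ⊤) :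
    trc G s X ≤ trc G t X := by
  refine Submodule.span_le.mpr ?_
  rintro _ ⟨i, hi, h, y, rfl⟩
  have h1 : y ∈ trc G t (G i) := by
    rw [hst i hi]
    trivial
  exact trc_map G h h1

theorem trc_self {s : Finset (Fin m)} {i : Fin m} (hi : i ∈ s) : trc G s (G i) = ⊤ := by
  rw [eq_top_iff]
  intro y _
  exact mem_trc G hi LinearMap.id y

theorem trc_empty : trc G ∅ X = ⊥ := by
  rw [trc, Submodule.span_eq_bot]
  rintro _ ⟨i, hi, _⟩
  exact absurd hi (Finset.notMem_empty i)

/-- two additive families: elements r • x -/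
theorem trc_ind {s : Finset (Fin m)} (W : AddSubgroup Y) (f : X →ₗ[R] Y)
    (hW : ∀ i ∈ s, ∀ (h : G i →ₗ[R] X) (y : G i), f (h y) ∈ W) {x : X} (hx : x ∈ trc G s X) :
    f x ∈ W := by
  have h1 : ∀ r : R, f (r • x) ∈ W := by
    induction hx using Submodule.span_induction with
    | mem x hx =>
      obtain ⟨i, hi, h, y, rfl⟩ := hx
      intro r
      rw [← map_smul h]
      exact hW i hi h _
    | zero =>
      intro r
      rw [smul_zero, map_zero]
      exact W.zero_mem
    | add x y _ _ ihx ihy =>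
      intro r
      rw [smul_add, map_add]
      exact W.add_mem (ihx r) (ihy r)
    | smul a x _ ih =>
      intro r
      rw [smul_smul]
      exact ih (r * a)
  have h2 := h1 1
  rwa [one_smul] at h2

end tr

section ex
variable {R : Type} [Ring R] [hart : IsArtinianRing (Subring.center R)]
  [hfin : Module.Finite (Subring.center R) R]

/-- two disjoint families of indecomposable modules cannot generate each other -/
theorem exchange {m : ℕ} (G : Fin m → ModuleCat.{0} R) (hG : ∀ i, Indec (G i))
    (hGf : ∀ i, Module.Finite R (G i)) (hne : ∀ i j, Nonempty (G i ≃ₗ[R] G j) → i = j)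
    (A B : Finset (Fin m)) (hAB : Disjoint A B) (hA : ∀ i ∈ A, trc G B (G i) = ⊤)
    (hB : ∀ j ∈ B, trc G A (G j) = ⊤) : A = ∅ := by
  classical
  have hartR : IsArtinianRing R := IsArtinianRing.of_finite (Subring.center R) R
  by_contra hAne
  obtain ⟨i1, hi1⟩ := Finset.nonempty_of_ne_empty hAne
  have hbt : ∀ i, (⊥ : Submodule R (G i)) ≠ ⊤ := by
    intro i
    have := (hG i).1
    exact bot_ne_top
  have hBne : B.Nonempty := by
    rw [Finset.nonempty_iff_ne_empty]
    intro h
    have h1 := hA i1 hi1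
    rw [h, trc_empty] at h1
    exact hbt _ h1
  obtain ⟨j0, hj0⟩ := hBne
  obtain ⟨I, hI, hImin⟩ := Finset.exists_min_image
    (A.powerset.filter fun I => ∀ j ∈ B, trc G I (G j) = ⊤) Finset.card
    ⟨A, Finset.mem_filter.mpr ⟨Finset.mem_powerset_self A, hB⟩⟩
  obtain ⟨hIA, hIB⟩ := Finset.mem_filter.mp hI
  rw [Finset.mem_powerset] at hIA
  have hIne : I.Nonempty := by
    rw [Finset.nonempty_iff_ne_empty]
    intro h
    have h1 := hIB j0 hj0
    rw [h, trc_empty] at h1
    exact hbt _ h1
  obtain ⟨i0, hi0⟩ := hIne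
  have hJ : ¬ ∀ j ∈ B, trc G (I.erase i0) (G j) = ⊤ := by
    intro h
    have h1 := hImin (I.erase i0) (Finset.mem_filter.mpr
      ⟨Finset.mem_powerset.mpr ((Finset.erase_subset _ _).trans hIA), h⟩)
    have h2 := Finset.card_erase_lt_of_mem hi0
    omega
  push Not at hJ
  obtain ⟨j, hj, hjne⟩ := hJ
  have hT : trc G (I.erase i0) (G i0) ≠ ⊤ := by
    intro h
    apply hjne
    rw [eq_top_iff, ← hIB j hj]
    apply trc_trans
    intro i hi
    by_cases hii : i = i0
    · rw [hii]
      exact h
    · exact trc_self G (Finset.mem_erase.mpr ⟨hii, hi⟩)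
  -- the endomorphism ring acts
  let X := G i0
  have hXfin : Module.Finite R X := hGf i0
  have hXk : Module.Finite (Subring.center R) X := finite_center
  have hXE : Module.Finite (Module.End R X) X :=
    Module.Finite.of_restrictScalars_finite (Subring.center R) (Module.End R X) X
  let UE : Submodule (Module.End R X) X :=
    { carrier := trc G (I.erase i0) X
      add_mem' := fun ha hb => Submodule.add_mem _ ha hb
      zero_mem' := Submodule.zero_mem _
      smul_mem' := fun f x hx => trc_map G (f : X →ₗ[R] X) hx }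
  have hUE : UE ≠ ⊤ := by
    intro h
    apply hT
    rw [eq_top_iff]
    intro x _
    have h1 : (x : X) ∈ UE := by
      rw [h]
      trivial
    exact h1
  obtain ⟨W, hW, hUW⟩ := (eq_top_or_exists_le_coatom UE).resolve_left hUE
  -- non-isomorphisms map into W
  have hnon : ∀ (f : Module.End R X), ¬ Function.Bijective f → ∀ z : X, f z ∈ W := by
    intro f hf z
    by_contra hz
    have h1 : W ⊔ Submodule.span (Module.End R X) {f z} = ⊤ := by
      apply hW.2
      refine lt_of_le_of_ne le_sup_left ?_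
      intro h
      apply hz
      rw [h]
      exact Submodule.mem_sup_right (Submodule.mem_span_singleton_self _)
    have h2 : z ∈ W ⊔ Submodule.span (Module.End R X) {f z} := by
      rw [h1]
      trivial
    obtain ⟨w, hw, y, hy, hwy⟩ := Submodule.mem_sup.mp h2
    obtain ⟨g, rfl⟩ := Submodule.mem_span_singleton.mp hy
    have hgf : ¬ Function.Bijective ((g : X →ₗ[R] X) ∘ₗ (f : X →ₗ[R] X)) := by
      intro h
      apply hf
      have h3 : Function.Injective (f : X →ₗ[R] X) := Function.Injective.of_comp h.1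
      exact IsArtinian.bijective_of_injective_endomorphism f h3
    have h3 := (fitting hXfin (hG i0) ((g : X →ₗ[R] X) ∘ₗ (f : X →ₗ[R] X))).resolve_left hgf
    let e := LinearEquiv.ofBijective _ h3
    have h4 : e z = w := by
      change z - g (f z) = w
      rw [sub_eq_iff_eq_add]
      exact hwy.symm
    have h5 : z = (e.symm.toLinearMap : Module.End R X) • w := by
      change z = e.symm w
      rw [← h4, LinearEquiv.symm_apply_apply]
    apply hz
    have h6 : z ∈ W := by
      rw [h5]
      exact W.smul_mem _ hw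
    exact W.smul_mem f h6
  apply hW.1
  rw [eq_top_iff]
  intro x _
  have hxB : x ∈ trc G B X := by
    have h1 := hA i0 (hIA hi0)
    change x ∈ trc G B (G i0)
    rw [h1]
    trivial
  refine trc_ind (Y := X) G W.toAddSubgroup LinearMap.id ?_ hxB
  intro j' hj' h y
  have hyI : y ∈ trc G I (G j') := by
    rw [hIB j' hj']
    trivial
  refine trc_ind (Y := X) G W.toAddSubgroup h ?_ hyI
  intro i hi h' z
  by_cases hii : i = i0
  · subst hii
    refine hnon (h ∘ₗ h') ?_ z
    intro hbij
    obtain ⟨e⟩ := iso_of_factor (hGf j') (hG i).1 (hG j') h' h hbij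
    have h7 := hne i j' ⟨e⟩
    subst h7
    exact Finset.disjoint_left.mp hAB (hIA hi) hj'
  · apply hUW
    exact mem_trc G (Finset.mem_erase.mpr ⟨hii, hi⟩) (h ∘ₗ h') z

end ex

end Pool.Agent.Helper426TauT
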